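import Mathlib

open MvPolynomial

namespace Pool.Agent.Helper4.BBConn

section Koszul

variable {S : Type} [CommRing S] [IsDomain S]

theorem kos2 {z0 z1 : S} (hz0 : z0 ≠ 0) (h1 : ∀ s, z0 ∣ z1 * s → z0 ∣ s)
    {r0 r1 : S} (h : z0 * r0 + z1 * r1 = 0) :
    ∃ t, r1 = z0 * t ∧ r0 = - (z1 * t) := by
  have : z0 ∣ z1 * r1 := ⟨-r0, by linear_combination h⟩
  obtain ⟨t, ht⟩ := h1 r1 this
  refine ⟨t, ht, ?_⟩
  have h2 : z0 * (r0 + z1 * t) = 0 := by
    rw [ht] at h
    linear_combination h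
  have h3 := (mul_eq_zero.mp h2).resolve_left hz0
  linear_combination h3

theorem kos3 {z0 z1 z2 : S} (hz0 : z0 ≠ 0) (h1 : ∀ s, z0 ∣ z1 * s → z0 ∣ s)
    (h2 : ∀ s, (∃ a b, z2 * s = z0 * a + z1 * b) → ∃ a b, s = z0 * a + z1 * b)
    {r0 r1 r2 : S} (h : z0 * r0 + z1 * r1 + z2 * r2 = 0) :
    ∃ t a b, r2 = z0 * a + z1 * b ∧ r1 = z0 * t - z2 * b ∧ r0 = - (z1 * t) - z2 * a := by
  obtain ⟨a, b, hab⟩ := h2 r2 ⟨-r0, -r1, by linear_combination h⟩
  have h3 : z0 * (r0 + z2 * a) + z1 * (r1 + z2 * b) = 0 := by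
    rw [hab] at h
    linear_combination h
  obtain ⟨t, ht1, ht0⟩ := kos2 hz0 h1 h3
  exact ⟨t, a, b, hab, by linear_combination ht1, by linear_combination ht0⟩

theorem kos4 {z0 z1 z2 z3 : S} (hz0 : z0 ≠ 0) (h1 : ∀ s, z0 ∣ z1 * s → z0 ∣ s)
    (h2 : ∀ s, (∃ a b, z2 * s = z0 * a + z1 * b) → ∃ a b, s = z0 * a + z1 * b)
    (h3 : ∀ s, (∃ a b c, z3 * s = z0 * a + z1 * b + z2 * c) →
      ∃ a b c, s = z0 * a + z1 * b + z2 * c)
    {r0 r1 r2 r3 : S} (h : z0 * r0 + z1 * r1 + z2 * r2 + z3 * r3 = 0) :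
    ∃ t a b c d e, r3 = z0 * c + z1 * d + z2 * e ∧ r2 = z0 * a + z1 * b - z3 * e ∧
      r1 = z0 * t - z2 * b - z3 * d ∧ r0 = - (z1 * t) - z2 * a - z3 * c := by
  obtain ⟨c, d, e, hcde⟩ := h3 r3 ⟨-r0, -r1, -r2, by linear_combination h⟩
  have h4 : z0 * (r0 + z3 * c) + z1 * (r1 + z3 * d) + z2 * (r2 + z3 * e) = 0 := by
    rw [hcde] at h
    linear_combination h
  obtain ⟨t, a, b, e2, e1, e0⟩ := kos3 hz0 h1 h2 h4
  exact ⟨t, a, b, c, d, e, hcde, by linear_combination e2, by linear_combination e1,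
    by linear_combination e0⟩

/-- Degree two cocycles on four elements are coboundaries. -/
theorem koscoc {z0 z1 z2 z3 : S} (hz0 : z0 ≠ 0) (h1 : ∀ s, z0 ∣ z1 * s → z0 ∣ s)
    (h2 : ∀ s, (∃ a b, z2 * s = z0 * a + z1 * b) → ∃ a b, s = z0 * a + z1 * b)
    {p01 p02 p03 p12 p13 p23 : S}
    (c012 : z0 * p12 - z1 * p02 + z2 * p01 = 0)
    (c013 : z0 * p13 - z1 * p03 + z3 * p01 = 0)
    (c023 : z0 * p23 - z2 * p03 + z3 * p02 = 0) :
    ∃ u0 u1 u2 u3, p01 = z0 * u1 - z1 * u0 ∧ p02 = z0 * u2 - z2 * u0 ∧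
      p03 = z0 * u3 - z3 * u0 ∧ p12 = z1 * u2 - z2 * u1 ∧ p13 = z1 * u3 - z3 * u1 ∧
      p23 = z2 * u3 - z3 * u2 := by
  obtain ⟨t, a, b, e2, e1, e0⟩ := kos3 (r0 := p12) (r1 := -p02) (r2 := p01) hz0 h1 h2
    (by linear_combination c012)
  -- `p01 = z0 a + z1 b`, `-p02 = z0 t - z2 b`, `p12 = -(z1 t) - z2 a`
  -- u1 = a, u0 = -b, u2 = -t
  have h3 : z0 * (p13 + z3 * a) + z1 * (-(p03 - z3 * b)) = 0 := by
    linear_combination c013 - z3 * e2
  obtain ⟨s, hs1, hs0⟩ := kos2 hz0 h1 h3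
  -- -(p03 - z3 b) = z0 s ; p13 + z3 a = -(z1 s)  → u3 = -s
  refine ⟨-b, a, -t, -s, by linear_combination e2, by linear_combination -e1,
    by linear_combination -hs1, by linear_combination e0, by linear_combination hs0, ?_⟩
  have h4 : z0 * (p23 - (z2 * (-s) - z3 * (-t))) = 0 := by
    linear_combination c023 - z2 * hs1 + z3 * e1
  have h5 := (mul_eq_zero.mp h4).resolve_left hz0
  linear_combination h5

theorem syz [DecompositionMonoid S] {F G : S} (hG : G ≠ 0) (hFG : IsRelPrime F G) {P Q : S}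
    (h : P * F + Q * G = 0) : ∃ t, P = t * G ∧ Q = - (t * F) := by
  have h1 : G ∣ F * P := ⟨-Q, by linear_combination h⟩
  obtain ⟨t, ht⟩ := hFG.symm.dvd_of_dvd_mul_left h1
  refine ⟨t, by rw [ht]; ring, ?_⟩
  have h2 : G * (Q + t * F) = 0 := by
    rw [ht] at h
    linear_combination h
  have h3 := (mul_eq_zero.mp h2).resolve_left hG
  linear_combination h3

/-- Depth two: a Koszul one-cocycle modulo `(F, G)` is a coboundary. -/
theorem depth2 [DecompositionMonoid S] {z0 z1 z2 z3 : S} (hz0 : z0 ≠ 0)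
    (h1 : ∀ s, z0 ∣ z1 * s → z0 ∣ s)
    (h2 : ∀ s, (∃ a b, z2 * s = z0 * a + z1 * b) → ∃ a b, s = z0 * a + z1 * b)
    (h3 : ∀ s, (∃ a b c, z3 * s = z0 * a + z1 * b + z2 * c) →
      ∃ a b c, s = z0 * a + z1 * b + z2 * c)
    {F G : S} (hG : G ≠ 0) (hFG : IsRelPrime F G) {a0 a1 a2 a3 : S}
    (h01 : z0 * a1 - z1 * a0 ∈ Ideal.span {F, G})
    (h02 : z0 * a2 - z2 * a0 ∈ Ideal.span {F, G})
    (h03 : z0 * a3 - z3 * a0 ∈ Ideal.span {F, G})
    (h12 : z1 * a2 - z2 * a1 ∈ Ideal.span {F, G})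
    (h13 : z1 * a3 - z3 * a1 ∈ Ideal.span {F, G})
    (h23 : z2 * a3 - z3 * a2 ∈ Ideal.span {F, G}) :
    ∃ e, a0 - z0 * e ∈ Ideal.span {F, G} ∧ a1 - z1 * e ∈ Ideal.span {F, G} ∧
      a2 - z2 * e ∈ Ideal.span {F, G} ∧ a3 - z3 * e ∈ Ideal.span {F, G} := by
  rw [Ideal.mem_span_pair] at h01 h02 h03 h12 h13 h23
  obtain ⟨p01, q01, e01⟩ := h01
  obtain ⟨p02, q02, e02⟩ := h02
  obtain ⟨p03, q03, e03⟩ := h03
  obtain ⟨p12, q12, e12⟩ := h12
  obtain ⟨p13, q13, e13⟩ := h13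
  obtain ⟨p23, q23, e23⟩ := h23
  obtain ⟨r012, f012, g012⟩ := syz hG hFG (P := z0 * p12 - z1 * p02 + z2 * p01)
    (Q := z0 * q12 - z1 * q02 + z2 * q01) (by
      linear_combination z0 * e12 - z1 * e02 + z2 * e01)
  obtain ⟨r013, f013, g013⟩ := syz hG hFG (P := z0 * p13 - z1 * p03 + z3 * p01)
    (Q := z0 * q13 - z1 * q03 + z3 * q01) (by
      linear_combination z0 * e13 - z1 * e03 + z3 * e01)
  obtain ⟨r023, f023, g023⟩ := syz hG hFG (P := z0 * p23 - z2 * p03 + z3 * p02)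
    (Q := z0 * q23 - z2 * q03 + z3 * q02) (by
      linear_combination z0 * e23 - z2 * e03 + z3 * e02)
  obtain ⟨r123, f123, g123⟩ := syz hG hFG (P := z1 * p23 - z2 * p13 + z3 * p12)
    (Q := z1 * q23 - z2 * q13 + z3 * q12) (by
      linear_combination z1 * e23 - z2 * e13 + z3 * e12)
  have hr : z0 * r123 + z1 * (-r023) + z2 * r013 + z3 * (-r012) = 0 := by
    have h4 : (z0 * r123 + z1 * (-r023) + z2 * r013 + z3 * (-r012)) * G = 0 := by
      linear_combination -z0 * f123 + z1 * f023 - z2 * f013 + z3 * f012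
    exact (mul_eq_zero.mp h4).resolve_right hG
  obtain ⟨t, a, b, c, d, e, k3, k2, k1, k0⟩ := kos4 hz0 h1 h2 h3 hr
  -- -r012 = z0 c + z1 d + z2 e, r013 = z0 a + z1 b - z3 e,
  -- -r023 = z0 t - z2 b - z3 d, r123 = -(z1 t) - z2 a - z3 c
  -- t12 = -c, t02 = d, t01 = -e ; t13 = a, t03 = -b ; t23 = -t
  obtain ⟨u0, u1, u2, u3, u01, u02, u03, u12, u13, u23⟩ := koscoc (z3 := z3) hz0 h1 h2
    (p01 := p01 + e * G) (p02 := p02 - d * G) (p03 := p03 + b * G) (p12 := p12 + c * G)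
    (p13 := p13 - a * G) (p23 := p23 + t * G)
    (by linear_combination f012 - G * k3)
    (by linear_combination f013 + G * k2)
    (by linear_combination f023 - G * k1)
  obtain ⟨w0, w1, w2, w3, w01, w02, w03, w12, w13, w23⟩ := koscoc (z3 := z3) hz0 h1 h2
    (p01 := q01 - e * F) (p02 := q02 + d * F) (p03 := q03 - b * F) (p12 := q12 - c * F)
    (p13 := q13 + a * F) (p23 := q23 - t * F)
    (by linear_combination g012 + F * k3)
    (by linear_combination g013 - F * k2)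
    (by linear_combination g023 + F * k1)
  have b01 : z0 * (a1 - u1 * F - w1 * G) + z1 * (-(a0 - u0 * F - w0 * G)) = 0 := by
    linear_combination -e01 + F * u01 + G * w01
  obtain ⟨v, hv0, hv1⟩ := kos2 hz0 h1 b01
  -- -(a0 - ..) = z0 v ; a1 - .. = -(z1 v)
  refine ⟨-v, ?_, ?_, ?_, ?_⟩
  · rw [Ideal.mem_span_pair]
    exact ⟨u0, w0, by linear_combination hv0⟩
  · rw [Ideal.mem_span_pair]
    exact ⟨u1, w1, by linear_combination -hv1⟩
  · rw [Ideal.mem_span_pair]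
    refine ⟨u2, w2, ?_⟩
    have h4 : z0 * (a2 - u2 * F - w2 * G - z2 * (-v)) = 0 := by
      linear_combination -e02 + F * u02 + G * w02 - z2 * hv0
    have h5 := (mul_eq_zero.mp h4).resolve_left hz0
    linear_combination -h5
  · rw [Ideal.mem_span_pair]
    refine ⟨u3, w3, ?_⟩
    have h4 : z0 * (a3 - u3 * F - w3 * G - z3 * (-v)) = 0 := by
      linear_combination -e03 + F * u03 + G * w03 - z3 * hv0
    have h5 := (mul_eq_zero.mp h4).resolve_left hz0
    linear_combination -h5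

end Koszul

section Mono
variable {k : Type} [Field k]

theorem reg_set (T : Set (Fin 4)) (j : Fin 4) (hj : j ∉ T) (N : ℕ) (s : MvPolynomial (Fin 4) k)
    (h : X j ^ N * s ∈ Ideal.span ((fun m : Fin 4 →₀ ℕ => monomial m (1 : k)) ''
      ((fun i => Finsupp.single i N) '' T))) :
    s ∈ Ideal.span ((fun m : Fin 4 →₀ ℕ => monomial m (1 : k)) ''
      ((fun i => Finsupp.single i N) '' T)) := by
  rw [mem_ideal_span_monomial_image] at h ⊢
  intro m hm
  have h1 : Finsupp.single j N + m ∈ (X j ^ N * s).support := by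
    rw [mem_support_iff, X_pow_eq_monomial, add_comm, add_comm m, coeff_monomial_mul]
    rw [mem_support_iff] at hm
    simpa using hm
  obtain ⟨_, ⟨i, hi, rfl⟩, hle⟩ := h _ h1
  refine ⟨_, ⟨i, hi, rfl⟩, ?_⟩
  have hij : i ≠ j := fun e => hj (e ▸ hi)
  have h2 : N ≤ m i := by
    have := hle i
    simpa [Finsupp.single_apply, hij.symm, hij] using this
  exact Finsupp.single_le_iff.mpr h2

theorem image_eq (T : Set (Fin 4)) (N : ℕ) :
    ((fun m : Fin 4 →₀ ℕ => monomial m (1 : k)) '' ((fun i => Finsupp.single i N) '' T)) =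
    (fun i => (X i : MvPolynomial (Fin 4) k) ^ N) '' T := by
  rw [Set.image_image]
  refine Set.image_congr ?_
  intro i _
  rw [X_pow_eq_monomial]

theorem reg1 (N : ℕ) (s : MvPolynomial (Fin 4) k) (h : (X 0 ^ N : MvPolynomial (Fin 4) k) ∣ X 1 ^ N * s) :
    X 0 ^ N ∣ s := by
  have := reg_set ({0} : Set (Fin 4)) 1 (by simp) N s
  rw [image_eq, Set.image_singleton, Ideal.mem_span_singleton, Ideal.mem_span_singleton] at this
  exact this h

theorem reg2 (N : ℕ) (s : MvPolynomial (Fin 4) k)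
    (h : ∃ a b, X 2 ^ N * s = X 0 ^ N * a + X 1 ^ N * b) :
    ∃ a b, s = X 0 ^ N * a + X 1 ^ N * b := by
  have := reg_set ({0, 1} : Set (Fin 4)) 2 (by simp) N s
  rw [image_eq, Set.image_pair, Ideal.mem_span_pair, Ideal.mem_span_pair] at this
  obtain ⟨a, b, hab⟩ := h
  obtain ⟨c, d, hcd⟩ := this ⟨a, b, by rw [hab]; ring⟩
  exact ⟨c, d, by rw [← hcd]; ring⟩

theorem mem_triple {S : Type} [CommRing S] {a b c x : S} :
    x ∈ Ideal.span {a, b, c} ↔ ∃ u v w, x = a * u + b * v + c * w := by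
  rw [Ideal.mem_span_insert]
  constructor
  · rintro ⟨u, z, hz, rfl⟩
    rw [Ideal.mem_span_pair] at hz
    obtain ⟨v, w, rfl⟩ := hz
    exact ⟨u, v, w, by ring⟩
  · rintro ⟨u, v, w, rfl⟩
    exact ⟨u, b * v + c * w, Ideal.mem_span_pair.mpr ⟨v, w, by ring⟩, by ring⟩

theorem reg3 (N : ℕ) (s : MvPolynomial (Fin 4) k)
    (h : ∃ a b c, X 3 ^ N * s = X 0 ^ N * a + X 1 ^ N * b + X 2 ^ N * c) :
    ∃ a b c, s = X 0 ^ N * a + X 1 ^ N * b + X 2 ^ N * c := by
  have := reg_set ({0, 1, 2} : Set (Fin 4)) 3 (by simp) N s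
  rw [image_eq, Set.image_insert_eq, Set.image_pair, mem_triple, mem_triple] at this
  exact this h

end Mono

section Main

variable {k : Type} [Field k]

theorem eval_smul_of_isHomogeneous {d : ℕ} {F : MvPolynomial (Fin 4) k} (hF : F.IsHomogeneous d)
    (s : k) (x : Fin 4 → k) : eval (s • x) F = s ^ d * eval x F := by
  rw [eval_eq, eval_eq, Finset.mul_sum]
  refine Finset.sum_congr rfl fun m hm => ?_
  have h1 : m.degree = d := by
    have h0 := hF (mem_support_iff.mp hm)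
    rw [Finsupp.degree_eq_weight_one (R := ℕ)]
    exact h0
  have h2 : (∏ i ∈ m.support, s ^ m i) = s ^ d := by
    rw [Finset.prod_pow_eq_pow_sum, ← h1]
    rfl
  simp only [Pi.smul_apply, smul_eq_mul, mul_pow]
  rw [Finset.prod_mul_distrib, h2]
  ring

theorem const_of_idem [Infinite k] (E : Polynomial k)
    (h : ∀ s : k, s ≠ 0 → E.eval s = 0 ∨ E.eval s = 1) :
    E.eval 1 = E.eval 0 := by
  have h1 : E * (E - 1) = 0 := by
    refine Polynomial.eq_zero_of_infinite_isRoot _ ?_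
    refine Set.Infinite.mono (s := {s : k | s ≠ 0}) ?_ ?_
    · intro s hs
      rcases h s hs with h | h <;> simp [h]
    · have : {s : k | s ≠ 0} = ({0} : Set k)ᶜ := by
        ext s
        simp
      rw [this]
      exact (Set.finite_singleton (0 : k)).infinite_compl
  rcases mul_eq_zero.mp h1 with h2 | h2
  · rw [h2]
    simp
  · rw [sub_eq_zero.mp h2]
    simp

/-- The polynomial `s ↦ e (s x)`. -/
theorem line_eval (e : MvPolynomial (Fin 4) k) (x : Fin 4 → k) (s : k) :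
    (aeval (fun i => Polynomial.C (x i) * Polynomial.X) e : Polynomial k).eval s =
      eval (s • x) e := by
  have h1 : (Polynomial.evalRingHom s).comp
      (aeval (R := k) (fun i => Polynomial.C (x i) * Polynomial.X) :
        MvPolynomial (Fin 4) k →ₐ[k] Polynomial k).toRingHom = eval (s • x) := by
    refine MvPolynomial.ringHom_ext ?_ ?_
    · intro r
      simp
    · intro i
      simp only [AlgHom.toRingHom_eq_coe, RingHom.coe_comp, RingHom.coe_coe, Function.comp_apply,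
        aeval_X, Polynomial.coe_evalRingHom, Polynomial.eval_mul, Polynomial.eval_C,
        Polynomial.eval_X, eval_X, Pi.smul_apply, smul_eq_mul]
      exact mul_comm _ _
  exact congrArg (fun f => f e) h1

/-- Connectedness of the punctured cone over a complete intersection curve in `P^3`. -/
theorem conn {k : Type} [Field k] [IsAlgClosed k] {d : ℕ} (hd : 0 < d)
    {F G : MvPolynomial (Fin 4) k} (hF : F.IsHomogeneous d) (hG : G.IsHomogeneous d)
    (hFG : IsRelPrime F G) (I J : Ideal (MvPolynomial (Fin 4) k))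
    (hFI : F ∈ I) (hGI : G ∈ I) (hFJ : F ∈ J) (hGJ : G ∈ J)
    (hIJ : I * J ≤ (Ideal.span {F, G}).radical)
    (hdisj : ∀ x : Fin 4 → k, (∀ p ∈ I, eval x p = 0) → (∀ p ∈ J, eval x p = 0) → x = 0)
    (x y : Fin 4 → k) (hx : x ≠ 0) (hy : y ≠ 0)
    (hxI : ∀ p ∈ I, eval x p = 0) (hyJ : ∀ p ∈ J, eval y p = 0) : False := by
  classical
  -- `G` is nonzero
  have hG0 : G ≠ 0 := by
    rintro rfl
    have hu : IsUnit F := hFG (dvd_refl F) (dvd_zero F)
    have h1 : F.totalDegree = 0 := by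
      rw [MvPolynomial.isUnit_iff_eq_C_of_isReduced] at hu
      obtain ⟨r, _, rfl⟩ := hu
      exact totalDegree_C r
    have h2 := hF.totalDegree hu.ne_zero
    omega
  -- powers of the product
  obtain ⟨R, hR⟩ := Ideal.exists_pow_le_of_le_radical_of_fg hIJ
    ((isNoetherianRing_iff_ideal_fg _).mp inferInstance _)
  have hR1 : (I * J) ^ (R + 1) ≤ Ideal.span {F, G} := (Ideal.pow_le_pow_right (Nat.le_succ R)).trans hR
  -- Nullstellensatz
  have hX : ∀ i : Fin 4, ∃ N, (X i : MvPolynomial (Fin 4) k) ^ N ∈ I ^ (R + 1) ⊔ J ^ (R + 1) := by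
    intro i
    have h1 : (X i : MvPolynomial (Fin 4) k) ∈ (I ^ (R + 1) ⊔ J ^ (R + 1)).radical := by
      rw [← vanishingIdeal_zeroLocus_eq_radical (K := k), mem_vanishingIdeal_iff]
      intro z hz
      rw [mem_zeroLocus_iff] at hz
      have hz0 : z = 0 := by
        refine hdisj z ?_ ?_
        · intro p hp
          have h2 := hz (p ^ (R + 1)) (Ideal.mem_sup_left (Ideal.pow_mem_pow hp _))
          rw [map_pow] at h2
          exact pow_eq_zero_iff (Nat.succ_ne_zero R) |>.mp h2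
        · intro p hp
          have h2 := hz (p ^ (R + 1)) (Ideal.mem_sup_right (Ideal.pow_mem_pow hp _))
          rw [map_pow] at h2
          exact pow_eq_zero_iff (Nat.succ_ne_zero R) |>.mp h2
      rw [hz0]
      simp
    exact h1
  choose M hM using hX
  obtain ⟨N, hN⟩ : ∃ N, ∀ i : Fin 4,
      (X i : MvPolynomial (Fin 4) k) ^ N ∈ I ^ (R + 1) ⊔ J ^ (R + 1) := by
    refine ⟨∑ i, M i, fun i => ?_⟩
    exact Ideal.pow_mem_of_pow_mem _ (hM i)
      (Finset.single_le_sum (fun _ _ => Nat.zero_le _) (Finset.mem_univ i))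
  have hdec : ∀ i : Fin 4, ∃ a' ∈ I ^ (R + 1), ∃ a ∈ J ^ (R + 1),
      a' + a = (X i : MvPolynomial (Fin 4) k) ^ N := fun i => Submodule.mem_sup.mp (hN i)
  choose a' ha' a ha haa using hdec
  have hprod : ∀ i j : Fin 4, a' i * a j ∈ Ideal.span {F, G} := by
    intro i j
    refine hR1 ?_
    rw [mul_pow]
    exact Ideal.mul_mem_mul (ha' i) (ha j)
  have hco : ∀ i j : Fin 4, X i ^ N * a j - X j ^ N * a i ∈ Ideal.span {F, G} := by
    intro i j
    have h1 : X i ^ N * a j - X j ^ N * a i = a' i * a j - a' j * a i := by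
      rw [← haa i, ← haa j]
      ring
    rw [h1]
    exact Ideal.sub_mem _ (hprod i j) (hprod j i)
  obtain ⟨e, e0, e1, e2, e3⟩ := depth2 (z0 := (X 0 : MvPolynomial (Fin 4) k) ^ N)
    (z1 := X 1 ^ N) (z2 := X 2 ^ N) (z3 := X 3 ^ N) (pow_ne_zero _ (X_ne_zero 0))
    (reg1 N) (reg2 N) (reg3 N) hG0 hFG (hco 0 1) (hco 0 2) (hco 0 3) (hco 1 2) (hco 1 3) (hco 2 3)
  have he : ∀ i : Fin 4, a i - X i ^ N * e ∈ Ideal.span {F, G} := by
    intro i
    fin_cases i
    · exact e0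
    · exact e1
    · exact e2
    · exact e3
  -- values on the zero set
  have hspan : ∀ p ∈ Ideal.span {F, G}, ∀ z : Fin 4 → k, eval z F = 0 → eval z G = 0 →
      eval z p = 0 := by
    intro p hp z hzF hzG
    rw [Ideal.mem_span_pair] at hp
    obtain ⟨u, v, rfl⟩ := hp
    simp [hzF, hzG]
  have hval : ∀ z : Fin 4 → k, eval z F = 0 → eval z G = 0 → ∀ i,
      eval z (a i) = z i ^ N * eval z e := by
    intro z hzF hzG i
    have h1 := hspan _ (he i) z hzF hzG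
    simp only [map_sub, map_mul, map_pow, eval_X] at h1
    exact sub_eq_zero.mp h1
  have hpow0 : ∀ (L : Ideal (MvPolynomial (Fin 4) k)) (z : Fin 4 → k), (∀ p ∈ L, eval z p = 0) →
      ∀ p ∈ L ^ (R + 1), eval z p = 0 := by
    intro L z hz p hp
    refine hz p ?_
    exact Ideal.pow_le_self (Nat.succ_ne_zero R) hp
  have hJ0 : ∀ z : Fin 4 → k, z ≠ 0 → (∀ p ∈ J, eval z p = 0) → eval z e = 0 := by
    intro z hz0 hz
    obtain ⟨i, hi⟩ := Function.ne_iff.mp hz0
    have h1 := hval z (hz F hFJ) (hz G hGJ) i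
    rw [hpow0 J z hz _ (ha i)] at h1
    exact (mul_eq_zero.mp h1.symm).resolve_left (pow_ne_zero _ hi)
  have hI1 : ∀ z : Fin 4 → k, z ≠ 0 → (∀ p ∈ I, eval z p = 0) → eval z e = 1 := by
    intro z hz0 hz
    obtain ⟨i, hi⟩ := Function.ne_iff.mp hz0
    have h1 := hval z (hz F hFI) (hz G hGI) i
    have h2 := congrArg (eval z) (haa i)
    rw [map_add, hpow0 I z hz _ (ha' i), zero_add, map_pow, eval_X, h1] at h2
    have h3 : z i ^ N ≠ 0 := pow_ne_zero _ hi
    exact mul_left_cancel₀ h3 (by rw [h2, mul_one])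
  have hIJz : ∀ z : Fin 4 → k, eval z F = 0 → eval z G = 0 →
      (∀ p ∈ I, eval z p = 0) ∨ (∀ p ∈ J, eval z p = 0) := by
    intro z hzF hzG
    by_contra hcon
    push Not at hcon
    obtain ⟨⟨p, hp, hp0⟩, ⟨q, hq, hq0⟩⟩ := hcon
    obtain ⟨n, hn⟩ := hIJ (Ideal.mul_mem_mul hp hq)
    have h1 := hspan _ hn z hzF hzG
    rw [map_pow, map_mul] at h1
    exact mul_ne_zero hp0 hq0 (eq_zero_of_pow_eq_zero h1)
  have hdich : ∀ z : Fin 4 → k, z ≠ 0 → eval z F = 0 → eval z G = 0 →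
      eval z e = 0 ∨ eval z e = 1 := by
    intro z hz0 hzF hzG
    rcases hIJz z hzF hzG with h | h
    · exact Or.inr (hI1 z hz0 h)
    · exact Or.inl (hJ0 z hz0 h)
  have : Infinite k := IsAlgClosed.instInfinite
  have hline : ∀ z : Fin 4 → k, z ≠ 0 → eval z F = 0 → eval z G = 0 → eval z e = eval 0 e := by
    intro z hz0 hzF hzG
    have h1 := const_of_idem (aeval (fun i => Polynomial.C (z i) * Polynomial.X) e : Polynomial k) (by
      intro s hs
      rw [line_eval]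
      refine hdich _ (smul_ne_zero hs hz0) ?_ ?_
      · rw [eval_smul_of_isHomogeneous hF, hzF, mul_zero]
      · rw [eval_smul_of_isHomogeneous hG, hzG, mul_zero])
    rw [line_eval, line_eval, one_smul, zero_smul] at h1
    exact h1
  have h1 := hline x hx (hxI F hFI) (hxI G hGI)
  have h2 := hline y hy (hyJ F hFJ) (hyJ G hGJ)
  rw [hI1 x hx hxI] at h1
  rw [hJ0 y hy hyJ] at h2
  exact one_ne_zero (h1.trans h2.symm)

end Main

end Pool.Agent.Helper4.BBConn
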