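import Pool.Agent.Helper96.PolyList
import Pool.Agent.Helper96.Defs
import Pool.Agent.Helper94.CSP.Grid

/-!
# The verifier automaton with certificate word (module H3 for MP_9e35a6_lc)
-/

set_option autoImplicit false

namespace Pool.Agent.Helper4

open Pool.Agent.Helper96 T Cmd

/-- letters of the encoding of a word: 0/1 the code of the tree, 2 = blank -/
def letters (w : List Bool) (i : ℕ) : ℕ := ((code (enc w))[i]?).getD 2

/-! ### every program uses finitely many stacks and symbols -/

theorem ok_mono (c : Cmd) {n g n' g' : ℕ} (hn : n ≤ n') (hg : g ≤ g') (h : c.ok n g) :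
    c.ok n' g' := by
  induction c with
  | push k a => exact ⟨lt_of_lt_of_le h.1 hn, lt_of_lt_of_le h.2 hg⟩
  | pop k => exact lt_of_lt_of_le h hn
  | seq p q ihp ihq => exact ⟨ihp h.1, ihq h.2⟩
  | ite k a p q ihp ihq =>
    exact ⟨lt_of_lt_of_le h.1 hn, lt_of_lt_of_le h.2.1 hg, ihp h.2.2.1, ihq h.2.2.2⟩
  | wh k a p ihp => exact ⟨lt_of_lt_of_le h.1 hn, lt_of_lt_of_le h.2.1 hg, ihp h.2.2⟩

theorem exists_ok (c : Cmd) : ∃ n g, c.ok n g := by
  induction c with
  | push k a => exact ⟨k + 1, a + 1, Nat.lt_succ_self k, Nat.lt_succ_self a⟩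
  | pop k => exact ⟨k + 1, 0, Nat.lt_succ_self k⟩
  | seq p q ihp ihq =>
    obtain ⟨n, g, h⟩ := ihp
    obtain ⟨n', g', h'⟩ := ihq
    exact ⟨max n n', max g g', ok_mono p (le_max_left _ _) (le_max_left _ _) h,
      ok_mono q (le_max_right _ _) (le_max_right _ _) h'⟩
  | ite k a p q ihp ihq =>
    obtain ⟨n, g, h⟩ := ihp
    obtain ⟨n', g', h'⟩ := ihq
    refine ⟨max (k + 1) (max n n'), max (a + 1) (max g g'), ?_, ?_, ?_, ?_⟩
    · exact lt_of_lt_of_le (Nat.lt_succ_self k) (le_max_left _ _)
    · exact lt_of_lt_of_le (Nat.lt_succ_self a) (le_max_left _ _)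
    · exact ok_mono p ((le_max_left _ _).trans (le_max_right _ _))
        ((le_max_left _ _).trans (le_max_right _ _)) h
    · exact ok_mono q ((le_max_right _ _).trans (le_max_right _ _))
        ((le_max_right _ _).trans (le_max_right _ _)) h'
  | wh k a p ihp =>
    obtain ⟨n, g, h⟩ := ihp
    refine ⟨max (k + 1) n, max (a + 1) g, ?_, ?_, ?_⟩
    · exact lt_of_lt_of_le (Nat.lt_succ_self k) (le_max_left _ _)
    · exact lt_of_lt_of_le (Nat.lt_succ_self a) (le_max_left _ _)
    · exact ok_mono p (le_max_right _ _) (le_max_right _ _) h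

/-! ### locality of grid automata -/

theorem next_congr (G : GA) {w w' : ℕ → ℕ} (i : ℕ) (h : ∀ j ≤ i + 1, w j = w' j) :
    G.next w i = G.next w' i := by
  induction i with
  | zero =>
    simp only [GA.next]
    rw [h 0 (by omega), h 1 (by omega)]
  | succ i ih =>
    simp only [GA.next]
    rw [h i (by omega), h (i + 1) (by omega), h (i + 2) (by omega),
      ih (fun j hj => h j (by omega))]

theorem cell_congr (G : GA) {w w' : ℕ → ℕ} (t : ℕ) :
    ∀ i, (∀ j ≤ t + i, w j = w' j) → G.cell w t i = G.cell w' t i := by
  induction t with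
  | zero =>
    intro i h
    exact h i (by omega)
  | succ t ih =>
    intro i h
    unfold GA.cell at ih ⊢
    rw [Function.iterate_succ_apply', Function.iterate_succ_apply']
    exact next_congr G i (fun j hj => ih j (fun l hl => h l (by omega)))

/-! ### prefix codes -/

/-- Every word of zeros and ones followed by enough zeros starts with a list of codes. -/
theorem exists_codes (v : List ℕ) (hv : ∀ a ∈ v, a = 0 ∨ a = 1) :
    ∀ m : ℕ, ∃ (ts : List T) (r : List ℕ), ts.length = m ∧
      v ++ List.replicate (v.length + m) 0 = ts.flatMap code ++ r ∧ ∀ a ∈ r, a = 0 ∨ a = 1 := by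
  induction v with
  | nil =>
    intro m
    refine ⟨List.replicate m L, [], by simp, ?_, by simp⟩
    simp only [List.nil_append, List.length_nil, Nat.zero_add, List.append_nil]
    induction m with
    | zero => rfl
    | succ m ih =>
      rw [List.replicate_succ, List.replicate_succ, List.flatMap_cons, ← ih]
      rfl
  | cons a v ih =>
    intro m
    have hv' : ∀ b ∈ v, b = 0 ∨ b = 1 := fun b hb => hv b (List.mem_cons_of_mem _ hb)
    cases m with
    | zero =>
      refine ⟨[], (a :: v) ++ List.replicate ((a :: v).length + 0) 0, rfl, rfl, ?_⟩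
      intro b hb
      rcases List.mem_append.1 hb with hb | hb
      · exact hv b hb
      · exact Or.inl (List.eq_of_mem_replicate hb)
    | succ m =>
      rcases hv a List.mem_cons_self with ha | ha
      · obtain ⟨ts, r, h1, h2, h3⟩ := ih hv' m
        refine ⟨L :: ts, r ++ [0, 0], by simp [h1], ?_, ?_⟩
        · have e : List.replicate ((a :: v).length + (m + 1)) 0 =
              List.replicate (v.length + m) 0 ++ [0, 0] := by
            rw [show (a :: v).length + (m + 1) = (v.length + m) + 2 by
              rw [List.length_cons]; omega, List.replicate_add]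
            rfl
          rw [e, ha, List.cons_append, ← List.append_assoc, h2, List.flatMap_cons]
          simp [code]
        · intro b hb
          rcases List.mem_append.1 hb with hb | hb
          · exact h3 b hb
          · simp at hb
            exact Or.inl hb
      · obtain ⟨ts, r, h1, h2, h3⟩ := ih hv' (m + 2)
        obtain ⟨l, rr, ts', rfl⟩ : ∃ l rr ts', ts = l :: rr :: ts' := by
          match ts, h1 with
          | l :: rr :: ts', _ => exact ⟨l, rr, ts', rfl⟩
        refine ⟨N l rr :: ts', r, by simpa using h1, ?_, h3⟩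
        have e : (a :: v).length + (m + 1) = v.length + (m + 2) := by
          rw [List.length_cons]; omega
        rw [e, ha, List.cons_append, h2]
        simp [code]

theorem exists_code (v : List ℕ) (hv : ∀ a ∈ v, a = 0 ∨ a = 1) :
    ∃ (t : T) (r : List ℕ), v ++ List.replicate (v.length + 1) 0 = code t ++ r := by
  obtain ⟨ts, r, h1, h2, _⟩ := exists_codes v hv 1
  obtain ⟨t, rfl⟩ := List.length_eq_one_iff.1 h1
  exact ⟨t, r, by simpa using h2⟩

/-! ### decoding certificates -/

theorem enc_spine' (t : T) : enc (spine t) = t := by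
  show ofList ((spine t).map id) = t
  simp

theorem poly_spine {α : Type} [Enc α] {f : α → T} (hf : Poly f) :
    Poly (fun a => spine (f a)) :=
  hf.recast fun a => enc_spine' _

/-- the word coded by a tree -/
def word (t : T) : List Bool := (spine t).map (fun u => !(T.isL u))

theorem word_enc (y : List Bool) : word (enc y) = y := by
  induction y with
  | nil => rfl
  | cons b y ih =>
    have h : word (enc (b :: y)) = (!(T.isL (enc b))) :: word (enc y) := rfl
    rw [h, ih]
    cases b <;> rfl

theorem poly_word {α : Type} [Enc α] {f : α → T} (hf : Poly f) :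
    Poly (fun a => word (f a)) := by
  unfold word
  refine Pool.Agent.Helper96.Poly.map (poly_spine hf) ?_
  exact Poly.not (Poly.isL₀.comp (by fun_prop))

theorem sz_word_le (y : List Bool) : sz y ≤ 4 * y.length + 1 := by
  induction y with
  | nil => simp [sz_nil]
  | cons b y ih =>
    rw [sz_cons, List.length_cons]
    have := sz_bool_le b
    omega

/-! ### the program -/

/-- the verifier program: read the certificate tree from stack 4, then run the verifier -/
def prog (c : Cmd) : Cmd := seq (xfer 4 0 1 2) (seq (push 0 1) c)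

theorem prog_run {f : T × List Bool → Bool} {c : Cmd} {K : ℕ}
    (hc : Rz c (fun n => (n + 2) ^ K) f) (t : T) (w : List Bool) (s : Stk) (r : List ℕ)
    (h0 : s 0 = code (enc w)) (h4 : s 4 = code t ++ r) :
    ∃ s' : Stk, s' 0 = code (enc (f (t, w))) ∧
      Run (prog c) s (12 * size t + 20 + (size t + sz w + 3) ^ K) s' := by
  have h1 := xfer_spec 4 0 1 2 (by simp) (by simp) (by simp) (by simp) (by simp) t s r h4
  set s1 : Stk := Function.update (Function.update s 4 r) 0 (code t ++ s 0) with hs1
  have h2 := Run.push 0 1 s1
  set s2 : Stk := Function.update s1 0 (1 :: s1 0) with hs2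
  have e : s2 0 = code (enc (t, w)) ++ [] := by
    simp [hs1, hs2, h0, enc_prod, enc_T, code]
  have h3 := hc (t, w) s2 [] e
  refine ⟨_, ?_, (h1.seq (h2.seq h3)).mono ?_⟩
  · simp
  · have e2 : sz (t, w) + 2 = size t + sz w + 3 := by
      rw [sz_prod]
      have : sz t = size t := rfl
      omega
    simp only [e2]
    omega

/-- the verifier automaton -/
theorem exists_verifier {L : Set (List Bool)} {R : List Bool × List Bool → Bool} {k : ℕ}
    (hR : Poly R)
    (hL : ∀ w, w ∈ L ↔ ∃ y : List Bool, y.length ≤ (w.length + 2) ^ k ∧ R (w, y) = true) :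
    ∃ (GV : GA) (iniV : ℕ → ℕ → ℕ) (acc : ℕ → Bool) (Nf : List Bool → ℕ),
      GV.Closed ∧ (∀ a < 3, ∀ c < 2, iniV a c < GV.m) ∧ Poly Nf ∧ (∀ w, w.length < Nf w) ∧
      ∀ w, w ∈ L ↔ ∃ c : ℕ → ℕ, (∀ i, c i < 2) ∧
        acc (GV.cell (fun i => iniV (letters w i) (c i)) (Nf w - 1) 0) = true := by
  classical
  -- the checking function
  obtain ⟨f, hf, hfdef⟩ : ∃ f : T × List Bool → Bool, Poly f ∧
      ∀ t w, f (t, w) = true ↔ ((word t).length ≤ (w.length + 2) ^ k ∧ R (w, word t) = true) := by
    refine ⟨fun q => decide ((word q.1).length ≤ (q.2.length + 2) ^ k) && R (q.2, word q.1),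
      ?_, ?_⟩
    · have hw : Poly (fun q : T × List Bool => word q.1) := poly_word (by fun_prop)
      refine Poly.and (Poly.decide_le (Poly.length hw) (by fun_prop)) ?_
      exact hR.comp (Poly.prodMk (by fun_prop) hw)
    · intro t w
      simp
  obtain ⟨c', K, hc'⟩ := hf
  obtain ⟨n0, g0, hok0⟩ := exists_ok (prog c')
  set n := max n0 5 with hn
  set g := max g0 3 with hg
  have hok : (prog c').ok n g := ok_mono _ (le_max_left _ _) (le_max_left _ _) hok0
  have hn5 : 5 ≤ n := le_max_right _ _
  have hg3 : 3 ≤ g := le_max_right _ _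
  obtain ⟨G, ini, halt, hd, hcl, hini, hsim⟩ := exists_GA (prog c') n g hok
  -- the time bound
  obtain ⟨k', hk'⟩ : IsPB (fun n : ℕ => 12 * (4 * (n + 2) ^ k + 1) + 20 +
      ((4 * (n + 2) ^ k + 1) + (4 * n + 1) + 3) ^ K + n) := by fun_prop
  set iniV : ℕ → ℕ → ℕ := fun a c => ini (fun j => if (j : ℕ) = 0 then
    (if a < 2 then some a else none) else if (j : ℕ) = 4 then some c else none) with hiniV
  set acc : ℕ → Bool := fun z => halt z && decide (hd z ⟨0, by omega⟩ = some 1) with hacc
  refine ⟨G, iniV, acc, fun w => (w.length + 2) ^ k' + 1, hcl, ?_, by fun_prop, ?_, ?_⟩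
  · intro a ha c hc
    refine hini _ ?_
    intro j b hb
    split_ifs at hb with h1 h2 h3
    · simp only [Option.mem_def, Option.some.injEq] at hb
      omega
    · simp at hb
    · simp only [Option.mem_def, Option.some.injEq] at hb
      omega
    · simp at hb
  · intro w
    have := hk' w.length
    show w.length < (w.length + 2) ^ k' + 1
    dsimp only at this
    omega
  -- the start configuration
  have start : ∀ (w : List Bool) (c : ℕ → ℕ), (∀ i, c i < 2) → ∀ (N B : ℕ), N < B →
      ∀ (t : T) (r : List ℕ), (List.range B).map c = code t ++ r →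
      ∀ (c2 : ℕ → ℕ), (∀ i ≤ N, c2 i = c i) →
      ∃ s0 s' : Stk, s' 0 = code (enc (f (t, w))) ∧
        Run (prog c') s0 (12 * size t + 20 + (size t + sz w + 3) ^ K) s' ∧
        (halt (G.cell (fun i => iniV (letters w i) (c2 i)) N 0) = true ↔
          (step^[N] ([prog c'], s0)).1 = []) ∧
        hd (G.cell (fun i => iniV (letters w i) (c2 i)) N 0) ⟨0, by omega⟩ =
          ((step^[N] ([prog c'], s0)).2 0).head? := by
    intro w c hc N B hNB t r htr c2 hc2
    set s0 : Stk := fun j => if j = 0 then code (enc w) else if j = 4 then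
      (List.range B).map c else [] with hs0
    obtain ⟨s', hs', hrun⟩ := prog_run hc' t w s0 r (by simp [hs0]) (by simp [hs0, htr])
    have hs0lt : ∀ k, ∀ a ∈ s0 k, a < g := by
      intro j a ha
      simp only [hs0] at ha
      split_ifs at ha with h1 h2
      · rcases code_mem _ a ha with h | h <;> omega
      · obtain ⟨i, _, rfl⟩ := List.mem_map.1 ha
        have := hc i
        omega
      · simp at ha
    have h1 := hsim s0 hs0lt N
    have hcell : G.cell (fun i => iniV (letters w i) (c2 i)) N 0 =
        G.cell (fun i => ini (fun k => (s0 k)[i]?)) N 0 := by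
      apply cell_congr
      intro i hi
      simp only [hiniV]
      congr 1
      funext j
      simp only [hs0]
      by_cases hj0 : (j : ℕ) = 0
      · simp only [hj0, if_true, letters]
        cases hx : (code (enc w))[i]? with
        | none => simp
        | some b =>
          have hb := code_mem _ b (List.mem_of_getElem? hx)
          have : b < 2 := by omega
          simp [this]
      · by_cases hj4 : (j : ℕ) = 4
        · have hiB : i < B := by omega
          simp [hj4, hiB, hc2 i (by omega)]
        · simp [hj0, hj4]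
    refine ⟨s0, s', hs', hrun, ?_, ?_⟩
    · rw [hcell]
      exact h1.1
    · rw [hcell]
      exact h1.2 ⟨0, by omega⟩
  intro w
  have hsub : (w.length + 2) ^ k' + 1 - 1 = (w.length + 2) ^ k' := by omega
  rw [hsub]
  set N := (w.length + 2) ^ k' with hN
  rw [hL]
  constructor
  · rintro ⟨y, hy1, hy2⟩
    set t : T := enc y with ht
    have hft : f (t, w) = true := by
      rw [hfdef, ht, word_enc]
      exact ⟨hy1, hy2⟩
    set c : ℕ → ℕ := fun i => ((code t)[i]?).getD 0 with hc
    have hc2 : ∀ i, c i < 2 := by
      intro i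
      simp only [hc]
      cases hx : (code t)[i]? with
      | none => simp
      | some b =>
        have hb := code_mem _ b (List.mem_of_getElem? hx)
        simp
        omega
    refine ⟨c, hc2, ?_⟩
    set B := (code t).length + (N + 1) with hB
    have hmap : (List.range B).map c = code t ++ List.replicate (N + 1) 0 := by
      rw [hB, List.range_add, List.map_append]
      congr 1
      · apply List.ext_getElem (by simp)
        intro i h1 h2
        simp [hc, h2]
      · rw [List.eq_replicate_iff]
        refine ⟨by simp, ?_⟩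
        intro b hb
        simp only [List.map_map, List.mem_map, List.mem_range, Function.comp_apply] at hb
        obtain ⟨i, _, rfl⟩ := hb
        simp only [hc]
        rw [List.getElem?_eq_none (by omega)]
        rfl
    obtain ⟨s0, s', hs', ⟨τ, hτ, hexec⟩, hh1, hh2⟩ := start w c hc2 N B (by omega) t _ hmap c
      (fun _ _ => rfl)
    have hτN : τ ≤ N := by
      refine hτ.trans (le_trans ?_ (hk' w.length))
      have e1 : size t = sz y := rfl
      have e2 : sz y ≤ 4 * (w.length + 2) ^ k + 1 := by
        have := sz_word_le y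
        omega
      have e3 := sz_word_le w
      rw [e1]
      have e4 : (sz y + sz w + 3) ^ K ≤
          ((4 * (w.length + 2) ^ k + 1) + (4 * w.length + 1) + 3) ^ K :=
        Nat.pow_le_pow_left (by omega) K
      dsimp only
      omega
    have hfin := step_iter_of_exec hexec N hτN
    simp only [hacc, Bool.and_eq_true, decide_eq_true_eq]
    refine ⟨hh1.2 (by rw [hfin]), ?_⟩
    rw [hh2, hfin]
    simp only [hs', hft]
    rfl
  · rintro ⟨c, hc, hacc1⟩
    simp only [hacc, Bool.and_eq_true, decide_eq_true_eq] at hacc1
    set c1 : ℕ → ℕ := fun i => if i ≤ N then c i else 0 with hc1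
    have hc1lt : ∀ i, c1 i < 2 := by
      intro i
      simp only [hc1]
      split_ifs
      · exact hc i
      · omega
    obtain ⟨t, r, htr⟩ := exists_code ((List.range (N + 1)).map c) (by
      intro a ha
      obtain ⟨i, _, rfl⟩ := List.mem_map.1 ha
      have := hc i
      omega)
    have hmap : (List.range ((N + 1) + (N + 2))).map c1 = code t ++ r := by
      rw [← htr, List.range_add, List.map_append]
      congr 1
      · apply List.map_congr_left
        intro i hi
        have := List.mem_range.1 hi
        simp [hc1, Nat.lt_succ_iff.1 this]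
      · rw [List.eq_replicate_iff]
        refine ⟨by simp, ?_⟩
        intro b hb
        simp only [List.map_map, List.mem_map, List.mem_range, Function.comp_apply] at hb
        obtain ⟨i, _, rfl⟩ := hb
        simp only [hc1]
        rw [if_neg (by omega)]
    obtain ⟨s0, s', hs', ⟨τ, _, hexec⟩, hh1, hh2⟩ := start w c1 hc1lt N _ (by omega) t r hmap c
      (fun i hi => by simp [hc1, hi])
    have hhalt := hh1.1 hacc1.1
    have hhead := hh2.symm.trans hacc1.2
    -- both halted configurations coincide
    set cfg := step^[N] ([prog c'], s0) with hcfg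
    have hcfg2 : cfg = ([], cfg.2) := Prod.ext hhalt rfl
    have e1 := step_iter_of_exec hexec (N + τ) (Nat.le_add_left _ _)
    rw [Nat.add_comm, Function.iterate_add_apply, ← hcfg, hcfg2, step_nil_iter] at e1
    have e2 : cfg.2 = s' := (Prod.mk.inj e1).2
    rw [e2, hs'] at hhead
    have hft : f (t, w) = true := by
      cases hx : f (t, w) with
      | true => rfl
      | false =>
        rw [hx, enc_false] at hhead
        simp [code] at hhead
    exact ⟨word t, (hfdef t w).1 hft⟩

end Pool.Agent.Helper4
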