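import Mathlib

set_option autoImplicit false

namespace Pool.Agent.Helper4.Glue

open FirstOrder FirstOrder.Language

/-- The underlying set of the structure obtained from `M` by replacing `X` by `k` copies: the
elements outside `X` and `k` copies of each element of `X`. -/
def Copies {M : Type} (X : Set M) (k : ℕ) : Type := ↥Xᶜ ⊕ (Fin k × ↥X)

open Classical in
/-- The `i`-th copy of `x`; for `x ∉ X` it does not depend on `i`. -/
noncomputable def copy {M : Type} (X : Set M) (k : ℕ) (i : Fin k) (x : M) : Copies X k :=
  if h : x ∈ X then Sum.inr (i, ⟨x, h⟩) else Sum.inl ⟨x, h⟩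

/-- The relational structure obtained from `M` by replacing `X` by `k` copies of it, each of them
related to the elements outside `X` as `X` is, and different copies not related to each other:
a tuple is related if and only if for some `i` it is the `i`-th copy of a related tuple of `M`. -/
@[instance_reducible]
def copiesStructure (L : FirstOrder.Language.{0, 0}) [L.IsRelational] {M : Type} [L.Structure M]
    (X : Set M) (k : ℕ) : L.Structure (Copies X k) where
  funMap := fun f => isEmptyElim f
  RelMap := fun R y => ∃ (i : Fin k) (x : Fin _ → M),
    Structure.RelMap R x ∧ ∀ j, y j = copy X k i (x j)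

/-- `X` is attached to the rest of the structure `M` only by the elements of `C`: the sets are
disjoint and a related tuple containing an element of `X` is contained in `C ∪ X`. -/
def AttachedBy (L : FirstOrder.Language.{0, 0}) {M : Type} [L.Structure M] (C X : Set M) : Prop :=
  Disjoint C X ∧ ∀ (n : ℕ) (R : L.Relations n) (x : Fin n → M),
    Structure.RelMap R x → (∃ j, x j ∈ X) → ∀ j, x j ∈ C ∪ X

/-- Every finite model of `φ` with more than `b` elements contains a nonempty set `X`, attached
to the rest by at most `c` elements, such that replacing `X` by `k` copies gives a model of `φ`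
again, for arbitrarily large `k`. -/
def HasRepeatablePieces (L : FirstOrder.Language.{0, 0}) [L.IsRelational] (φ : L.Sentence)
    (b c : ℕ) : Prop :=
  ∀ (M : Type) (_ : L.Structure M), Finite M → b < Nat.card M → φ.Realize M →
    ∃ C X : Set M, C.ncard ≤ c ∧ X.Nonempty ∧ AttachedBy L C X ∧ ∀ K : ℕ, ∃ k : ℕ, K ≤ k ∧
      @Sentence.Realize L (Copies X k) (copiesStructure L X k) φ

end Pool.Agent.Helper4.Glue
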