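import Mathlib

set_option autoImplicit false

namespace Pool.Agent.Helper4.Glue

open FirstOrder FirstOrder.Language Structure

/-- Atomic types of partial `n`-tuples. -/
abbrev T0 (L : FirstOrder.Language.{0, 0}) (n : ℕ) : Type :=
  ((Σ p : (Σ k, L.Relations k), (Fin p.1 → Fin n)) → Prop) × (Fin n → Fin n → Prop)

/-- Types of rank `r` of partial `n`-tuples. -/
def Ty (L : FirstOrder.Language.{0, 0}) : ℕ → ℕ → Type
  | 0, n => T0 L n
  | r + 1, n => T0 L n × Set (Ty L r (n + 1)) × Ty L r (n + 1)

lemma finite_Ty (L : FirstOrder.Language.{0, 0}) (h : Finite (Σ k, L.Relations k)) :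
    ∀ r n, Finite (Ty L r n)
  | 0, n => by
    show Finite (T0 L n)
    infer_instance
  | r + 1, n => by
    have := finite_Ty L h r (n + 1)
    show Finite (T0 L n × Set (Ty L r (n + 1)) × Ty L r (n + 1))
    infer_instance

variable {L : FirstOrder.Language.{0, 0}}

/-- The atomic type of a partial tuple. -/
def atm {M : Type} [L.Structure M] {n : ℕ} (a : Fin n → Option M) : T0 L n :=
  (fun q => ∃ y : Fin q.1.1 → M, (∀ j, a (q.2 j) = some (y j)) ∧ RelMap q.1.2 y,
   fun s t => ∃ x, a s = some x ∧ a t = some x)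

/-- Extend a partial tuple. -/
def ext {M : Type} {n : ℕ} (a : Fin n → Option M) (x : Option M) : Fin (n + 1) → Option M :=
  Fin.snoc (α := fun _ => Option M) a x

@[simp] lemma ext_last {M : Type} {n : ℕ} (a : Fin n → Option M) (x : Option M) :
    ext a x (Fin.last n) = x := by simp [ext]

@[simp] lemma ext_castSucc {M : Type} {n : ℕ} (a : Fin n → Option M) (x : Option M) (t : Fin n) :
    ext a x t.castSucc = a t := by simp [ext]

/-- The type of rank `r` of a partial tuple. -/
def tp (L : FirstOrder.Language.{0, 0}) {M : Type} [L.Structure M] :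
    (r : ℕ) → {n : ℕ} → (Fin n → Option M) → Ty L r n
  | 0, _, a => (atm a : T0 L _)
  | r + 1, _, a => (atm a, {θ | ∃ x : M, θ = tp L r (ext a (some x))}, tp L r (ext a none))

/-- The atomic part of a type. -/
def at0 : (r : ℕ) → {n : ℕ} → Ty L r n → T0 L n
  | 0, _, θ => θ
  | _ + 1, _, θ => θ.1

lemma at0_tp {M : Type} [L.Structure M] (r : ℕ) {n : ℕ} (a : Fin n → Option M) :
    at0 r (tp L r a) = atm a := by
  cases r <;> rfl

/-- The type of the extension by an undefined entry. -/
def nn {r n : ℕ} (θ : Ty L (r + 1) n) : Ty L r (n + 1) := θ.2.2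

/-- The types of the extensions by an element. -/
def xs {r n : ℕ} (θ : Ty L (r + 1) n) : Set (Ty L r (n + 1)) := θ.2.1

lemma nn_tp {M : Type} [L.Structure M] (r : ℕ) {n : ℕ} (a : Fin n → Option M) :
    nn (tp L (r + 1) a) = tp L r (ext a none) := rfl

lemma mem_xs_tp {M : Type} [L.Structure M] (r : ℕ) {n : ℕ} (a : Fin n → Option M)
    (η : Ty L r (n + 1)) :
    η ∈ xs (tp L (r + 1) a) ↔ ∃ x : M, η = tp L r (ext a (some x)) := Iff.rfl

lemma tp_succ_eq {M N : Type} [L.Structure M] [L.Structure N] (r : ℕ) {n : ℕ}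
    (a : Fin n → Option M) (b : Fin n → Option N) (h1 : (atm a : T0 L n) = atm b)
    (h2 : ∀ η, (∃ x : M, η = tp L r (ext a (some x))) ↔ ∃ y : N, η = tp L r (ext b (some y)))
    (h3 : tp L r (ext a none) = tp L r (ext b none)) :
    tp L (r + 1) a = tp L (r + 1) b := by
  show (atm a, {θ | ∃ x : M, θ = tp L r (ext a (some x))}, tp L r (ext a none)) =
    (atm b, {θ | ∃ x : N, θ = tp L r (ext b (some x))}, tp L r (ext b none))
  rw [h1, h3]
  congr 2
  ext η
  exact h2 η

/-- Quantifier depth. -/
def qd {α : Type} : {n : ℕ} → L.BoundedFormula α n → ℕ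
  | _, .falsum => 0
  | _, .equal _ _ => 0
  | _, .rel _ _ => 0
  | _, .imp φ ψ => max (qd φ) (qd ψ)
  | _, .all φ => qd φ + 1

lemma exists_var [L.IsRelational] {n : ℕ} (t : L.Term (Empty ⊕ Fin n)) :
    ∃ i : Fin n, t = Term.var (Sum.inr i) := by
  cases t with
  | var x =>
    cases x with
    | inl e => exact e.elim
    | inr i => exact ⟨i, rfl⟩
  | func f _ => exact isEmptyElim f

/-- The type of rank `r` of a total tuple determines the truth of formulas of quantifier depth
at most `r`. -/
lemma realize_iff [L.IsRelational] {M N : Type} [L.Structure M] [L.Structure N] :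
    ∀ {n : ℕ} (φ : L.BoundedFormula Empty n) (r : ℕ), qd φ ≤ r → ∀ {m : ℕ} (s : Fin n → Fin m)
      (a : Fin m → Option M) (b : Fin m → Option N), tp L r a = tp L r b →
      ∀ (v : Fin n → M) (w : Fin n → N), (∀ t, a (s t) = some (v t)) →
      (∀ t, b (s t) = some (w t)) →
      (φ.Realize (default : Empty → M) v ↔ φ.Realize (default : Empty → N) w) := by
  intro n φ
  induction φ with
  | falsum => intros; exact Iff.rfl
  | equal t₁ t₂ =>
    intro r _ m s a b hab v w hv hw
    obtain ⟨i, rfl⟩ := exists_var t₁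
    obtain ⟨j, rfl⟩ := exists_var t₂
    have h : (atm a : T0 L m) = atm b := by rw [← at0_tp r a, ← at0_tp r b, hab]
    have h2 := congrFun (congrFun (congrArg Prod.snd h) (s i)) (s j)
    simp only [atm, hv, hw, Option.some.injEq, eq_iff_iff] at h2
    change (v i = v j) ↔ (w i = w j)
    constructor
    · intro h3
      obtain ⟨x, hx1, hx2⟩ := h2.1 ⟨v i, rfl, h3.symm⟩
      rw [hx1, hx2]
    · intro h3
      obtain ⟨x, hx1, hx2⟩ := h2.2 ⟨w i, rfl, h3.symm⟩
      rw [hx1, hx2]
  | @rel k l R ts =>
    intro r _ m s a b hab v w hv hw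
    choose i hi using fun j => exists_var (ts j)
    have h : (atm a : T0 L m) = atm b := by rw [← at0_tp r a, ← at0_tp r b, hab]
    have h2 := congrFun (congrArg Prod.fst h) ⟨⟨l, R⟩, fun j => s (i j)⟩
    simp only [atm, hv, hw, Option.some.injEq, eq_iff_iff] at h2
    have e1 : (BoundedFormula.rel R ts).Realize (default : Empty → M) v ↔
        RelMap R (fun j => v (i j)) := by
      change RelMap R (fun j => (ts j).realize (Sum.elim default v)) ↔ _
      have : (fun j => (ts j).realize (Sum.elim (default : Empty → M) v)) =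
          fun j => v (i j) := by
        funext j; rw [hi j]; rfl
      rw [this]
    have e2 : (BoundedFormula.rel R ts).Realize (default : Empty → N) w ↔
        RelMap R (fun j => w (i j)) := by
      change RelMap R (fun j => (ts j).realize (Sum.elim default w)) ↔ _
      have : (fun j => (ts j).realize (Sum.elim (default : Empty → N) w)) =
          fun j => w (i j) := by
        funext j; rw [hi j]; rfl
      rw [this]
    rw [e1, e2]
    constructor
    · intro h3
      obtain ⟨y, hy1, hy2⟩ := h2.1 ⟨_, fun j => rfl, h3⟩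
      have : y = fun j => w (i j) := by funext j; exact (hy1 j).symm
      rwa [← this]
    · intro h3
      obtain ⟨y, hy1, hy2⟩ := h2.2 ⟨_, fun j => rfl, h3⟩
      have : y = fun j => v (i j) := by funext j; exact (hy1 j).symm
      rwa [← this]
  | imp φ ψ ih1 ih2 =>
    intro r hr m s a b hab v w hv hw
    simp only [qd, max_le_iff] at hr
    rw [BoundedFormula.realize_imp, BoundedFormula.realize_imp,
      ih1 r hr.1 s a b hab v w hv hw, ih2 r hr.2 s a b hab v w hv hw]
  | @all k φ ih =>
    intro r hr m s a b hab v w hv hw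
    simp only [qd] at hr
    obtain ⟨r, rfl⟩ : ∃ r', r = r' + 1 := ⟨r - 1, by omega⟩
    rw [BoundedFormula.realize_all, BoundedFormula.realize_all]
    have hset : {θ | ∃ x : M, θ = tp L r (ext a (some x))} =
        {θ | ∃ x : N, θ = tp L r (ext b (some x))} := congrArg (fun z => z.2.1) hab
    have key : ∀ (x : M) (y : N), tp L r (ext a (some x)) = tp L r (ext b (some y)) →
        (φ.Realize (default : Empty → M) (Fin.snoc v x) ↔
          φ.Realize (default : Empty → N) (Fin.snoc w y)) := by
      intro x y hxy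
      refine ih r (by omega) (Fin.snoc (α := fun _ => Fin (m + 1))
        (fun t => (s t).castSucc) (Fin.last m)) _ _ hxy _ _ ?_ ?_
      · intro t
        refine Fin.lastCases ?_ (fun t => ?_) t
        · simp
        · simp [hv]
      · intro t
        refine Fin.lastCases ?_ (fun t => ?_) t
        · simp
        · simp [hw]
    constructor
    · intro h y
      have : tp L r (ext b (some y)) ∈ {θ | ∃ x : M, θ = tp L r (ext a (some x))} := by
        rw [hset]; exact ⟨y, rfl⟩
      obtain ⟨x, hx⟩ := this
      exact (key x y hx.symm).1 (h x)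
    · intro h x
      have : tp L r (ext a (some x)) ∈ {θ | ∃ x : N, θ = tp L r (ext b (some x))} := by
        rw [← hset]; exact ⟨x, rfl⟩
      obtain ⟨y, hy⟩ := this
      exact (key x y hy).2 (h y)

end Pool.Agent.Helper4.Glue
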