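import Mathlib
import Pool.Agent.Helper4.GlueTypes

set_option autoImplicit false

namespace Pool.Agent.Helper4.Glue

open FirstOrder FirstOrder.Language Structure

/-! ### Capped counting -/

lemma min_sum {Θ : Type} (s : Finset Θ) (K : ℕ) (x y : Θ → ℕ)
    (h : ∀ θ ∈ s, min K (x θ) = min K (y θ)) :
    min K (∑ θ ∈ s, x θ) = min K (∑ θ ∈ s, y θ) := by
  classical
  induction s using Finset.induction_on with
  | empty => simp
  | insert a s ha ih =>
    rw [Finset.sum_insert ha, Finset.sum_insert ha]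
    have h1 := h a (Finset.mem_insert_self a s)
    have h2 := ih (fun θ hθ => h θ (Finset.mem_insert_of_mem hθ))
    omega

open Classical in
/-- The number of `i` with `f i = θ`. -/
noncomputable def cnt {I Θ : Type} [Fintype I] (f : I → Θ) (θ : Θ) : ℕ :=
  (Finset.univ.filter (fun i => f i = θ)).card

open Classical in
lemma cap_map {I J Θ : Type} [Fintype I] [Fintype J] [Finite Θ] (f : I → Θ) (g : J → Θ) (K : ℕ)
    (h : ∀ θ, min K (cnt f θ) = min K (cnt g θ)) (P : Θ → Prop) :
    min K (Finset.univ.filter (fun i => P (f i))).card =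
      min K (Finset.univ.filter (fun j => P (g j))).card := by
  have := Fintype.ofFinite Θ
  have key : ∀ {I : Type} [Fintype I] (f : I → Θ),
      (Finset.univ.filter (fun i => P (f i))).card =
        ∑ θ ∈ Finset.univ.filter P, cnt f θ := by
    intro I _ f
    rw [Finset.card_eq_sum_card_fiberwise (f := f) (t := Finset.univ.filter P)]
    · refine Finset.sum_congr rfl fun θ hθ => ?_
      rw [cnt, Finset.filter_filter]
      congr 1
      ext i
      simp only [Finset.mem_filter, Finset.mem_univ, true_and] at hθ ⊢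
      constructor
      · rintro ⟨_, h⟩; exact h
      · rintro h; exact ⟨h ▸ hθ, h⟩
    · intro i hi
      simpa using hi
  rw [key f, key g]
  exact min_sum _ K _ _ (fun θ _ => h θ)

lemma cap_map' {I J Θ H : Type} [Fintype I] [Fintype J] [Finite Θ] (f : I → Θ) (g : J → Θ)
    (K : ℕ) (h : ∀ θ, min K (cnt f θ) = min K (cnt g θ)) (f' : I → H) (g' : J → H) (η : H)
    (P : Θ → Prop) (hf : ∀ i, f' i = η ↔ P (f i)) (hg : ∀ j, g' j = η ↔ P (g j)) :
    min K (cnt f' η) = min K (cnt g' η) := by
  classical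
  have h1 := cap_map f g K h P
  have e1 : cnt f' η = (Finset.univ.filter (fun i => P (f i))).card := by
    rw [cnt]
    congr 1
    ext i
    simp [hf]
  have e2 : cnt g' η = (Finset.univ.filter (fun j => P (g j))).card := by
    rw [cnt]
    congr 1
    ext i
    simp [hg]
  rw [e1, e2]
  convert h1

open Classical in
lemma cnt_update {I H : Type} [Fintype I] (f : I → H) (i₀ : I) (A η : H) :
    cnt (Function.update f i₀ A) η + (if f i₀ = η then 1 else 0) =
      cnt f η + (if A = η then 1 else 0) := by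
  have key : ∀ g : I → H, cnt g η =
      ((Finset.univ.erase i₀).filter (fun i => g i = η)).card + (if g i₀ = η then 1 else 0) := by
    intro g
    rw [cnt, ← Finset.insert_erase (Finset.mem_univ i₀), Finset.filter_insert,
      Finset.erase_insert (Finset.notMem_erase _ _)]
    split_ifs with h
    · rw [Finset.card_insert_of_notMem]
      simp
    · rfl
  rw [key f, key (Function.update f i₀ A)]
  have : (Finset.univ.erase i₀).filter (fun i => Function.update f i₀ A i = η) =
      (Finset.univ.erase i₀).filter (fun i => f i = η) := by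
    refine Finset.filter_congr fun i hi => ?_
    rw [Function.update_of_ne (Finset.ne_of_mem_erase hi)]
  rw [this, Function.update_self]
  omega

lemma cnt_pos_iff {I Θ : Type} [Fintype I] (f : I → Θ) (θ : Θ) : 0 < cnt f θ ↔ ∃ i, f i = θ := by
  classical
  rw [cnt, Finset.card_pos]
  simp [Finset.Nonempty]

/-! ### Families of structures glued along a common core -/

section

variable {I : Type} (M : I → Type) {c : ℕ} (e : ∀ i, Fin c → M i)

/-- The structures `M i` glued along the tuples `e i`. -/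
def G : Type := Fin c ⊕ (Σ i, {x : M i // x ∉ Set.range (e i)})

open Classical in
/-- The element of `M i` given by an element of the glued structure, if there is one. -/
noncomputable def rho (i : I) : G M e → Option (M i)
  | Sum.inl j => some (e i j)
  | Sum.inr z => if h : z.1 = i then some (h ▸ z.2.1) else none

@[simp] lemma rho_inl (i : I) (j : Fin c) : rho M e i (Sum.inl j) = some (e i j) := rfl

@[simp] lemma rho_inr_self (i : I) (x : {x : M i // x ∉ Set.range (e i)}) :
    rho M e i (Sum.inr ⟨i, x⟩) = some x.1 := by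
  simp [rho]

lemma rho_inr_ne {i i' : I} (h : i' ≠ i) (x : {x : M i' // x ∉ Set.range (e i')}) :
    rho M e i (Sum.inr ⟨i', x⟩) = none := by
  simp [rho, h]

noncomputable instance gStr {L : FirstOrder.Language.{0, 0}} [L.IsRelational]
    [∀ i, L.Structure (M i)] : L.Structure (G M e) where
  funMap := fun f => isEmptyElim f
  RelMap := fun R g => ∃ i, ∃ y : Fin _ → M i, (∀ j, rho M e i (g j) = some (y j)) ∧ RelMap R y

variable {M e}

lemma rho_inj (he : ∀ i, Function.Injective (e i)) {i : I} {g g' : G M e} {x : M i}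
    (h : rho M e i g = some x) (h' : rho M e i g' = some x) : g = g' := by
  rcases g with j | ⟨i₁, x₁⟩ <;> rcases g' with j' | ⟨i₂, x₂⟩
  · simp only [rho_inl, Option.some.injEq] at h h'
    rw [he i (h.trans h'.symm)]
  · by_cases h2 : i₂ = i
    · subst h2
      simp only [rho_inl, rho_inr_self, Option.some.injEq] at h h'
      exact absurd ⟨j, h.trans h'.symm⟩ x₂.2
    · rw [rho_inr_ne _ _ h2] at h'
      exact absurd h' (by simp)
  · by_cases h2 : i₁ = i
    · subst h2
      simp only [rho_inl, rho_inr_self, Option.some.injEq] at h h'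
      exact absurd ⟨j', h'.trans h.symm⟩ x₁.2
    · rw [rho_inr_ne _ _ h2] at h
      exact absurd h (by simp)
  · by_cases h1 : i₁ = i
    · by_cases h2 : i₂ = i
      · subst h1
        subst h2
        simp only [rho_inr_self, Option.some.injEq] at h h'
        have : x₁ = x₂ := Subtype.ext (h.trans h'.symm)
        rw [this]
      · rw [rho_inr_ne _ _ h2] at h'
        exact absurd h' (by simp)
    · rw [rho_inr_ne _ _ h1] at h
      exact absurd h (by simp)

lemma exists_rho [Nonempty I] (g : G M e) : ∃ i x, rho M e i g = some x := by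
  rcases g with j | ⟨i, x⟩
  · exact ⟨Classical.arbitrary I, _, rfl⟩
  · exact ⟨i, x.1, rho_inr_self M e i x⟩

/-- The part of a partial tuple lying in the `i`-th structure. -/
noncomputable def pt {n : ℕ} (a : Fin n → Option (G M e)) (i : I) : Fin n → Option (M i) :=
  fun t => (a t).bind (rho M e i)

lemma pt_inl {n : ℕ} {a : Fin n → Option (G M e)} {t : Fin n} {j : Fin c}
    (h : a t = some (Sum.inl j)) (i : I) : pt a i t = some (e i j) := by
  unfold pt
  rw [h]
  rfl

lemma pt_ext {n : ℕ} (a : Fin n → Option (G M e)) (x : Option (G M e)) (i : I) :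
    pt (ext a x) i = ext (pt a i) (x.bind (rho M e i)) := by
  funext t
  refine Fin.lastCases ?_ (fun t => ?_) t
  · simp [pt]
  · simp [pt]

variable {L : FirstOrder.Language.{0, 0}} [L.IsRelational] [∀ i, L.Structure (M i)]

lemma atm_fst {n : ℕ} (a : Fin n → Option (G M e))
    (q : Σ p : (Σ k, L.Relations k), (Fin p.1 → Fin n)) :
    (atm a : T0 L n).1 q ↔ ∃ i, (atm (pt a i) : T0 L n).1 q := by
  constructor
  · rintro ⟨y, hy, i, z, hz, hR⟩
    refine ⟨i, z, fun j => ?_, hR⟩
    simp [pt, hy j, hz j]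
  · rintro ⟨i, z, hz, hR⟩
    have : ∀ j, ∃ g : G M e, a (q.2 j) = some g ∧ rho M e i g = some (z j) := by
      intro j
      have := hz j
      simp only [pt, Option.bind_eq_some_iff] at this
      exact this
    choose y hy using this
    exact ⟨y, fun j => (hy j).1, i, z, fun j => (hy j).2, hR⟩

lemma atm_snd (he : ∀ i, Function.Injective (e i)) [Nonempty I] {n : ℕ}
    (a : Fin n → Option (G M e)) (s t : Fin n) :
    (atm a : T0 L n).2 s t ↔ ∃ i, (atm (pt a i) : T0 L n).2 s t := by
  constructor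
  · rintro ⟨g, hs, ht⟩
    obtain ⟨i, x, hx⟩ := exists_rho g
    exact ⟨i, x, by simp [pt, hs, hx], by simp [pt, ht, hx]⟩
  · rintro ⟨i, x, hs, ht⟩
    simp only [pt, Option.bind_eq_some_iff] at hs ht
    obtain ⟨g, hg1, hg2⟩ := hs
    obtain ⟨g', hg1', hg2'⟩ := ht
    have := rho_inj he hg2 hg2'
    subst this
    exact ⟨g, hg1, hg1'⟩

end

section

variable {L : FirstOrder.Language.{0, 0}} [L.IsRelational] {I J : Type} [Fintype I] [Fintype J]
  {M : I → Type} {N : J → Type} {c : ℕ} {e : ∀ i, Fin c → M i} {d : ∀ j, Fin c → N j}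
  [∀ i, L.Structure (M i)] [∀ j, L.Structure (N j)]

/-- The function giving the rank `r` type of each part. -/
noncomputable def pts (L : FirstOrder.Language.{0, 0}) [L.IsRelational] [∀ i, L.Structure (M i)]
    (r : ℕ) {m : ℕ} (a : Fin m → Option (G M e)) : I → Ty L r m :=
  fun i => tp L r (pt a i)

/-- All elements of the core occur at the same places of both tuples. -/
def CoreIn {m : ℕ} (a : Fin m → Option (G M e)) (b : Fin m → Option (G N d)) : Prop :=
  ∀ j : Fin c, ∃ t, a t = some (Sum.inl j) ∧ b t = some (Sum.inl j)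

lemma CoreIn.ext {m : ℕ} {a : Fin m → Option (G M e)} {b : Fin m → Option (G N d)}
    (h : CoreIn a b) (x : Option (G M e)) (y : Option (G N d)) :
    CoreIn (Glue.ext a x) (Glue.ext b y) := by
  intro j
  obtain ⟨t, h1, h2⟩ := h j
  exact ⟨t.castSucc, by simp [h1], by simp [h2]⟩

lemma atm_eq (he : ∀ i, Function.Injective (e i)) (hd : ∀ j, Function.Injective (d j))
    [Nonempty I] [Nonempty J] (r : ℕ) {m : ℕ} (a : Fin m → Option (G M e))
    (b : Fin m → Option (G N d))
    (h : ∀ θ : Ty L r m, min (r + 1) (cnt (pts L r a) θ) = min (r + 1) (cnt (pts L r b) θ)) :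
    (atm a : T0 L m) = atm b := by
  have key : ∀ P : T0 L m → Prop,
      (∃ i, P (atm (pt a i))) ↔ ∃ j, P (atm (pt b j)) := by
    intro P
    constructor
    · rintro ⟨i, hi⟩
      have h1 : 0 < cnt (pts L r a) (tp L r (pt a i)) := (cnt_pos_iff _ _).2 ⟨i, rfl⟩
      have h2 := h (tp L r (pt a i))
      have h3 : 0 < cnt (pts L r b) (tp L r (pt a i)) := by omega
      obtain ⟨j, hj⟩ := (cnt_pos_iff _ _).1 h3
      refine ⟨j, ?_⟩
      have h4 : (atm (pt b j) : T0 L m) = atm (pt a i) := by
        rw [← at0_tp r, ← at0_tp r]; exact congrArg _ hj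
      rw [h4]; exact hi
    · rintro ⟨j, hj⟩
      have h1 : 0 < cnt (pts L r b) (tp L r (pt b j)) := (cnt_pos_iff _ _).2 ⟨j, rfl⟩
      have h2 := h (tp L r (pt b j))
      have h3 : 0 < cnt (pts L r a) (tp L r (pt b j)) := by omega
      obtain ⟨i, hi⟩ := (cnt_pos_iff _ _).1 h3
      refine ⟨i, ?_⟩
      have h4 : (atm (pt a i) : T0 L m) = atm (pt b j) := by
        rw [← at0_tp r, ← at0_tp r]; exact congrArg _ hi
      rw [h4]; exact hj
  refine Prod.ext ?_ ?_
  · funext q
    rw [eq_iff_iff, atm_fst, atm_fst]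
    exact key (fun θ => θ.1 q)
  · funext s t
    rw [eq_iff_iff, atm_snd he, atm_snd hd]
    exact key (fun θ => θ.2 s t)

lemma step_none (hfin : Finite (Σ k, L.Relations k)) (r : ℕ) {m : ℕ}
    (a : Fin m → Option (G M e)) (b : Fin m → Option (G N d))
    (h : ∀ θ : Ty L (r + 1) m,
      min (r + 2) (cnt (pts L (r + 1) a) θ) = min (r + 2) (cnt (pts L (r + 1) b) θ))
    (η : Ty L r (m + 1)) :
    min (r + 1) (cnt (pts L r (ext a none)) η) = min (r + 1) (cnt (pts L r (ext b none)) η) := by
  have := finite_Ty L hfin (r + 1) m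
  have e1 : pts L r (ext a none) = fun i => nn (pts L (r + 1) a i) := by
    funext i; simp only [pts, pt_ext]; rfl
  have e2 : pts L r (ext b none) = fun j => nn (pts L (r + 1) b j) := by
    funext i; simp only [pts, pt_ext]; rfl
  have h1 := cap_map' (pts L (r + 1) a) (pts L (r + 1) b) (r + 2) h (pts L r (ext a none))
    (pts L r (ext b none)) η (fun θ => nn θ = η) (fun i => by rw [e1]) (fun j => by rw [e2])
  omega

/-- Extension by an element of one part outside the core. -/
lemma pts_inr (r : ℕ) {m : ℕ} (a : Fin m → Option (G M e)) (i₀ : I)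
    (x : {x : M i₀ // x ∉ Set.range (e i₀)}) [DecidableEq I] :
    pts L r (ext a (some (Sum.inr ⟨i₀, x⟩))) =
      Function.update (fun i => nn (pts L (r + 1) a i)) i₀
        (tp L r (ext (pt a i₀) (some x.1))) := by
  funext i
  by_cases hi : i = i₀
  · subst hi
    rw [Function.update_self]
    simp only [pts, pt_ext]
    congr 2
    simp
  · rw [Function.update_of_ne hi]
    simp only [pts, pt_ext]
    rw [nn_tp]
    congr 2
    simp [rho_inr_ne M e (Ne.symm hi) x]

/-- Extension by an element of the core: the type of each part is determined by its type. -/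
lemma pts_inl (r : ℕ) {m : ℕ} (a : Fin m → Option (G M e)) (j : Fin c) (t : Fin m)
    (ht : a t = some (Sum.inl j)) (i : I) (η : Ty L r (m + 1)) :
    pts L r (ext a (some (Sum.inl j))) i = η ↔
      (η ∈ xs (pts L (r + 1) a i) ∧ (at0 r η).2 (Fin.last m) t.castSucc) := by
  have h1 : pts L r (ext a (some (Sum.inl j))) i = tp L r (ext (pt a i) (some (e i j))) := by
    simp only [pts, pt_ext]; rfl
  have h2 : pt a i t = some (e i j) := pt_inl ht i
  rw [h1]
  constructor
  · rintro rfl
    refine ⟨(mem_xs_tp _ _ _).2 ⟨_, rfl⟩, ?_⟩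
    rw [at0_tp]
    exact ⟨e i j, by simp, by simp [h2]⟩
  · rintro ⟨h3, h4⟩
    obtain ⟨x, rfl⟩ := (mem_xs_tp _ _ _).1 h3
    rw [at0_tp] at h4
    obtain ⟨y, hy1, hy2⟩ := h4
    simp only [ext_last, ext_castSucc, h2, Option.some.injEq] at hy1 hy2
    rw [hy1, hy2]

lemma step_some (hfin : Finite (Σ k, L.Relations k)) (r : ℕ) {m : ℕ}
    (a : Fin m → Option (G M e)) (b : Fin m → Option (G N d)) (hc : CoreIn a b)
    (h : ∀ θ : Ty L (r + 1) m,
      min (r + 2) (cnt (pts L (r + 1) a) θ) = min (r + 2) (cnt (pts L (r + 1) b) θ))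
    (x : G M e) : ∃ y : G N d, ∀ η : Ty L r (m + 1),
      min (r + 1) (cnt (pts L r (ext a (some x))) η) =
        min (r + 1) (cnt (pts L r (ext b (some y))) η) := by
  classical
  have := finite_Ty L hfin (r + 1) m
  rcases x with j | ⟨i₀, x⟩
  · obtain ⟨t, ht1, ht2⟩ := hc j
    refine ⟨Sum.inl j, fun η => ?_⟩
    have h1 := cap_map' (pts L (r + 1) a) (pts L (r + 1) b) (r + 2) h _ _ η
      (fun θ => η ∈ xs θ ∧ (at0 r η).2 (Fin.last m) t.castSucc)
      (fun i => pts_inl r a j t ht1 i η) (fun i => pts_inl r b j t ht2 i η)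
    omega
  · -- the type of the part containing the new element
    have h0 : 0 < cnt (pts L (r + 1) a) (tp L (r + 1) (pt a i₀)) :=
      (cnt_pos_iff _ _).2 ⟨i₀, rfl⟩
    have h1 : 0 < cnt (pts L (r + 1) b) (tp L (r + 1) (pt a i₀)) := by
      have := h (tp L (r + 1) (pt a i₀))
      omega
    obtain ⟨j₀, hj₀⟩ := (cnt_pos_iff _ _).1 h1
    have hj₀' : tp L (r + 1) (pt b j₀) = tp L (r + 1) (pt a i₀) := hj₀
    have h2 : tp L r (ext (pt a i₀) (some x.1)) ∈ xs (tp L (r + 1) (pt b j₀)) := by
      rw [hj₀']; exact (mem_xs_tp _ _ _).2 ⟨_, rfl⟩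
    obtain ⟨y, hy⟩ := (mem_xs_tp _ _ _).1 h2
    have hy2 : y ∉ Set.range (d j₀) := by
      rintro ⟨j, rfl⟩
      obtain ⟨t, ht1, ht2⟩ := hc j
      have h3 : (atm (ext (pt b j₀) (some (d j₀ j))) : T0 L (m + 1)).2 (Fin.last m)
          t.castSucc := ⟨d j₀ j, by simp, by simp [pt_inl ht2]⟩
      rw [← at0_tp r, ← hy, at0_tp] at h3
      obtain ⟨z, hz1, hz2⟩ := h3
      rw [ext_castSucc, pt_inl ht1] at hz2
      simp only [ext_last, Option.some.injEq] at hz1 hz2
      exact x.2 ⟨j, hz2.trans hz1.symm⟩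
    refine ⟨Sum.inr ⟨j₀, y, hy2⟩, fun η => ?_⟩
    rw [pts_inr r a i₀ x, pts_inr r b j₀ ⟨y, hy2⟩, ← hy]
    have e1 := cnt_update (fun i => nn (pts L (r + 1) a i)) i₀
      (tp L r (ext (pt a i₀) (some x.1))) η
    have e2 := cnt_update (fun i => nn (pts L (r + 1) b i)) j₀
      (tp L r (ext (pt a i₀) (some x.1))) η
    have e3 : nn (pts L (r + 1) b j₀) = nn (pts L (r + 1) a i₀) := by
      rw [hj₀]; rfl
    have e4 := cap_map' (pts L (r + 1) a) (pts L (r + 1) b) (r + 2) h
      (fun i => nn (pts L (r + 1) a i)) (fun i => nn (pts L (r + 1) b i)) η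
      (fun θ => nn θ = η) (fun i => Iff.rfl) (fun i => Iff.rfl)
    simp only [e3] at e2
    have e7 : nn (pts L (r + 1) a i₀) = η → 0 < cnt (fun i => nn (pts L (r + 1) a i)) η :=
      fun h => (cnt_pos_iff _ _).2 ⟨i₀, h⟩
    have e8 : nn (pts L (r + 1) a i₀) = η → 0 < cnt (fun i => nn (pts L (r + 1) b i)) η :=
      fun h => (cnt_pos_iff _ _).2 ⟨j₀, e3.trans h⟩
    by_cases h5 : nn (pts L (r + 1) a i₀) = η
    · have := e7 h5
      have := e8 h5
      rw [if_pos h5] at e1 e2
      split_ifs at e1 e2 <;> omega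
    · rw [if_neg h5] at e1 e2
      split_ifs at e1 e2 <;> omega

/-- Glued families whose parts have the same rank `r` types with the same multiplicities up to
`r + 1` have the same type of rank `r`. -/
theorem tp_glue_eq (he : ∀ i, Function.Injective (e i)) (hd : ∀ j, Function.Injective (d j))
    [Nonempty I] [Nonempty J] (hfin : Finite (Σ k, L.Relations k)) :
    ∀ (r : ℕ) {m : ℕ} (a : Fin m → Option (G M e)) (b : Fin m → Option (G N d)), CoreIn a b →
      (∀ θ : Ty L r m, min (r + 1) (cnt (pts L r a) θ) = min (r + 1) (cnt (pts L r b) θ)) →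
      tp L r a = tp L r b := by
  intro r
  induction r with
  | zero =>
    intro m a b hc h
    exact atm_eq he hd 0 a b h
  | succ r ih =>
    intro m a b hc h
    refine tp_succ_eq r a b (atm_eq he hd (r + 1) a b h) (fun η => ⟨?_, ?_⟩) ?_
    · rintro ⟨x, rfl⟩
      obtain ⟨y, hy⟩ := step_some hfin r a b hc h x
      exact ⟨y, ih _ _ (hc.ext _ _) hy⟩
    · rintro ⟨y, rfl⟩
      obtain ⟨x, hx⟩ := step_some hfin r b a (fun j => by
        obtain ⟨t, h1, h2⟩ := hc j
        exact ⟨t, h2, h1⟩) (fun θ => (h θ).symm) y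
      exact ⟨x, (ih _ _ (hc.ext _ _) (fun η => (hx η).symm)).symm⟩
    · exact ih _ _ (hc.ext _ _) (step_none hfin r a b h)

end

end Pool.Agent.Helper4.Glue
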