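import Mathlib
import Pool.Agent.Helper4.GlueDefs
import Pool.Agent.Helper4.GlueSum

set_option autoImplicit false

namespace Pool.Agent.Helper4.Glue

open FirstOrder FirstOrder.Language Structure

section

variable {L : FirstOrder.Language.{0, 0}} [L.IsRelational] {I J : Type} [Fintype I] [Fintype J]
  {M : I → Type} {N : J → Type} {c : ℕ} {e : ∀ i, Fin c → M i} {d : ∀ j, Fin c → N j}
  [∀ i, L.Structure (M i)] [∀ j, L.Structure (N j)]

/-- Two glued families, whose parts have the same types over the core, with equal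
multiplicities up to `r + 1`, satisfy the same sentences of quantifier depth at most `r`. -/
theorem realize_glue (he : ∀ i, Function.Injective (e i)) (hd : ∀ j, Function.Injective (d j))
    [Nonempty I] [Nonempty J]
    (hfin : Finite (Σ k, L.Relations k)) (φ : L.Sentence) (r : ℕ) (hr : qd φ ≤ r)
    (h : ∀ θ : Ty L r c, min (r + 1) (cnt (fun i => tp L r (fun j => some (e i j))) θ) =
      min (r + 1) (cnt (fun i => tp L r (fun j => some (d i j))) θ)) :
    φ.Realize (G M e) ↔ φ.Realize (G N d) := by
  let a : Fin c → Option (G M e) := fun j => some (Sum.inl j)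
  let b : Fin c → Option (G N d) := fun j => some (Sum.inl j)
  have hab : tp L r a = tp L r b :=
    tp_glue_eq he hd hfin r a b (fun j => ⟨j, rfl, rfl⟩) (fun θ => h θ)
  exact realize_iff φ r hr (fun t : Fin 0 => t.elim0) a b hab default default
    (fun t => t.elim0) (fun t => t.elim0)

end

section card

variable {I : Type} [Fintype I] {M : I → Type} {c : ℕ} {e : ∀ i, Fin c → M i}

instance finite_G [∀ i, Finite (M i)] : Finite (G M e) := by
  unfold G
  infer_instance

lemma card_G (he : ∀ i, Function.Injective (e i)) [∀ i, Finite (M i)] (u : I → ℕ)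
    (hu : ∀ i, Nat.card (M i) = c + u i) : Nat.card (G M e) = c + ∑ i, u i := by
  have h1 : ∀ i, Nat.card {x : M i // x ∉ Set.range (e i)} = u i := by
    intro i
    have h2 := Set.ncard_add_ncard_compl (Set.range (e i))
    have h3 : (Set.range (e i)).ncard = c := by
      rw [← Set.image_univ, Set.ncard_image_of_injective _ (he i), Set.ncard_univ]
      simp
    have h4 : Nat.card {x : M i // x ∉ Set.range (e i)} = ((Set.range (e i))ᶜ).ncard := rfl
    rw [h4]
    have := hu i
    omega
  have e1 : Nat.card (G M e) =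
      Nat.card (Fin c ⊕ (Σ i, {x : M i // x ∉ Set.range (e i)})) := rfl
  rw [e1, Nat.card_sum, Nat.card_sigma, Nat.card_fin]
  congr 1
  exact Finset.sum_congr rfl fun i _ => h1 i

end card

/-! ### The families used below -/

section fam

/-- One copy of `A` and copies of `B` indexed by `J`. -/
def fam (A : Type) {J : Type} (B : J → Type) : Option J → Type
  | none => A
  | some j => B j

variable {A : Type} {J : Type} {B : J → Type}

instance famStr {L : FirstOrder.Language.{0, 0}} [hA : L.Structure A]
    [hB : ∀ j, L.Structure (B j)] : ∀ i, L.Structure (fam A B i)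
  | none => hA
  | some j => hB j

/-- The cores. -/
def famE {c : ℕ} (eA : Fin c → A) (eB : ∀ j, Fin c → B j) : ∀ i, Fin c → fam A B i
  | none => eA
  | some j => eB j

lemma famE_inj {c : ℕ} {eA : Fin c → A} {eB : ∀ j, Fin c → B j} (hA : Function.Injective eA)
    (hB : ∀ j, Function.Injective (eB j)) : ∀ i, Function.Injective (famE eA eB i)
  | none => hA
  | some j => hB j

lemma fam_finite (hA : Finite A) (hB : ∀ j, Finite (B j)) : ∀ i, Finite (fam A B i)
  | none => hA
  | some j => hB j

lemma cnt_fam {Θ : Type} [Fintype J] (f : Option J → Θ) (σ τ : Θ) (h1 : f none = σ)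
    (h2 : ∀ j, f (some j) = τ) (θ : Θ) [Decidable (σ = θ)] [Decidable (τ = θ)] :
    cnt f θ = (if σ = θ then 1 else 0) + (if τ = θ then Fintype.card J else 0) := by
  classical
  have e1 : cnt f θ = ∑ i, if f i = θ then 1 else 0 := by
    rw [cnt, Finset.card_filter]
  rw [e1, Fintype.sum_option, h1]
  simp only [h2]
  congr 1
  · congr
  · simp only [Finset.sum_const, Finset.card_univ, smul_eq_mul]
    split_ifs <;> simp

end fam

/-! ### Substructures of relational structures -/

/-- A subset as a structure. -/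
def Sub {M : Type} (S : Set M) : Type := ↥S

instance subStr {L : FirstOrder.Language.{0, 0}} [L.IsRelational] {M : Type} [L.Structure M]
    (S : Set M) : L.Structure (Sub S) where
  funMap := fun f => isEmptyElim f
  RelMap := fun R x => RelMap R (fun j => (x j).1)

/-! ### The structure with copies as a glued family -/

section copies

variable {L : FirstOrder.Language.{0, 0}} [L.IsRelational] {M : Type} [L.Structure M]

/-- The core of the outer part. -/
def eOut {C X : Set M} (h : Disjoint C X) {c : ℕ} (ε : Fin c ≃ C) : Fin c → Sub Xᶜ :=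
  fun j => ⟨(ε j).1, fun hx => Set.disjoint_left.1 h (ε j).2 hx⟩

/-- The core of the piece. -/
def eIn {C : Set M} (X : Set M) {c : ℕ} (ε : Fin c ≃ C) : Fin c → Sub (C ∪ X) :=
  fun j => ⟨(ε j).1, Or.inl (ε j).2⟩

lemma eOut_inj {C X : Set M} (h : Disjoint C X) {c : ℕ} (ε : Fin c ≃ C) :
    Function.Injective (eOut h ε) := by
  intro j j' hj
  have : (ε j).1 = (ε j').1 := congrArg (fun z : Sub Xᶜ => z.1) hj
  exact ε.injective (Subtype.ext this)

lemma eIn_inj {C : Set M} (X : Set M) {c : ℕ} (ε : Fin c ≃ C) :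
    Function.Injective (eIn X ε) := by
  intro j j' hj
  have : (ε j).1 = (ε j').1 := congrArg (fun z : Sub (C ∪ X) => z.1) hj
  exact ε.injective (Subtype.ext this)

variable {C X : Set M} (h : Disjoint C X) {c : ℕ} (ε : Fin c ≃ C) (k : ℕ)

/-- The glued family: the complement of `X` and `k` copies of `C ∪ X`. -/
abbrev GC : Type :=
  G (fam (Sub Xᶜ) (fun _ : Fin k => Sub (C ∪ X))) (famE (eOut h ε) (fun _ => eIn X ε))

open Classical in
/-- The comparison map. -/
noncomputable def cmp : GC h ε k → Copies X k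
  | Sum.inl j => Sum.inl (eOut h ε j)
  | Sum.inr ⟨none, x⟩ => Sum.inl x.1
  | Sum.inr ⟨some i, x⟩ => copy X k i (x.1 : Sub (C ∪ X)).1

lemma mem_X_of {i : Fin k} (x : {x : fam (Sub Xᶜ) (fun _ : Fin k => Sub (C ∪ X)) (some i) //
    x ∉ Set.range (famE (eOut h ε) (fun _ => eIn X ε) (some i))}) :
    (x.1 : Sub (C ∪ X)).1 ∈ X := by
  rcases (x.1 : Sub (C ∪ X)).2 with h1 | h1
  · exact absurd ⟨ε.symm ⟨_, h1⟩, Subtype.ext (by
      show (ε (ε.symm _)).1 = _
      rw [Equiv.apply_symm_apply])⟩ x.2
  · exact h1

lemma copy_mem {i : Fin k} {x : M} (hx : x ∈ X) : copy X k i x = Sum.inr (i, ⟨x, hx⟩) := by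
  unfold copy; rw [dif_pos hx]

lemma copy_notMem {i : Fin k} {x : M} (hx : x ∉ X) : copy X k i x = Sum.inl ⟨x, hx⟩ := by
  unfold copy; rw [dif_neg hx]

lemma cmp_none (g : GC h ε k) (z : Sub Xᶜ) :
    rho (fam (Sub Xᶜ) (fun _ : Fin k => Sub (C ∪ X))) (famE (eOut h ε) (fun _ => eIn X ε))
      none g = some z ↔ cmp h ε k g = Sum.inl z := by
  rcases g with j | ⟨_ | i, x⟩
  · rw [rho_inl]
    show some (eOut h ε j) = some z ↔ Sum.inl (eOut h ε j) = Sum.inl z
    simp
  · rw [rho_inr_self]
    show some x.1 = some z ↔ Sum.inl x.1 = Sum.inl z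
    exact ⟨fun h1 => congrArg Sum.inl (Option.some.inj h1),
      fun h1 => congrArg some (Sum.inl.inj h1)⟩
  · rw [rho_inr_ne _ _ (by simp)]
    show none = some z ↔ copy X k i (x.1 : Sub (C ∪ X)).1 = Sum.inl z
    rw [copy_mem k (mem_X_of h ε k x)]
    constructor
    · intro h; exact absurd h (by simp)
    · intro h; exact absurd h (by simp)

lemma cmp_some (g : GC h ε k) (i : Fin k) (z : Sub (C ∪ X)) :
    rho (fam (Sub Xᶜ) (fun _ : Fin k => Sub (C ∪ X))) (famE (eOut h ε) (fun _ => eIn X ε))
      (some i) g = some z ↔ cmp h ε k g = copy X k i z.1 := by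
  rcases g with j | ⟨_ | i', x⟩
  · rw [rho_inl]
    show some (eIn X ε j) = some z ↔ Sum.inl (eOut h ε j) = copy X k i z.1
    have h1 : (ε j).1 ∉ X := fun hx => Set.disjoint_left.1 h (ε j).2 hx
    constructor
    · intro h2
      have h3 : eIn X ε j = z := Option.some.inj h2
      rw [← h3]
      exact (copy_notMem k h1).symm
    · intro h2
      by_cases h3 : z.1 ∈ X
      · rw [copy_mem k h3] at h2
        exact absurd h2 (by simp)
      · rw [copy_notMem k h3] at h2
        have h4 : eOut h ε j = ⟨z.1, h3⟩ := Sum.inl.inj h2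
        have h5 : (ε j).1 = z.1 := congrArg Subtype.val h4
        exact congrArg some (Subtype.ext h5)
  · rw [rho_inr_ne _ _ (by simp)]
    show none = some z ↔ Sum.inl x.1 = copy X k i z.1
    constructor
    · intro h; exact absurd h (by simp)
    · intro h2
      exfalso
      by_cases h3 : z.1 ∈ X
      · rw [copy_mem k h3] at h2
        exact absurd h2 (by simp)
      · rw [copy_notMem k h3] at h2
        have h4 : (x.1 : Sub Xᶜ) = ⟨z.1, h3⟩ := Sum.inl.inj h2
        have h5 : z.1 ∈ C := z.2.resolve_right h3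
        refine x.2 ⟨ε.symm ⟨z.1, h5⟩, ?_⟩
        show eOut h ε _ = (x.1 : Sub Xᶜ)
        rw [h4]
        refine Subtype.ext ?_
        show (ε (ε.symm ⟨z.1, h5⟩)).1 = z.1
        rw [Equiv.apply_symm_apply]
  · by_cases hi : i' = i
    · subst hi
      rw [rho_inr_self]
      show some x.1 = some z ↔ copy X k i' (x.1 : Sub (C ∪ X)).1 = copy X k i' z.1
      rw [copy_mem k (mem_X_of h ε k x)]
      constructor
      · intro h2
        have h3 : (x.1 : Sub (C ∪ X)) = z := Option.some.inj h2
        rw [← h3, copy_mem k (mem_X_of h ε k x)]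
      · intro h2
        by_cases h3 : z.1 ∈ X
        · rw [copy_mem k h3] at h2
          have h4 := (Prod.mk.inj (Sum.inr.inj h2)).2
          have h5 : (x.1 : Sub (C ∪ X)).1 = z.1 := congrArg (fun w : X => w.1) h4
          exact congrArg some (Subtype.ext h5)
        · rw [copy_notMem k h3] at h2
          exact absurd h2 (by simp)
    · rw [rho_inr_ne _ _ (by simpa using hi)]
      show none = some z ↔ copy X k i' (x.1 : Sub (C ∪ X)).1 = copy X k i z.1
      rw [copy_mem k (mem_X_of h ε k x)]
      constructor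
      · intro h; exact absurd h (by simp)
      · intro h2
        by_cases h3 : z.1 ∈ X
        · rw [copy_mem k h3] at h2
          exact absurd (Prod.mk.inj (Sum.inr.inj h2)).1 hi
        · rw [copy_notMem k h3] at h2
          exact absurd h2 (by simp)

lemma cmp_bijective : Function.Bijective (cmp h ε k) := by
  constructor
  · intro g g' hg
    have hinj := famE_inj (eOut_inj h ε) (fun _ : Fin k => eIn_inj X ε)
    obtain ⟨i, x, hx⟩ := exists_rho g
    refine rho_inj hinj hx ?_
    rcases i with _ | i
    · exact (cmp_none h ε k g' x).2 (hg ▸ (cmp_none h ε k g x).1 hx)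
    · exact (cmp_some h ε k g' i x).2 (hg ▸ (cmp_some h ε k g i x).1 hx)
  · rintro (x | ⟨i, x⟩)
    · by_cases hx : x.1 ∈ C
      · refine ⟨Sum.inl (ε.symm ⟨x.1, hx⟩), ?_⟩
        show Sum.inl (eOut h ε _) = _
        congr 1
        refine Subtype.ext ?_
        show (ε (ε.symm ⟨x.1, hx⟩)).1 = x.1
        rw [Equiv.apply_symm_apply]
      · refine ⟨Sum.inr ⟨none, x, ?_⟩, rfl⟩
        rintro ⟨j, hj⟩
        refine hx ?_
        have : (ε j).1 = x.1 := congrArg Subtype.val (show eOut h ε j = x from hj)
        rw [← this]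
        exact (ε j).2
    · refine ⟨Sum.inr ⟨some i, (⟨x.1, Or.inr x.2⟩ : Sub (C ∪ X)), ?_⟩, ?_⟩
      · rintro ⟨j, hj⟩
        have : (ε j).1 = x.1 := congrArg Subtype.val
          (show eIn X ε j = (⟨x.1, Or.inr x.2⟩ : Sub (C ∪ X)) from hj)
        exact Set.disjoint_left.1 h (ε j).2 (this ▸ x.2)
      · show copy X k i x.1 = _
        exact copy_mem k x.2

lemma realize_copies (hat : AttachedBy L C X) (hk : 0 < k) (φ : L.Sentence) :
    @Sentence.Realize L (Copies X k) (copiesStructure L X k) φ ↔
      φ.Realize (GC hat.1 ε k) := by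
  let _ := copiesStructure L X k
  let f : GC hat.1 ε k ≃[L] Copies X k :=
    { Equiv.ofBijective _ (cmp_bijective hat.1 ε k) with
      map_fun' := fun f => isEmptyElim f
      map_rel' := by
        intro n R y
        constructor
        · rintro ⟨i, z, hR, hz⟩
          by_cases hX : ∃ j, z j ∈ X
          · have h1 := hat.2 n R z hR hX
            exact ⟨some i, fun j => (⟨z j, h1 j⟩ : Sub (C ∪ X)), fun j =>
              (cmp_some hat.1 ε k (y j) i ⟨z j, h1 j⟩).2 (hz j), hR⟩
          · push Not at hX
            refine ⟨none, fun j => (⟨z j, hX j⟩ : Sub Xᶜ), fun j =>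
              (cmp_none hat.1 ε k (y j) ⟨z j, hX j⟩).2 ?_, hR⟩
            exact (hz j).trans (copy_notMem k (hX j))
        · rintro ⟨_ | i, z, hz, hR⟩
          · refine ⟨⟨0, hk⟩, fun j => (z j : Sub Xᶜ).1, hR, fun j => ?_⟩
            refine ((cmp_none hat.1 ε k (y j) (z j)).1 (hz j)).trans ?_
            exact (copy_notMem k (z j : Sub Xᶜ).2).symm
          · exact ⟨i, fun j => (z j : Sub (C ∪ X)).1, hR, fun j =>
              (cmp_some hat.1 ε k (y j) i (z j)).1 (hz j)⟩ }
  exact (StrongHomClass.realize_sentence f φ).symm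

end copies

end Pool.Agent.Helper4.Glue
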