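import Mathlib
import Pool.Agent.Helper31.Spectra
import Pool.Agent.Helper4.GlueDefs
import Pool.Agent.Helper4.GlueMain

set_option autoImplicit false

namespace Pool.Agent.Helper4.Glue

open FirstOrder FirstOrder.Language Structure
open Pool.Agent.Helper31.Spectra

/-- The numbers `u > 0` such that some finite structure has a core of size `c` of type `τ` and
`u` further elements. -/
def extra (L : FirstOrder.Language.{0, 0}) [L.IsRelational] (r c : ℕ) (τ : Ty L r c) : Set ℕ :=
  {u | 0 < u ∧ ∃ (M : Type) (_ : L.Structure M) (e : Fin c → M), Finite M ∧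
    Function.Injective e ∧ tp L r (fun j => some (e j)) = τ ∧ Nat.card M = c + u}

open Classical in
/-- A fixed element of `extra`, or `1`. -/
noncomputable def u₀ (L : FirstOrder.Language.{0, 0}) [L.IsRelational] (r c : ℕ)
    (τ : Ty L r c) : ℕ :=
  if h : (extra L r c τ).Nonempty then h.choose else 1

lemma u₀_pos (L : FirstOrder.Language.{0, 0}) [L.IsRelational] (r c : ℕ)
    (τ : Ty L r c) : 0 < u₀ L r c τ := by
  unfold u₀
  split_ifs with h
  · exact h.choose_spec.1
  · exact Nat.one_pos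

lemma u₀_mem {L : FirstOrder.Language.{0, 0}} [L.IsRelational] {r c : ℕ}
    {τ : Ty L r c} (h : (extra L r c τ).Nonempty) : u₀ L r c τ ∈ extra L r c τ := by
  unfold u₀
  rw [dif_pos h]
  exact h.choose_spec

theorem spec_step (L : FirstOrder.Language.{0, 0}) [L.IsRelational]
    (hfin : Finite (Σ k, L.Relations k)) (φ : L.Sentence) (b c : ℕ)
    (h : HasRepeatablePieces L φ b c) :
    ∃ p, 0 < p ∧ ∀ n ∈ Spec L φ, b < n → n + p ∈ Spec L φ := by
  classical
  set r := qd φ with hr
  have hT : ∀ c', Finite (Ty L r c') := fun c' => finite_Ty L hfin r c'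
  let _ : ∀ c', Fintype (Ty L r c') := fun c' => Fintype.ofFinite _
  set p : ℕ := (r + 1) * ∏ c' ∈ Finset.range (c + 1), ∏ τ : Ty L r c', u₀ L r c' τ with hp
  have hpos : ∀ c' ∈ Finset.range (c + 1), 0 < ∏ τ : Ty L r c', u₀ L r c' τ :=
    fun c' _ => Finset.prod_pos (fun τ _ => u₀_pos L r c' τ)
  refine ⟨p, Nat.mul_pos (Nat.succ_pos r) (Finset.prod_pos hpos), ?_⟩
  rintro n ⟨hn0, M, sM, hMn, hM⟩ hcn
  have hfM : Finite M := Nat.finite_of_card_ne_zero (by omega)
  obtain ⟨C, X, hC, hXne, hat, hk⟩ := h M sM hfM (by omega) hM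
  obtain ⟨k, hk1, hk2⟩ := hk (r + 1)
  set c' := C.ncard with hc'
  have ε : Fin c' ≃ C := by
    have : Finite C := Subtype.finite
    exact (Finite.equivFinOfCardEq (by rw [hc']; rfl)).symm
  rw [realize_copies ε k hat (by omega) φ] at hk2
  -- the two parts
  have hA : Finite (Sub Xᶜ) := Subtype.finite
  have hB : Finite (Sub (C ∪ X)) := Subtype.finite
  have hX0 : 0 < X.ncard := (Set.ncard_pos (Set.toFinite X)).2 hXne
  have cA : Nat.card (Sub Xᶜ) = n - X.ncard := by
    have h1 := Set.ncard_add_ncard_compl X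
    have h2 : Nat.card (Sub Xᶜ) = Xᶜ.ncard := rfl
    omega
  have cB : Nat.card (Sub (C ∪ X)) = c' + X.ncard := by
    have h1 := Set.ncard_union_eq hat.1 (Set.toFinite C) (Set.toFinite X)
    exact h1
  have hCX : c' + X.ncard ≤ n := by
    rw [← cB, ← hMn]
    exact Set.ncard_le_card (C ∪ X)
  set τ : Ty L r c' := tp L r (fun j : Fin c' => some (eIn X ε j)) with hτ
  have hu : X.ncard ∈ extra L r c' τ :=
    ⟨hX0, Sub (C ∪ X), inferInstance, eIn X ε, hB, eIn_inj X ε, hτ.symm, cB⟩
  obtain ⟨hu1, M₁, sM₁, e₁, hfM₁, he₁, ht₁, hM₁⟩ := u₀_mem ⟨_, hu⟩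
  set u := u₀ L r c' τ with hu'
  -- the number of copies of the second structure
  have hdvd : (r + 1) * u ∣ p := by
    refine Nat.mul_dvd_mul_left _ (Dvd.dvd.trans ?_ (Finset.dvd_prod_of_mem _
      (Finset.mem_range.2 (show c' < c + 1 by omega))))
    exact Finset.dvd_prod_of_mem (fun τ : Ty L r c' => u₀ L r c' τ) (Finset.mem_univ τ)
  obtain ⟨s, hs⟩ := hdvd
  have hp0 : 0 < p := Nat.mul_pos (Nat.succ_pos r) (Finset.prod_pos hpos)
  have hs0 : 0 < s := by
    rcases Nat.eq_zero_or_pos s with h0 | h0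
    · rw [h0, Nat.mul_zero] at hs; omega
    · exact h0
  set t := (r + 1) * s with ht
  have htu : t * u = p := by rw [hs, ht]; ring
  have htr : r + 1 ≤ t := Nat.le_mul_of_pos_right _ hs0
  -- the new structure
  have hfam : ∀ i, Finite (fam (Sub Xᶜ) (fam (Sub (C ∪ X)) (fun _ : Fin t => M₁)) i) :=
    fam_finite hA (fam_finite hB (fun _ => hfM₁))
  have hinj := famE_inj (eOut_inj hat.1 ε) (famE_inj (eIn_inj X ε) (fun _ : Fin t => he₁))
  refine ⟨by omega, G (fam (Sub Xᶜ) (fam (Sub (C ∪ X)) (fun _ : Fin t => M₁)))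
    (famE (eOut hat.1 ε) (famE (eIn X ε) (fun _ => e₁))), inferInstance, ?_, ?_⟩
  · rw [card_G hinj (fun i => match i with
      | none => n - X.ncard - c'
      | some none => X.ncard
      | some (some _) => u)]
    · rw [Fintype.sum_option, Fintype.sum_option]
      simp only [Finset.sum_const, Finset.card_univ, Fintype.card_fin, smul_eq_mul, htu]
      omega
    · rintro (_ | _ | i)
      · show Nat.card (Sub Xᶜ) = c' + (n - X.ncard - c')
        rw [cA]
        omega
      · exact cB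
      · exact hM₁
  · refine (realize_glue (M := fam (Sub Xᶜ) (fam (Sub (C ∪ X)) (fun _ : Fin t => M₁)))
      (N := fam (Sub Xᶜ) (fun _ : Fin k => Sub (C ∪ X)))
      (e := famE (eOut hat.1 ε) (famE (eIn X ε) (fun _ => e₁)))
      (d := famE (eOut hat.1 ε) (fun _ => eIn X ε)) hinj
      (famE_inj (eOut_inj hat.1 ε) (fun _ => eIn_inj X ε)) hfin φ r le_rfl (fun θ => ?_)).2 hk2
    have h1 := cnt_fam (J := Option (Fin t)) (fun i => tp L r (fun j =>
      some (famE (eOut hat.1 ε) (famE (eIn X ε) (fun _ : Fin t => e₁)) i j)))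
      (tp L r (fun j => some (eOut hat.1 ε j))) τ rfl (by
        rintro (_ | i)
        · rfl
        · exact ht₁) θ
    have h2 := cnt_fam (J := Fin k) (fun i => tp L r (fun j =>
      some (famE (eOut hat.1 ε) (fun _ : Fin k => eIn X ε) i j)))
      (tp L r (fun j => some (eOut hat.1 ε j))) τ rfl (fun _ => rfl) θ
    rw [h1, h2]
    simp only [Fintype.card_option, Fintype.card_fin]
    split_ifs <;> omega

end Pool.Agent.Helper4.Glue
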