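import Pool.Agent.Helper23.Partner
import Pool.Agent.Helper23.Bic

/-!
# Module A2 of project G (MP_357da3): the constants `LB` are invariant under the transport maps
-/

open scoped InnerProductSpace Topology
open ContinuousLinearMap Filter

namespace Pool.Agent.Helper23

variable {H : Type*} [NormedAddCommGroup H] [InnerProductSpace ℂ H] [CompleteSpace H]
variable {M N : VonNeumannAlgebra H} {ξ : H} {E : (H →L[ℂ] H) → (H →L[ℂ] H)}

namespace AP

variable (S : AP M N E ξ)
include S

/-- averaging of a quadratic inequality over both sides of the compressions by an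
eigenoperator. -/
lemma avg_compress {γ : ℝ} (hγ : 0 < γ) {v : H →L[ℂ] H} (hv : v ∈ eig N ξ γ) (hv0 : v ≠ 0)
    {ι : Type*} [Fintype ι] {X : ι → H →L[ℂ] H} (hX : ∀ i, X i ∈ M) (s : ι → ℝ)
    (h : ∀ w ∈ Ucent N ξ, ∀ w' ∈ Ucent N ξ,
      0 ≤ ∑ i, s i * ‖(star v * w * X i * w' * v) ξ‖ ^ 2) :
    0 ≤ ∑ i, s i * ‖X i ξ‖ ^ 2 := by
  have hvv : v * star v ∈ eig N ξ 1 := mul_star_mem_eig_one hγ.ne' hv hv
  have hφ : ⟪ξ, (v * star v) ξ⟫_ℂ = ((‖(star v) ξ‖ ^ 2 : ℝ) : ℂ) := by
    rw [norm_sq_apply, star_star]; rfl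
  have hns : γ * ‖(star v) ξ‖ ^ 2 = ‖v ξ‖ ^ 2 := (S.eig_norm_sq hv).symm
  have hvξ : v ξ ≠ 0 := fun h => hv0 (S.sep v (S.le v hv.1) h)
  have hvn : 0 < ‖v ξ‖ ^ 2 := by positivity
  have hvsn : 0 < ‖(star v) ξ‖ ^ 2 := by
    by_contra hcon
    push Not at hcon
    nlinarith
  -- step 1 : averaging on the left
  have h1 : ∀ w' ∈ Ucent N ξ, 0 ≤ ∑ i, s i * ‖X i (w' (v ξ))‖ ^ 2 := by
    intro w' hw'
    have h2 := S.avgN_le (x := fun _ : ι => v * star v) (fun _ => hvv.1)
      (fun i => ((s i : ℝ) : ℂ) • X i (w' (v ξ))) (fun i => X i (w' (v ξ))) (c := 0) (by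
        intro u hu
        refine (h u hu w' hw').trans_eq (Finset.sum_congr rfl fun i _ => ?_)
        have e1 : (star v * u * X i * w' * v) ξ = (star v) (u (X i (w' (v ξ)))) := rfl
        have e2 : ⟪X i (w' (v ξ)), (star u * (v * star v) * u) (X i (w' (v ξ)))⟫_ℂ =
            ⟪(star v) (u (X i (w' (v ξ)))), (star v) (u (X i (w' (v ξ))))⟫_ℂ := by
          rw [inner_star_left]
          change ⟪X i (w' (v ξ)), (star u) ((v * star v) (u (X i (w' (v ξ)))))⟫_ℂ = _
          rw [inner_star_right]; rfl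
        rw [e1, inner_smul_left, Complex.conj_ofReal, Complex.re_ofReal_mul, e2,
          inner_self_eq_norm_sq_to_K]
        norm_cast)
    have h3 : ∑ i, (⟪ξ, (v * star v) ξ⟫_ℂ *
        ⟪((s i : ℝ) : ℂ) • X i (w' (v ξ)), X i (w' (v ξ))⟫_ℂ).re =
        ‖(star v) ξ‖ ^ 2 * ∑ i, s i * ‖X i (w' (v ξ))‖ ^ 2 := by
      rw [Finset.mul_sum]
      refine Finset.sum_congr rfl fun i _ => ?_
      rw [hφ, Complex.re_ofReal_mul, inner_smul_left, Complex.conj_ofReal,
        Complex.re_ofReal_mul, inner_self_eq_norm_sq_to_K]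
      norm_cast
    rw [h3] at h2
    exact nonneg_of_mul_nonneg_right h2 hvsn
  -- step 2 : averaging on the right
  have h2 := S.avgN_le (x := fun _ : ι => v * star v) (fun _ => hvv.1)
    (fun i => ((s i : ℝ) : ℂ) • (star (X i)) (X i ξ)) (fun _ => ξ) (c := 0) (by
      intro u hu
      have hus := Ucent_star hu
      have h3 := mul_nonneg (inv_nonneg.2 hγ.le) (h1 _ hus)
      refine h3.trans_eq ?_
      rw [Finset.mul_sum]
      refine Finset.sum_congr rfl fun i _ => ?_
      have h4 := S.norm_right_eig_sq (eig_mul_left hus.1 hv) (hX i)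
      have h5 : star u * v * star (star u * v) = star u * (v * star v) * u := by
        rw [star_mul, star_star]; simp only [mul_assoc]
      rw [h5] at h4
      have h6 : ‖X i ((star u) (v ξ))‖ ^ 2 =
          γ * (⟪(star (X i)) (X i ξ), (star u * (v * star v) * u) ξ⟫_ℂ).re := by
        have h7 := congrArg Complex.re h4
        rw [Complex.ofReal_re, Complex.re_ofReal_mul] at h7
        change ‖X i ((star u * v) ξ)‖ ^ 2 = _
        rw [h7, inner_star_left, ← inner_conj_symm, Complex.conj_re]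
      rw [h6, inner_smul_left, Complex.conj_ofReal, Complex.re_ofReal_mul]
      field_simp)
  have h3 : ∑ i, (⟪ξ, (v * star v) ξ⟫_ℂ *
      ⟪((s i : ℝ) : ℂ) • (star (X i)) (X i ξ), ξ⟫_ℂ).re =
      ‖(star v) ξ‖ ^ 2 * ∑ i, s i * ‖X i ξ‖ ^ 2 := by
    rw [Finset.mul_sum]
    refine Finset.sum_congr rfl fun i _ => ?_
    rw [hφ, Complex.re_ofReal_mul, inner_smul_left, Complex.conj_ofReal,
      Complex.re_ofReal_mul, inner_star_left, inner_self_eq_norm_sq_to_K]
    norm_cast
  rw [h3] at h2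
  exact nonneg_of_mul_nonneg_right h2 hvsn

/-- MODULE A2 : the constants are invariant under the transport maps. -/
theorem lb_al {y : H →L[ℂ] H} (hy : y ∈ Qalg M N ξ) {κ K : ℝ} (_hκ : 0 ≤ κ) (_hK : 0 ≤ K)
    (h : LB N ξ y κ K) {γ : ℝ} (hγ : γ ∈ Gam N ξ) : LB N ξ (al M N ξ γ y) κ K := by
  have hzQ := S.al_mem hγ hy
  set z := al M N ξ γ y with hz
  obtain ⟨hγ0, v, hv, hv0⟩ := hγ
  have hγ : γ ∈ Gam N ξ := ⟨hγ0, v, hv, hv0⟩
  intro C C' hC
  have hCM : C ∈ M := S.le _ hC.1
  have hCM' : C' ∈ M := S.le _ hC.2.1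
  have hzM : z ∈ M := (mem_Qalg.1 hzQ).1
  have hrel : v * y = z * v := S.al_rel hγ hy v hv
  have hrel' : star v * z = y * star v :=
    Rel.adj S.irr hγ0.ne' ⟨v, hv, hv0⟩ hzQ (S.al_rel hγ hy) (eig_star hγ0.ne' hv)
  have hkey := S.avg_compress hγ0 hv hv0 (ι := Fin 3)
    (X := ![z * C - C * z, C, C' - C]) (s := ![-1, κ, K]) (by
      intro i
      fin_cases i
      · exact sub_mem (mul_mem hzM hCM) (mul_mem hCM hzM)
      · exact hCM
      · exact sub_mem hCM' hCM) (by
    intro w hw w' hw'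
    have pv : Partner N ξ v (((γ⁻¹ : ℝ) : ℂ) • v) := Partner.of_eig hγ0.ne' hv
    have pvs : Partner N ξ (star v) (((γ⁻¹⁻¹ : ℝ) : ℂ) • star v) :=
      Partner.of_eig (inv_ne_zero hγ0.ne') (eig_star hγ0.ne' hv)
    have hp := (((pvs.mul (Partner.of_cent hw.1)).mul hC).mul (Partner.of_cent hw'.1)).mul pv
    have hp' : Partner N ξ (star v * w * C * w' * v) (star v * w * C' * w' * v) := by
      have e : (((γ⁻¹⁻¹ : ℝ) : ℂ) • star v) * w * C' * w' * (((γ⁻¹ : ℝ) : ℂ) • v) =
          star v * w * C' * w' * v := by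
        simp only [smul_mul_assoc, mul_smul_comm, smul_smul, ← Complex.ofReal_mul]
        rw [mul_inv_cancel₀ (inv_ne_zero hγ0.ne')]
        simp
      rwa [e] at hp
    have h1 := h _ _ hp'
    have c1 : w * z = z * w := (mem_Qalg.1 hzQ).2 _ hw.1
    have c2 : w' * z = z * w' := (mem_Qalg.1 hzQ).2 _ hw'.1
    have e1 : star v * w * (z * C - C * z) * w' * v =
        y * (star v * w * C * w' * v) - (star v * w * C * w' * v) * y := by
      have e2 : star v * w * (z * C) * w' * v = y * (star v * w * C * w' * v) := by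
        calc star v * w * (z * C) * w' * v = star v * (w * z) * C * w' * v := by
              simp only [mul_assoc]
          _ = (star v * z) * w * C * w' * v := by rw [c1]; simp only [mul_assoc]
          _ = _ := by rw [hrel']; simp only [mul_assoc]
      have e3 : star v * w * (C * z) * w' * v = (star v * w * C * w' * v) * y := by
        calc star v * w * (C * z) * w' * v = star v * w * C * (z * w') * v := by
              simp only [mul_assoc]
          _ = star v * w * C * w' * (z * v) := by rw [← c2]; simp only [mul_assoc]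
          _ = _ := by rw [← hrel]; simp only [mul_assoc]
      rw [mul_sub, sub_mul, sub_mul, e2, e3]
    have e4 : star v * w * (C' - C) * w' * v =
        star v * w * C' * w' * v - star v * w * C * w' * v := by
      rw [mul_sub, sub_mul, sub_mul]
    simp only [Fin.sum_univ_three, Matrix.cons_val_zero, Matrix.cons_val_one,
      Matrix.cons_val_two, Matrix.head_cons, Matrix.tail_cons]
    rw [e1, e4]
    linarith)
  simp only [Fin.sum_univ_three, Matrix.cons_val_zero, Matrix.cons_val_one,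
    Matrix.cons_val_two, Matrix.head_cons, Matrix.tail_cons] at hkey
  linarith

end AP

end Pool.Agent.Helper23
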