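import Mathlib

set_option autoImplicit false

namespace Pool.Agent.Helper4.Pump

open FirstOrder FirstOrder.Language

/-! ### Gluing two structures along tuples -/

/-- The underlying set of the structure obtained from `A` and `B` by identifying `a j` with `b j`
for all `j`: the elements of `A` and the elements of `B` outside the tuple `b`. -/
def Glue {A B : Type} {m : ℕ} (_a : Fin m → A) (b : Fin m → B) : Type :=
  A ⊕ {y : B // y ∉ Set.range b}

/-- The element of the glued structure given by an element of `A`. -/
def inA {A B : Type} {m : ℕ} (a : Fin m → A) (b : Fin m → B) (x : A) : Glue a b := Sum.inl x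

open Classical in
/-- The element of the glued structure given by an element of `B`; for `y = b j` it is `a j`. -/
noncomputable def inB {A B : Type} {m : ℕ} (a : Fin m → A) (b : Fin m → B) (y : B) : Glue a b :=
  if h : ∃ j, b j = y then Sum.inl (a h.choose) else Sum.inr ⟨y, h⟩

/-- The relations of the glued structure are those of `A` and those of `B`. -/
noncomputable instance glueStructure {L : FirstOrder.Language.{0, 0}} [L.IsRelational]
    {A B : Type} [L.Structure A] [L.Structure B] {m : ℕ} (a : Fin m → A) (b : Fin m → B) :
    L.Structure (Glue a b) where
  funMap := fun f => isEmptyElim f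
  RelMap := fun R z => (∃ x : Fin _ → A, Structure.RelMap R x ∧ ∀ j, z j = inA a b (x j)) ∨
    ∃ y : Fin _ → B, Structure.RelMap R y ∧ ∀ j, z j = inB a b (y j)

/-! ### Segments -/

/-- A segment: a structure with a left interface and a right interface of `c` elements each. -/
structure Segment (L : FirstOrder.Language.{0, 0}) (c : ℕ) where
  /-- the underlying set -/
  carrier : Type
  /-- the relations -/
  str : L.Structure carrier
  /-- the left interface -/
  left : Fin c → carrier
  /-- the right interface -/
  right : Fin c → carrier

instance {L : FirstOrder.Language.{0, 0}} {c : ℕ} (S : Segment L c) : L.Structure S.carrier :=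
  S.str

/-- The segment `S T`: the right interface of `S` is identified with the left interface
of `T`. -/
noncomputable def Segment.comp {L : FirstOrder.Language.{0, 0}} [L.IsRelational] {c : ℕ}
    (S T : Segment L c) : Segment L c where
  carrier := Glue S.right T.left
  str := inferInstance
  left := fun j => inA S.right T.left (S.left j)
  right := fun j => inB S.right T.left (T.right j)

/-- The segment `S T T ... T` with `k` factors `T`. -/
noncomputable def Segment.mulPow {L : FirstOrder.Language.{0, 0}} [L.IsRelational] {c : ℕ}
    (S T : Segment L c) : ℕ → Segment L c
  | 0 => S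
  | k + 1 => (S.mulPow T k).comp T

/-- The two interfaces of a segment, as one tuple. -/
def Segment.ends {L : FirstOrder.Language.{0, 0}} {c : ℕ} (S : Segment L c) :
    Fin (c + c) → S.carrier :=
  Fin.append S.left S.right

/-- The structure obtained from `O` and `S` by identifying the left interfaces and the right
interfaces. -/
def Closed {L : FirstOrder.Language.{0, 0}} {c : ℕ} (O S : Segment L c) : Type :=
  Glue O.ends S.ends

noncomputable instance {L : FirstOrder.Language.{0, 0}} [L.IsRelational] {c : ℕ}
    (O S : Segment L c) : L.Structure (Closed O S) :=
  glueStructure O.ends S.ends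

/-- The segment `S` of the structure `Closed O S` may be repeated: each interface of `S` consists
of `c` different elements, an element may belong to both interfaces only at the same place, `S`
has more than `c` elements, the interfaces of `O` have the same equalities, and every `K > 0` has
a multiple `k > 0` such that the structure in which `S` is replaced by `k + 1` copies `S S ... S`
satisfies `φ`. -/
def Repeatable {L : FirstOrder.Language.{0, 0}} [L.IsRelational] {c : ℕ} (φ : L.Sentence)
    (O S : Segment L c) : Prop :=
  Function.Injective S.left ∧ Function.Injective S.right ∧
    (∀ i j, S.left i = S.right j → i = j) ∧ (∃ x, x ∉ Set.range S.left) ∧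
    (∀ i j, O.ends i = O.ends j ↔ S.ends i = S.ends j) ∧
    ∀ K : ℕ, 0 < K → ∃ k : ℕ, 0 < k ∧ K ∣ k ∧ φ.Realize (Closed O (S.mulPow S k))

/-- Every finite model of `φ` with more than `b` elements has a repeatable segment with
interfaces of at most `c` elements. -/
def HasRepeatableSegments {L : FirstOrder.Language.{0, 0}} [L.IsRelational] (φ : L.Sentence)
    (b c : ℕ) : Prop :=
  ∀ (M : Type) (_ : L.Structure M), Finite M → b < Nat.card M → φ.Realize M →
    ∃ c' : ℕ, c' ≤ c ∧ ∃ O S : Segment L c', Nonempty (M ≃[L] Closed O S) ∧ Repeatable φ O S

end Pool.Agent.Helper4.Pump
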