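import Mathlib
import Pool.Agent.Helper4.GlueTypes
import Pool.Agent.Helper4.PumpDefs

set_option autoImplicit false

namespace Pool.Agent.Helper4.Pump

open FirstOrder FirstOrder.Language Structure
open Pool.Agent.Helper4.Glue (T0 Ty atm ext tp at0 at0_tp nn xs mem_xs_tp nn_tp tp_succ_eq qd
  realize_iff ext_last ext_castSucc finite_Ty)

/-! ### Parts of a glued structure -/

section parts

variable {A B : Type} {m : ℕ} (a : Fin m → A) (b : Fin m → B)

/-- The element of `A`, if there is one. -/
def rA : Glue a b → Option A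
  | Sum.inl x => some x
  | Sum.inr _ => none

open Classical in
/-- The element of `B`, if there is one. -/
noncomputable def rB : Glue a b → Option B
  | Sum.inl x => if h : ∃ j, a j = x then some (b h.choose) else none
  | Sum.inr y => some y.1

variable {a b}

lemma rA_iff (z : Glue a b) (x : A) : rA a b z = some x ↔ z = inA a b x := by
  rcases z with z | z
  · exact ⟨fun h => congrArg Sum.inl (Option.some.inj h), fun h => congrArg some (Sum.inl.inj h)⟩
  · exact ⟨fun h => by simp [rA] at h, fun h => by simp [inA] at h⟩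

lemma inB_core (hp : ∀ i j, a i = a j ↔ b i = b j) (j : Fin m) :
    inB a b (b j) = inA a b (a j) := by
  have h : ∃ i, b i = b j := ⟨j, rfl⟩
  unfold inB
  rw [dif_pos h]
  exact congrArg Sum.inl ((hp _ _).2 h.choose_spec)

open Classical in
lemma rB_iff (hp : ∀ i j, a i = a j ↔ b i = b j) (z : Glue a b) (y : B) :
    rB a b z = some y ↔ z = inB a b y := by
  rcases z with x | y₀
  · by_cases h : ∃ j, a j = x
    · have e1 : rB a b (Sum.inl x) = some (b h.choose) := by
        show (if h : ∃ j, a j = x then some (b h.choose) else none) = _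
        rw [dif_pos h]
      rw [e1]
      constructor
      · intro h1
        rw [← Option.some.inj h1, inB_core hp, h.choose_spec]
        rfl
      · intro h1
        by_cases h2 : ∃ j, b j = y
        · obtain ⟨j, rfl⟩ := h2
          rw [inB_core hp] at h1
          have h3 : x = a j := Sum.inl.inj h1
          rw [(hp h.choose j).1 (h.choose_spec.trans h3)]
        · unfold inB at h1
          rw [dif_neg h2] at h1
          exact absurd h1 (by simp)
    · have e1 : rB a b (Sum.inl x) = none := by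
        show (if h : ∃ j, a j = x then some (b h.choose) else none) = _
        rw [dif_neg h]
      rw [e1]
      constructor
      · intro h1; exact absurd h1 (by simp)
      · intro h1
        by_cases h2 : ∃ j, b j = y
        · obtain ⟨j, rfl⟩ := h2
          rw [inB_core hp] at h1
          exact absurd ⟨j, (Sum.inl.inj h1).symm⟩ h
        · unfold inB at h1
          rw [dif_neg h2] at h1
          exact absurd h1 (by simp)
  · show some y₀.1 = some y ↔ _
    constructor
    · intro h1
      have h2 : y₀.1 = y := Option.some.inj h1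
      have h3 : ¬ ∃ j, b j = y := h2 ▸ y₀.2
      unfold inB
      rw [dif_neg h3]
      exact congrArg Sum.inr (Subtype.ext h2)
    · intro h1
      by_cases h2 : ∃ j, b j = y
      · unfold inB at h1
        rw [dif_pos h2] at h1
        exact absurd h1 (by simp)
      · unfold inB at h1
        rw [dif_neg h2] at h1
        exact congrArg some (congrArg Subtype.val (Sum.inr.inj h1))

lemma inB_injective (hp : ∀ i j, a i = a j ↔ b i = b j) : Function.Injective (inB a b) := by
  intro y y' h
  have h1 := (rB_iff hp (inB a b y) y).2 rfl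
  have h2 := (rB_iff hp (inB a b y) y').2 h
  exact Option.some.inj (h1.symm.trans h2)

lemma inA_injective : Function.Injective (inA a b) := fun _ _ h => Sum.inl.inj h

lemma exists_part (z : Glue a b) : (∃ x, rA a b z = some x) ∨ ∃ y, rB a b z = some y := by
  rcases z with x | y
  · exact Or.inl ⟨x, rfl⟩
  · exact Or.inr ⟨y.1, rfl⟩

/-- The part of a partial tuple in `A`. -/
def pA {n : ℕ} (w : Fin n → Option (Glue a b)) : Fin n → Option A := fun t => (w t).bind (rA a b)

/-- The part of a partial tuple in `B`. -/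
noncomputable def pB {n : ℕ} (w : Fin n → Option (Glue a b)) : Fin n → Option B :=
  fun t => (w t).bind (rB a b)

lemma pA_some {n : ℕ} {w : Fin n → Option (Glue a b)} {t : Fin n} {z : Glue a b}
    (h : w t = some z) : pA w t = rA a b z := by
  unfold pA; rw [h]; rfl

lemma pB_some {n : ℕ} {w : Fin n → Option (Glue a b)} {t : Fin n} {z : Glue a b}
    (h : w t = some z) : pB w t = rB a b z := by
  unfold pB; rw [h]; rfl

lemma pA_ext {n : ℕ} (w : Fin n → Option (Glue a b)) (z : Option (Glue a b)) :
    pA (ext w z) = ext (pA w) (z.bind (rA a b)) := by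
  funext t
  refine Fin.lastCases ?_ (fun t => ?_) t
  · simp [pA]
  · simp [pA]

lemma pB_ext {n : ℕ} (w : Fin n → Option (Glue a b)) (z : Option (Glue a b)) :
    pB (ext w z) = ext (pB w) (z.bind (rB a b)) := by
  funext t
  refine Fin.lastCases ?_ (fun t => ?_) t
  · simp [pB]
  · simp [pB]

variable {L : FirstOrder.Language.{0, 0}} [L.IsRelational] [L.Structure A] [L.Structure B]

lemma atm_fst (hp : ∀ i j, a i = a j ↔ b i = b j) {n : ℕ} (w : Fin n → Option (Glue a b))
    (q : Σ p : (Σ k, L.Relations k), (Fin p.1 → Fin n)) :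
    (atm w : T0 L n).1 q ↔ (atm (pA w) : T0 L n).1 q ∨ (atm (pB w) : T0 L n).1 q := by
  constructor
  · rintro ⟨z, hz, ⟨x, hR, hx⟩ | ⟨y, hR, hy⟩⟩
    · exact Or.inl ⟨x, fun j => (pA_some (hz j)).trans ((rA_iff _ _).2 (hx j)), hR⟩
    · exact Or.inr ⟨y, fun j => (pB_some (hz j)).trans ((rB_iff hp _ _).2 (hy j)), hR⟩
  · rintro (⟨x, hx, hR⟩ | ⟨y, hy, hR⟩)
    · have : ∀ j, ∃ z : Glue a b, w (q.2 j) = some z ∧ rA a b z = some (x j) := by
        intro j
        have := hx j
        simp only [pA, Option.bind_eq_some_iff] at this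
        exact this
      choose z hz using this
      exact ⟨z, fun j => (hz j).1, Or.inl ⟨x, hR, fun j => (rA_iff _ _).1 (hz j).2⟩⟩
    · have : ∀ j, ∃ z : Glue a b, w (q.2 j) = some z ∧ rB a b z = some (y j) := by
        intro j
        have := hy j
        simp only [pB, Option.bind_eq_some_iff] at this
        exact this
      choose z hz using this
      exact ⟨z, fun j => (hz j).1, Or.inr ⟨y, hR, fun j => (rB_iff hp _ _).1 (hz j).2⟩⟩

omit [L.IsRelational] in
lemma atm_snd (hp : ∀ i j, a i = a j ↔ b i = b j) {n : ℕ} (w : Fin n → Option (Glue a b))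
    [L.Structure (Glue a b)] (s t : Fin n) :
    (atm w : T0 L n).2 s t ↔ (atm (pA w) : T0 L n).2 s t ∨ (atm (pB w) : T0 L n).2 s t := by
  constructor
  · rintro ⟨z, hs, ht⟩
    rcases exists_part z with ⟨x, hx⟩ | ⟨y, hy⟩
    · exact Or.inl ⟨x, (pA_some hs).trans hx, (pA_some ht).trans hx⟩
    · exact Or.inr ⟨y, (pB_some hs).trans hy, (pB_some ht).trans hy⟩
  · rintro (⟨x, hs, ht⟩ | ⟨x, hs, ht⟩)
    · simp only [pA, Option.bind_eq_some_iff] at hs ht
      obtain ⟨z, hz1, hz2⟩ := hs
      obtain ⟨z', hz1', hz2'⟩ := ht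
      have : z = z' := ((rA_iff _ _).1 hz2).trans ((rA_iff _ _).1 hz2').symm
      subst this
      exact ⟨z, hz1, hz1'⟩
    · simp only [pB, Option.bind_eq_some_iff] at hs ht
      obtain ⟨z, hz1, hz2⟩ := hs
      obtain ⟨z', hz1', hz2'⟩ := ht
      have : z = z' := ((rB_iff hp _ _).1 hz2).trans ((rB_iff hp _ _).1 hz2').symm
      subst this
      exact ⟨z, hz1, hz1'⟩

end parts

/-! ### General facts on types -/

section general

variable {L : FirstOrder.Language.{0, 0}} {M N : Type} [L.Structure M] [L.Structure N]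

lemma atm_of_tp {r n : ℕ} {a : Fin n → Option M} {b : Fin n → Option N}
    (h : tp L r a = tp L r b) : (atm a : T0 L n) = atm b := by
  rw [← at0_tp r a, ← at0_tp r b, h]

lemma eq_of_tp {r n : ℕ} {a : Fin n → Option M} {b : Fin n → Option N}
    (h : tp L r a = tp L r b) {s t : Fin n} {x : M} {y y' : N} (hs : a s = some x)
    (ht : a t = some x) (hs' : b s = some y) (ht' : b t = some y') : y = y' := by
  have h1 := congrFun (congrFun (congrArg Prod.snd (atm_of_tp h)) s) t
  have h2 : (atm a : T0 L n).2 s t := ⟨x, hs, ht⟩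
  rw [h1] at h2
  obtain ⟨z, h3, h4⟩ := h2
  rw [hs'] at h3
  rw [ht'] at h4
  exact (Option.some.inj h3).trans (Option.some.inj h4).symm

lemma tp_repeat {r n : ℕ} {a : Fin n → Option M} {b : Fin n → Option N}
    (h : tp L (r + 1) a = tp L (r + 1) b) {t : Fin n} {x : M} {y : N} (hx : a t = some x)
    (hy : b t = some y) : tp L r (ext a (some x)) = tp L r (ext b (some y)) := by
  have h1 : tp L r (ext a (some x)) ∈ xs (tp L (r + 1) b) := by
    rw [← h]; exact (mem_xs_tp _ _ _).2 ⟨x, rfl⟩
  obtain ⟨y', hy'⟩ := (mem_xs_tp _ _ _).1 h1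
  have h2 : y' = y := eq_of_tp hy' (s := Fin.last n) (t := t.castSucc) (x := x) (by simp)
    (by simpa using hx) (by simp) (by simpa using hy)
  rw [hy', h2]

/-- Selecting some entries of a tuple, possibly with repetitions and undefined entries. -/
def sel {n n' : ℕ} {M : Type} (s : Fin n' → Option (Fin n)) (w : Fin n → Option M) :
    Fin n' → Option M :=
  fun t => (s t).bind w

lemma sel_ext {n n' : ℕ} (s : Fin n' → Option (Fin n)) (w : Fin n → Option M) (x : Option M) :
    ext (sel s w) x = sel (Fin.snoc (α := fun _ => Option (Fin (n + 1)))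
      (fun t => (s t).map Fin.castSucc) (some (Fin.last n))) (ext w x) := by
  funext t
  refine Fin.lastCases ?_ (fun t => ?_) t
  · simp [sel]
  · simp only [sel, ext_castSucc, Fin.snoc_castSucc]
    cases s t with
    | none => rfl
    | some i => simp

lemma tp_sel : ∀ (r : ℕ) {n n' : ℕ} (s : Fin n' → Option (Fin n)) (w : Fin n → Option M)
    (w' : Fin n → Option N), tp L r w = tp L r w' → tp L r (sel s w) = tp L r (sel s w') := by
  have hat : ∀ {n n' : ℕ} (s : Fin n' → Option (Fin n)) (w : Fin n → Option M)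
      (w' : Fin n → Option N), (atm w : T0 L n) = atm w' →
      (atm (sel s w) : T0 L n') = atm (sel s w') := by
    intro n n' s w w' h
    refine Prod.ext ?_ ?_
    · funext q
      rw [eq_iff_iff]
      have key : ∀ {K : Type} [L.Structure K] (v : Fin n → Option K),
          (atm (sel s v) : T0 L n').1 q ↔ ∃ i : Fin q.1.1 → Fin n, (∀ j, s (q.2 j) = some (i j)) ∧
            (atm v : T0 L n).1 ⟨q.1, i⟩ := by
        intro K _ v
        constructor
        · rintro ⟨y, hy, hR⟩
          have h1 : ∀ j, ∃ i, s (q.2 j) = some i ∧ v i = some (y j) := by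
            intro j
            have := hy j
            simp only [sel, Option.bind_eq_some_iff] at this
            exact this
          choose i hi using h1
          exact ⟨i, fun j => (hi j).1, y, fun j => (hi j).2, hR⟩
        · rintro ⟨i, hi, y, hy, hR⟩
          exact ⟨y, fun j => by simp [sel, hi j, hy j], hR⟩
      rw [key w, key w', h]
    · funext u v
      rw [eq_iff_iff]
      have key : ∀ {K : Type} [L.Structure K] (x : Fin n → Option K),
          (atm (sel s x) : T0 L n').2 u v ↔ ∃ i j, s u = some i ∧ s v = some j ∧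
            (atm x : T0 L n).2 i j := by
        intro K _ x
        constructor
        · rintro ⟨y, h1, h2⟩
          simp only [sel, Option.bind_eq_some_iff] at h1 h2
          obtain ⟨i, hi1, hi2⟩ := h1
          obtain ⟨j, hj1, hj2⟩ := h2
          exact ⟨i, j, hi1, hj1, y, hi2, hj2⟩
        · rintro ⟨i, j, hi, hj, y, h1, h2⟩
          exact ⟨y, by simp [sel, hi, h1], by simp [sel, hj, h2]⟩
      rw [key w, key w', h]
  intro r
  induction r with
  | zero => intro n n' s w w' h; exact hat s w w' h
  | succ r ih =>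
    intro n n' s w w' h
    refine tp_succ_eq r _ _ (hat s w w' (atm_of_tp h)) (fun η => ⟨?_, ?_⟩) ?_
    · rintro ⟨x, rfl⟩
      have h1 : tp L r (ext w (some x)) ∈ xs (tp L (r + 1) w') := by
        rw [← h]; exact (mem_xs_tp _ _ _).2 ⟨x, rfl⟩
      obtain ⟨y, hy⟩ := (mem_xs_tp _ _ _).1 h1
      refine ⟨y, ?_⟩
      rw [sel_ext, sel_ext]
      exact ih _ _ _ hy
    · rintro ⟨y, rfl⟩
      have h1 : tp L r (ext w' (some y)) ∈ xs (tp L (r + 1) w) := by
        rw [h]; exact (mem_xs_tp _ _ _).2 ⟨y, rfl⟩
      obtain ⟨x, hx⟩ := (mem_xs_tp _ _ _).1 h1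
      refine ⟨x, ?_⟩
      rw [sel_ext, sel_ext]
      exact (ih _ _ _ hx.symm).symm
    · rw [sel_ext, sel_ext]
      refine ih _ _ _ ?_
      rw [← nn_tp, ← nn_tp, h]

end general

/-! ### The composition theorem -/

section comp

variable {L : FirstOrder.Language.{0, 0}} [L.IsRelational] {A B A' B' : Type}
  [L.Structure A] [L.Structure B] [L.Structure A'] [L.Structure B'] {m : ℕ}
  {a : Fin m → A} {b : Fin m → B} {a' : Fin m → A'} {b' : Fin m → B'}

/-- The identified elements occur at the same places of both tuples. -/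
def CoreIn {n : ℕ} (w : Fin n → Option (Glue a b)) (w' : Fin n → Option (Glue a' b')) : Prop :=
  ∀ j : Fin m, ∃ t, w t = some (inA a b (a j)) ∧ w' t = some (inA a' b' (a' j))

omit [L.IsRelational] [L.Structure A] [L.Structure B] [L.Structure A'] [L.Structure B'] in
lemma CoreIn.ext {n : ℕ} {w : Fin n → Option (Glue a b)} {w' : Fin n → Option (Glue a' b')}
    (h : CoreIn w w') (x : Option (Glue a b)) (y : Option (Glue a' b')) :
    CoreIn (Glue.ext w x) (Glue.ext w' y) := by
  intro j
  obtain ⟨t, h1, h2⟩ := h j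
  exact ⟨t.castSucc, by simp [h1], by simp [h2]⟩

omit [L.IsRelational] [L.Structure A] [L.Structure B] in
open Classical in
lemma inA_eq_inB (hp : ∀ i j, a i = a j ↔ b i = b j) (x : A) (y : B) :
    inA a b x = inB a b y ↔ ∃ l, x = a l ∧ y = b l := by
  constructor
  · intro h
    by_cases h2 : ∃ j, b j = y
    · obtain ⟨j, rfl⟩ := h2
      rw [inB_core hp] at h
      exact ⟨j, Sum.inl.inj h, rfl⟩
    · unfold inB at h
      rw [dif_neg h2] at h
      exact absurd h (by simp [inA])
  · rintro ⟨l, rfl, rfl⟩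
    exact (inB_core hp l).symm

omit [L.IsRelational] [L.Structure A] [L.Structure B] in
lemma rA_inA (x : A) : rA a b (inA a b x) = some x := rfl

omit [L.IsRelational] [L.Structure A] [L.Structure B] in
lemma rB_inB (hp : ∀ i j, a i = a j ↔ b i = b j) (y : B) : rB a b (inB a b y) = some y :=
  (rB_iff hp _ _).2 rfl

omit [L.IsRelational] [L.Structure A] [L.Structure B] in
lemma rA_inB_none (hp : ∀ i j, a i = a j ↔ b i = b j) (y : B) (h : ∀ j, y ≠ b j) :
    rA a b (inB a b y) = none := by
  rw [Option.eq_none_iff_forall_ne_some]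
  intro x hx
  obtain ⟨l, _, h2⟩ := (inA_eq_inB hp x y).1 ((rA_iff _ _).1 hx).symm
  exact h l h2

omit [L.IsRelational] [L.Structure A] [L.Structure B] in
lemma rB_inA_none (hp : ∀ i j, a i = a j ↔ b i = b j) (x : A) (h : ∀ j, x ≠ a j) :
    rB a b (inA a b x) = none := by
  rw [Option.eq_none_iff_forall_ne_some]
  intro y hy
  obtain ⟨l, h1, _⟩ := (inA_eq_inB hp x y).1 ((rB_iff hp _ _).1 hy)
  exact h l h1

omit [L.IsRelational] [L.Structure A] [L.Structure B] in
lemma rB_core (hp : ∀ i j, a i = a j ↔ b i = b j) (j : Fin m) :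
    rB a b (inA a b (a j)) = some (b j) := by
  rw [← inB_core hp, rB_inB hp]

omit [L.IsRelational] in
lemma glue_step (hp : ∀ i j, a i = a j ↔ b i = b j) (hp' : ∀ i j, a' i = a' j ↔ b' i = b' j)
    {r n : ℕ} {w : Fin n → Option (Glue a b)} {w' : Fin n → Option (Glue a' b')}
    (hc : CoreIn w w') (hA : tp L (r + 1) (pA w) = tp L (r + 1) (pA w'))
    (hB : tp L (r + 1) (pB w) = tp L (r + 1) (pB w')) (z : Glue a b) :
    ∃ z' : Glue a' b', tp L r (pA (ext w (some z))) = tp L r (pA (ext w' (some z'))) ∧
      tp L r (pB (ext w (some z))) = tp L r (pB (ext w' (some z'))) := by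
  by_cases h0 : ∃ j, z = inA a b (a j)
  · obtain ⟨j, rfl⟩ := h0
    obtain ⟨t, ht, ht'⟩ := hc j
    refine ⟨inA a' b' (a' j), ?_, ?_⟩
    · rw [pA_ext, pA_ext]
      exact tp_repeat hA (t := t) (by rw [pA_some ht]; rfl) (by rw [pA_some ht']; rfl)
    · rw [pB_ext, pB_ext]
      show tp L r (ext (pB w) (rB a b (inA a b (a j)))) =
        tp L r (ext (pB w') (rB a' b' (inA a' b' (a' j))))
      rw [rB_core hp, rB_core hp']
      exact tp_repeat hB (t := t) (by rw [pB_some ht, rB_core hp])
        (by rw [pB_some ht', rB_core hp'])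
  · rcases z with x | y
    · have hx : ∀ j, x ≠ a j := fun j hj => h0 ⟨j, congrArg Sum.inl hj⟩
      have h1 : tp L r (ext (pA w) (some x)) ∈ xs (tp L (r + 1) (pA w')) := by
        rw [← hA]; exact (mem_xs_tp _ _ _).2 ⟨x, rfl⟩
      obtain ⟨x', hx'⟩ := (mem_xs_tp _ _ _).1 h1
      have hx2 : ∀ j, x' ≠ a' j := by
        rintro j rfl
        obtain ⟨t, ht, ht'⟩ := hc j
        refine hx j ?_
        refine eq_of_tp hx'.symm (s := Fin.last n) (t := t.castSucc) (x := a' j) (by simp)
          ?_ (by simp) ?_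
        · rw [ext_castSucc, pA_some ht']; rfl
        · rw [ext_castSucc, pA_some ht]; rfl
      refine ⟨inA a' b' x', ?_, ?_⟩
      · rw [pA_ext, pA_ext]
        exact hx'
      · rw [pB_ext, pB_ext]
        show tp L r (ext (pB w) (rB a b (inA a b x))) =
          tp L r (ext (pB w') (rB a' b' (inA a' b' x')))
        rw [rB_inA_none hp x hx, rB_inA_none hp' x' hx2, ← nn_tp, ← nn_tp, hB]
    · have hy : ∀ j, y.1 ≠ b j := fun j hj => y.2 ⟨j, hj.symm⟩
      have h1 : tp L r (ext (pB w) (some y.1)) ∈ xs (tp L (r + 1) (pB w')) := by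
        rw [← hB]; exact (mem_xs_tp _ _ _).2 ⟨y.1, rfl⟩
      obtain ⟨y', hy'⟩ := (mem_xs_tp _ _ _).1 h1
      have hy2 : ∀ j, y' ≠ b' j := by
        rintro j rfl
        obtain ⟨t, ht, ht'⟩ := hc j
        refine hy j ?_
        refine eq_of_tp hy'.symm (s := Fin.last n) (t := t.castSucc) (x := b' j) (by simp)
          ?_ (by simp) ?_
        · rw [ext_castSucc, pB_some ht', rB_core hp']
        · rw [ext_castSucc, pB_some ht, rB_core hp]
      refine ⟨inB a' b' y', ?_, ?_⟩
      · rw [pA_ext, pA_ext]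
        show tp L r (ext (pA w) none) = tp L r (ext (pA w') (rA a' b' (inB a' b' y')))
        rw [rA_inB_none hp' y' hy2, ← nn_tp, ← nn_tp, hA]
      · rw [pB_ext, pB_ext]
        show tp L r (ext (pB w) (some y.1)) = tp L r (ext (pB w') (rB a' b' (inB a' b' y')))
        rw [rB_inB hp']
        exact hy'

lemma glue_atm (hp : ∀ i j, a i = a j ↔ b i = b j) (hp' : ∀ i j, a' i = a' j ↔ b' i = b' j)
    {r n : ℕ} {w : Fin n → Option (Glue a b)} {w' : Fin n → Option (Glue a' b')}
    (hA : tp L r (pA w) = tp L r (pA w')) (hB : tp L r (pB w) = tp L r (pB w')) :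
    (atm w : T0 L n) = atm w' := by
  refine Prod.ext ?_ ?_
  · funext q
    rw [eq_iff_iff, atm_fst hp, atm_fst hp', atm_of_tp hA, atm_of_tp hB]
  · funext s t
    rw [eq_iff_iff, atm_snd hp, atm_snd hp', atm_of_tp hA, atm_of_tp hB]

/-- The rank `r` types of the two parts determine the rank `r` type of the glued structure. -/
theorem tp_glue (hp : ∀ i j, a i = a j ↔ b i = b j) (hp' : ∀ i j, a' i = a' j ↔ b' i = b' j) :
    ∀ (r : ℕ) {n : ℕ} {w : Fin n → Option (Glue a b)} {w' : Fin n → Option (Glue a' b')},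
      CoreIn w w' → tp L r (pA w) = tp L r (pA w') → tp L r (pB w) = tp L r (pB w') →
      tp L r w = tp L r w' := by
  intro r
  induction r with
  | zero =>
    intro n w w' _ hA hB
    exact glue_atm (r := 0) hp hp' hA hB
  | succ r ih =>
    intro n w w' hc hA hB
    have hc' : CoreIn w' w := fun j => by
      obtain ⟨t, h1, h2⟩ := hc j
      exact ⟨t, h2, h1⟩
    refine tp_succ_eq r _ _ (glue_atm hp hp' hA hB) (fun η => ⟨?_, ?_⟩) ?_
    · rintro ⟨z, rfl⟩
      obtain ⟨z', h1, h2⟩ := glue_step hp hp' hc hA hB z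
      exact ⟨z', ih (hc.ext _ _) h1 h2⟩
    · rintro ⟨z', rfl⟩
      obtain ⟨z, h1, h2⟩ := glue_step hp' hp hc' hA.symm hB.symm z'
      exact ⟨z, (ih (hc.ext _ _) h1.symm h2.symm).symm⟩
    · refine ih (hc.ext _ _) ?_ ?_
      · rw [pA_ext, pA_ext]
        show tp L r (ext (pA w) none) = tp L r (ext (pA w') none)
        rw [← nn_tp, ← nn_tp, hA]
      · rw [pB_ext, pB_ext]
        show tp L r (ext (pB w) none) = tp L r (ext (pB w') none)
        rw [← nn_tp, ← nn_tp, hB]

end comp

end Pool.Agent.Helper4.Pump
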