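import Mathlib
import Pool.Agent.Helper31.Spectra
import Pool.Agent.Helper4.GlueTypes
import Pool.Agent.Helper4.PumpDefs
import Pool.Agent.Helper4.PumpGlue

set_option autoImplicit false

namespace Pool.Agent.Helper4.Pump

open FirstOrder FirstOrder.Language Structure
open Pool.Agent.Helper4.Glue (T0 Ty atm ext tp at0 at0_tp nn xs mem_xs_tp nn_tp tp_succ_eq qd
  realize_iff ext_last ext_castSucc finite_Ty)
open Pool.Agent.Helper31.Spectra

attribute [-simp] Fin.natAdd_eq_addNat

variable {L : FirstOrder.Language.{0, 0}}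

/-- The rank `r` type of the interfaces of a segment. -/
def code (L : FirstOrder.Language.{0, 0}) (r : ℕ) {c : ℕ} (S : Segment L c) : Ty L r (c + c) :=
  tp L r (fun i => some (S.ends i))

/-- The interfaces are injective and meet exactly at the places in `P`. -/
structure Pass {c : ℕ} (S : Segment L c) (P : Fin c → Prop) : Prop where
  li : Function.Injective S.left
  ri : Function.Injective S.right
  lr : ∀ i j, S.left i = S.right j ↔ i = j ∧ P i

@[simp] lemma ends_castAdd {c : ℕ} (S : Segment L c) (i : Fin c) :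
    S.ends (Fin.castAdd c i) = S.left i := Fin.append_left _ _ _

@[simp] lemma ends_natAdd {c : ℕ} (S : Segment L c) (i : Fin c) :
    S.ends (Fin.natAdd c i) = S.right i := Fin.append_right _ _ _

lemma Pass.ends_iff {c : ℕ} {S T : Segment L c} {P : Fin c → Prop} (hS : Pass S P)
    (hT : Pass T P) (i j : Fin (c + c)) : S.ends i = S.ends j ↔ T.ends i = T.ends j := by
  have hl : ∀ i j, S.left i = S.left j ↔ T.left i = T.left j := fun i j =>
    hS.li.eq_iff.trans hT.li.eq_iff.symm
  have hr : ∀ i j, S.right i = S.right j ↔ T.right i = T.right j := fun i j =>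
    hS.ri.eq_iff.trans hT.ri.eq_iff.symm
  have hlr : ∀ i j, S.left i = S.right j ↔ T.left i = T.right j := fun i j =>
    (hS.lr i j).trans (hT.lr i j).symm
  refine Fin.addCases (fun i => ?_) (fun i => ?_) i <;>
    refine Fin.addCases (fun j => ?_) (fun j => ?_) j
  · simpa using hl i j
  · simpa using hlr i j
  · simpa [eq_comm] using hlr j i
  · simpa using hr i j

lemma ends_iff_of_code {r c : ℕ} {S T : Segment L c} (h : code L r S = code L r T)
    (i j : Fin (c + c)) : S.ends i = S.ends j ↔ T.ends i = T.ends j := by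
  constructor
  · intro h1
    exact eq_of_tp h (s := i) (t := j) (x := S.ends i) rfl (by rw [h1]) rfl rfl
  · intro h1
    exact eq_of_tp h.symm (s := i) (t := j) (x := T.ends i) rfl (by rw [h1]) rfl rfl

lemma Pass.of_code {r c : ℕ} {S T : Segment L c} {P : Fin c → Prop} (hS : Pass S P)
    (h : code L r S = code L r T) : Pass T P := by
  have key := ends_iff_of_code h
  refine ⟨fun i j hij => ?_, fun i j hij => ?_, fun i j => ?_⟩
  · have := (key (Fin.castAdd c i) (Fin.castAdd c j)).2 (by simpa using hij)
    exact hS.li (by simpa using this)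
  · have := (key (Fin.natAdd c i) (Fin.natAdd c j)).2 (by simpa using hij)
    exact hS.ri (by simpa using this)
  · have := key (Fin.castAdd c i) (Fin.natAdd c j)
    simp only [ends_castAdd, ends_natAdd] at this
    rw [← this]
    exact hS.lr i j

lemma Pass.hp {c : ℕ} {S T : Segment L c} {P : Fin c → Prop} (hS : Pass S P)
    (hT : Pass T P) (i j : Fin c) : S.right i = S.right j ↔ T.left i = T.left j :=
  hS.ri.eq_iff.trans hT.li.eq_iff.symm

variable [L.IsRelational]

lemma comp_left {c : ℕ} (S T : Segment L c) (j : Fin c) :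
    (S.comp T).left j = inA S.right T.left (S.left j) := rfl

lemma comp_right {c : ℕ} (S T : Segment L c) (j : Fin c) :
    (S.comp T).right j = inB S.right T.left (T.right j) := rfl

lemma Pass.comp {c : ℕ} {S T : Segment L c} {P : Fin c → Prop} (hS : Pass S P)
    (hT : Pass T P) : Pass (S.comp T) P := by
  refine ⟨fun i j hij => hS.li (inA_injective (a := S.right) (b := T.left) hij),
    fun i j hij => hT.ri (inB_injective (hS.hp hT) hij), fun i j => ?_⟩
  rw [comp_left, comp_right]
  refine (inA_eq_inB (hS.hp hT) _ _).trans ?_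
  constructor
  · rintro ⟨l, h1, h2⟩
    obtain ⟨rfl, h3⟩ := (hS.lr _ _).1 h1
    obtain ⟨h4, _⟩ := (hT.lr _ _).1 h2.symm
    exact ⟨h4, h3⟩
  · rintro ⟨rfl, h⟩
    exact ⟨i, (hS.lr _ _).2 ⟨rfl, h⟩, ((hT.lr _ _).2 ⟨rfl, h⟩).symm⟩

lemma Pass.mulPow {c : ℕ} {S T : Segment L c} {P : Fin c → Prop} (hS : Pass S P)
    (hT : Pass T P) : ∀ k, Pass (S.mulPow T k) P
  | 0 => hS
  | k + 1 => (Pass.mulPow hS hT k).comp hT

/-- The tuple listing the two outer interfaces and the common interface. -/
noncomputable def tup {c : ℕ} (S T : Segment L c) :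
    Fin (c + c + c) → Option (Glue S.right T.left) :=
  fun t => some (Fin.append (S.comp T).ends (fun j => inA S.right T.left (S.right j)) t)

open Classical in
/-- Places of the tuple in the first segment. -/
noncomputable def sA {c : ℕ} (P : Fin c → Prop) : Fin (c + c + c) → Option (Fin (c + c)) :=
  Fin.append (Fin.append (fun i => some (Fin.castAdd c i))
    (fun j => if P j then some (Fin.natAdd c j) else none)) (fun j => some (Fin.natAdd c j))

open Classical in
/-- Places of the tuple in the second segment. -/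
noncomputable def sB {c : ℕ} (P : Fin c → Prop) : Fin (c + c + c) → Option (Fin (c + c)) :=
  Fin.append (Fin.append (fun i => if P i then some (Fin.castAdd c i) else none)
    (fun j => some (Fin.natAdd c j))) (fun j => some (Fin.castAdd c j))

lemma pA_tup {c : ℕ} {S T : Segment L c} {P : Fin c → Prop} (hS : Pass S P)
    (hT : Pass T P) : pA (tup S T) = sel (sA P) (fun i => some (S.ends i)) := by
  funext t
  have e : ∀ z, tup S T t = some z → pA (tup S T) t = rA S.right T.left z :=
    fun z hz => pA_some hz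
  revert e
  refine Fin.addCases (fun t => ?_) (fun t => ?_) t
  · refine Fin.addCases (fun i => ?_) (fun j => ?_) t
    · intro e
      rw [e (inA _ _ (S.left i)) (by simp [tup, comp_left])]
      simp [sel, sA, rA_inA]
    · intro e
      rw [e (inB _ _ (T.right j)) (by simp [tup, comp_right])]
      by_cases h : P j
      · have h1 : T.right j = T.left j := ((hT.lr j j).2 ⟨rfl, h⟩).symm
        rw [h1, inB_core (hS.hp hT), rA_inA]
        simp [sel, sA, h]
      · rw [rA_inB_none (hS.hp hT) _ (fun l hl => h (by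
          obtain ⟨rfl, h2⟩ := (hT.lr _ _).1 hl.symm
          exact h2))]
        simp [sel, sA, h]
  · intro e
    rw [e (inA _ _ (S.right t)) (by simp [tup])]
    simp [sel, sA, rA_inA]

lemma pB_tup {c : ℕ} {S T : Segment L c} {P : Fin c → Prop} (hS : Pass S P)
    (hT : Pass T P) : pB (tup S T) = sel (sB P) (fun i => some (T.ends i)) := by
  funext t
  have e : ∀ z, tup S T t = some z → pB (tup S T) t = rB S.right T.left z :=
    fun z hz => pB_some hz
  revert e
  refine Fin.addCases (fun t => ?_) (fun t => ?_) t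
  · refine Fin.addCases (fun i => ?_) (fun j => ?_) t
    · intro e
      rw [e (inA _ _ (S.left i)) (by simp [tup, comp_left])]
      by_cases h : P i
      · have h1 : S.left i = S.right i := (hS.lr i i).2 ⟨rfl, h⟩
        rw [h1, rB_core (hS.hp hT)]
        simp [sel, sB, h]
      · rw [rB_inA_none (hS.hp hT) _ (fun l hl => h (by
          obtain ⟨rfl, h2⟩ := (hS.lr _ _).1 hl
          exact h2))]
        simp [sel, sB, h]
    · intro e
      rw [e (inB _ _ (T.right j)) (by simp [tup, comp_right]), rB_inB (hS.hp hT)]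
      simp [sel, sB]
  · intro e
    rw [e (inA _ _ (S.right t)) (by simp [tup]), rB_core (hS.hp hT)]
    simp [sel, sB]

lemma code_comp {r c : ℕ} {S T S' T' : Segment L c} {P : Fin c → Prop} (hS : Pass S P)
    (hT : Pass T P) (hS' : Pass S' P) (hT' : Pass T' P) (h1 : code L r S = code L r S')
    (h2 : code L r T = code L r T') : code L r (S.comp T) = code L r (S'.comp T') := by
  have h : tp L r (tup S T) = tp L r (tup S' T') := by
    refine tp_glue (hS.hp hT) (hS'.hp hT') r (fun j => ⟨Fin.natAdd (c + c) j, ?_, ?_⟩) ?_ ?_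
    · simp [tup]
    · simp [tup]
    · rw [pA_tup hS hT, pA_tup hS' hT']
      exact tp_sel r _ _ _ h1
    · rw [pB_tup hS hT, pB_tup hS' hT']
      exact tp_sel r _ _ _ h2
  have e : ∀ S T : Segment L c, (fun i => some ((S.comp T).ends i)) =
      sel (fun i => some (Fin.castAdd c i)) (tup S T) := by
    intro S T
    funext i
    simp [sel, tup]
    rfl
  unfold code
  rw [e, e]
  exact tp_sel r _ _ _ h

lemma code_mulPow {r c : ℕ} {S T S' T' : Segment L c} {P : Fin c → Prop} (hS : Pass S P)
    (hT : Pass T P) (hS' : Pass S' P) (hT' : Pass T' P) (h1 : code L r S = code L r S')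
    (h2 : code L r T = code L r T') :
    ∀ k, code L r (S.mulPow T k) = code L r (S'.mulPow T' k)
  | 0 => h1
  | k + 1 => code_comp (hS.mulPow hT k) hT (hS'.mulPow hT' k) hT'
      (code_mulPow hS hT hS' hT' h1 h2 k) h2

/-- The codes of powers recur. -/
lemma code_periodic (hfin : Finite (Σ k, L.Relations k)) {r c : ℕ} {S : Segment L c}
    {P : Fin c → Prop} (hS : Pass S P) {D : ℕ} (hD : Nat.card (Ty L r (c + c)) ≤ D) {k l : ℕ}
    (hk : 0 < k) (hl : 0 < l) (hDk : D.factorial ∣ k) (hDl : D.factorial ∣ l) :
    code L r (S.mulPow S k) = code L r (S.mulPow S l) := by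
  have := finite_Ty L hfin r (c + c)
  let _ : Fintype (Ty L r (c + c)) := Fintype.ofFinite _
  set f : ℕ → Ty L r (c + c) := fun k => code L r (S.mulPow S k) with hf
  have hstep : ∀ i j, f i = f j → f (i + 1) = f (j + 1) := fun i j h =>
    code_comp (hS.mulPow hS i) hS (hS.mulPow hS j) hS h rfl
  have hsteps : ∀ n i j, f i = f j → f (i + n) = f (j + n) := by
    intro n
    induction n with
    | zero => intro i j h; exact h
    | succ n ih => intro i j h; exact hstep _ _ (ih i j h)
  obtain ⟨i, j, hij, hfij⟩ : ∃ i j : Fin (D + 1), i < j ∧ f i = f j := by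
    have hcard : Fintype.card (Ty L r (c + c)) < Fintype.card (Fin (D + 1)) := by
      rw [Fintype.card_fin, ← Nat.card_eq_fintype_card]; omega
    obtain ⟨x, y, hxy, hfxy⟩ := Fintype.exists_ne_map_eq_of_card_lt
      (fun i : Fin (D + 1) => f i) hcard
    rcases lt_or_gt_of_ne hxy with h | h
    · exact ⟨x, y, h, hfxy⟩
    · exact ⟨y, x, h, hfxy.symm⟩
  have hij' : i.1 < j.1 := hij
  set d := j.1 - i.1 with hd
  have hd0 : 0 < d := by omega
  have hdD : d ≤ D := by omega
  have hper : ∀ n, i.1 ≤ n → f n = f (n + d) := by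
    intro n hn
    have := hsteps (n - i.1) i j hfij
    rw [show i.1 + (n - i.1) = n by omega, show j.1 + (n - i.1) = n + d by omega] at this
    exact this
  have hpers : ∀ m n, i.1 ≤ n → f n = f (n + m * d) := by
    intro m
    induction m with
    | zero => intro n _; simp
    | succ m ih =>
      intro n hn
      rw [ih n hn, hper (n + m * d) (by omega), Nat.succ_mul, add_assoc]
  have hdf : d ∣ D.factorial := Nat.dvd_factorial hd0 hdD
  have hDf : D ≤ D.factorial := Nat.self_le_factorial D
  have main : ∀ k l, 0 < k → D.factorial ∣ k → D.factorial ∣ l → k ≤ l → f k = f l := by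
    intro k l hk hDk hDl hkl
    obtain ⟨m, hm⟩ := (Nat.dvd_sub (hdf.trans hDl) (hdf.trans hDk))
    have hDk2 := Nat.le_of_dvd hk hDk
    rw [hpers m k (by omega)]
    congr 1
    rw [mul_comm] at hm
    omega
  rcases le_total k l with h | h
  · exact main k l hk hDk hDl h
  · exact (main l k hl hDl hDk h).symm

/-- The truth of `φ` depends only on the outer segment and the code of the inner one. -/
lemma realize_closed {c : ℕ} {O S S' : Segment L c} (φ : L.Sentence)
    (h : code L (qd φ) S = code L (qd φ) S')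
    (hO : ∀ i j, O.ends i = O.ends j ↔ S.ends i = S.ends j) :
    φ.Realize (Closed O S) ↔ φ.Realize (Closed O S') := by
  have hO' : ∀ i j, O.ends i = O.ends j ↔ S'.ends i = S'.ends j :=
    fun i j => (hO i j).trans (ends_iff_of_code h i j)
  set w : Fin (c + c) → Option (Glue O.ends S.ends) :=
    fun i => some (inA O.ends S.ends (O.ends i)) with hw
  set w' : Fin (c + c) → Option (Glue O.ends S'.ends) :=
    fun i => some (inA O.ends S'.ends (O.ends i)) with hw'
  have key : tp L (qd φ) w = tp L (qd φ) w' := by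
    refine tp_glue hO hO' (qd φ) (fun j => ⟨j, rfl, rfl⟩) ?_ ?_
    · have e1 : pA w = fun i => some (O.ends i) := by
        funext i; exact pA_some (z := inA _ _ (O.ends i)) rfl
      have e2 : pA w' = fun i => some (O.ends i) := by
        funext i; exact pA_some (z := inA _ _ (O.ends i)) rfl
      rw [e1, e2]
    · have e1 : pB w = fun i => some (S.ends i) := by
        funext i; exact (pB_some (z := inA _ _ (O.ends i)) rfl).trans (rB_core hO i)
      have e2 : pB w' = fun i => some (S'.ends i) := by
        funext i; exact (pB_some (z := inA _ _ (O.ends i)) rfl).trans (rB_core hO' i)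
      rw [e1, e2]
      exact h
  exact realize_iff φ (qd φ) le_rfl (s := Fin.elim0) w w' key default default
    (fun t => t.elim0) (fun t => t.elim0)

/-! ### Cardinalities -/

omit [L.IsRelational] in
lemma card_glue {A B : Type} [Finite A] [Finite B] {m : ℕ} (a : Fin m → A) (b : Fin m → B) :
    Nat.card (Glue a b) + (Set.range b).ncard = Nat.card A + Nat.card B := by
  have h1 : Nat.card (Glue a b) = Nat.card A + Nat.card {y : B // y ∉ Set.range b} :=
    Nat.card_sum
  have h2 : Nat.card {y : B // y ∉ Set.range b} = (Set.range b)ᶜ.ncard := rfl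
  have h3 := Set.ncard_add_ncard_compl (Set.range b)
  omega

lemma finite_glue {A B : Type} [Finite A] [Finite B] {m : ℕ} (a : Fin m → A) (b : Fin m → B) :
    Finite (Glue a b) :=
  inferInstanceAs (Finite (A ⊕ {y : B // y ∉ Set.range b}))

lemma ncard_range {B : Type} {m : ℕ} {b : Fin m → B} (h : Function.Injective b) :
    (Set.range b).ncard = m := by
  rw [← Set.image_univ, Set.ncard_image_of_injective _ h, Set.ncard_univ, Nat.card_eq_fintype_card,
    Fintype.card_fin]

lemma ncard_range_eq {B C : Type} {m : ℕ} {f : Fin m → B} {g : Fin m → C}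
    (h : ∀ i j, f i = f j ↔ g i = g j) : (Set.range f).ncard = (Set.range g).ncard := by
  have h1 : Setoid.ker f = Setoid.ker g := Setoid.ext (fun i j => h i j)
  have e1 : Nat.card (Quotient (Setoid.ker f)) = (Set.range f).ncard :=
    Nat.card_congr (Setoid.quotientKerEquivRange f)
  have e2 : Nat.card (Quotient (Setoid.ker g)) = (Set.range g).ncard :=
    Nat.card_congr (Setoid.quotientKerEquivRange g)
  rw [← e1, ← e2, h1]

lemma mulPow_finite {c : ℕ} {S T : Segment L c} (hS : Finite S.carrier) (hT : Finite T.carrier) :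
    ∀ k, Finite (S.mulPow T k).carrier
  | 0 => hS
  | k + 1 => by
    have := mulPow_finite hS hT k
    exact finite_glue (S.mulPow T k).right T.left

lemma card_mulPow {c : ℕ} {S T : Segment L c} (hS : Finite S.carrier) (hT : Finite T.carrier)
    (hTl : Function.Injective T.left) {u : ℕ} (hu : Nat.card T.carrier = c + u) :
    ∀ k, Nat.card (S.mulPow T k).carrier = Nat.card S.carrier + k * u
  | 0 => by simp [Segment.mulPow]
  | k + 1 => by
    have := mulPow_finite hS hT k
    have h1 := card_glue (S.mulPow T k).right T.left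
    have h2 : Nat.card (S.mulPow T (k + 1)).carrier =
      Nat.card (Glue (S.mulPow T k).right T.left) := rfl
    rw [ncard_range hTl, card_mulPow hS hT hTl hu k, hu] at h1
    rw [h2, Nat.succ_mul]
    omega

/-! ### The theorem -/

/-- The numbers `u > 0` such that some finite segment of code `τ` has `c + u` elements. -/
def extra (L : FirstOrder.Language.{0, 0}) (r c : ℕ) (τ : Ty L r (c + c)) : Set ℕ :=
  {u | 0 < u ∧ ∃ T : Segment L c, Finite T.carrier ∧ code L r T = τ ∧
    Nat.card T.carrier = c + u}

open Classical in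
/-- A fixed element of `extra`, or `1`. -/
noncomputable def u₀ (L : FirstOrder.Language.{0, 0}) (r c : ℕ) (τ : Ty L r (c + c)) : ℕ :=
  if h : (extra L r c τ).Nonempty then h.choose else 1

omit [L.IsRelational] in
lemma u₀_pos (r c : ℕ) (τ : Ty L r (c + c)) : 0 < u₀ L r c τ := by
  unfold u₀
  split_ifs with h
  · exact h.choose_spec.1
  · exact Nat.one_pos

omit [L.IsRelational] in
lemma u₀_mem {r c : ℕ} {τ : Ty L r (c + c)} (h : (extra L r c τ).Nonempty) :
    u₀ L r c τ ∈ extra L r c τ := by
  unfold u₀
  rw [dif_pos h]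
  exact h.choose_spec

theorem spec_step (hfin : Finite (Σ k, L.Relations k)) (φ : L.Sentence) (b c : ℕ)
    (h : HasRepeatableSegments φ b c) :
    ∃ p, 0 < p ∧ ∀ n ∈ Spec L φ, b < n → n + p ∈ Spec L φ := by
  classical
  set r := qd φ with hr
  have hT : ∀ c', Finite (Ty L r (c' + c')) := fun c' => finite_Ty L hfin r (c' + c')
  let _ : ∀ c', Fintype (Ty L r (c' + c')) := fun c' => Fintype.ofFinite _
  set D : ℕ := ∑ c' ∈ Finset.range (c + 1), Nat.card (Ty L r (c' + c')) with hD
  set p : ℕ := D.factorial * ∏ c' ∈ Finset.range (c + 1), ∏ τ : Ty L r (c' + c'), u₀ L r c' τ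
    with hp
  have hpos : ∀ c' ∈ Finset.range (c + 1), 0 < ∏ τ : Ty L r (c' + c'), u₀ L r c' τ :=
    fun c' _ => Finset.prod_pos (fun τ _ => u₀_pos r c' τ)
  have hp0 : 0 < p := Nat.mul_pos (Nat.factorial_pos D) (Finset.prod_pos hpos)
  refine ⟨p, hp0, ?_⟩
  rintro n ⟨hn0, M, sM, hMn, hM⟩ hcn
  have hfM : Finite M := Nat.finite_of_card_ne_zero (by omega)
  obtain ⟨c', hc', O, S, ⟨e⟩, hli, hri, hlr, ⟨x₀, hx₀⟩, hO, hk⟩ := h M sM hfM (by omega) hM
  have hMS : φ.Realize (Closed O S) := (StrongHomClass.realize_sentence e φ).1 hM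
  -- finiteness
  have hfG : Finite (Glue O.ends S.ends) := Finite.of_equiv M e.toEquiv
  have hfO : Finite O.carrier := Finite.of_injective _ (inA_injective (a := O.ends) (b := S.ends))
  have hfS : Finite S.carrier := Finite.of_injective _ (inB_injective hO)
  -- the pattern
  set P : Fin c' → Prop := fun i => S.left i = S.right i with hP
  have hSP : Pass S P := ⟨hli, hri, fun i j => ⟨fun h1 => by
    have h2 := hlr i j h1
    subst h2
    exact ⟨rfl, h1⟩, fun h1 => by
    obtain ⟨rfl, h2⟩ := h1
    exact h2⟩⟩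
  -- the size of the segment
  have hcS : ∃ u, 0 < u ∧ Nat.card S.carrier = c' + u := by
    have h1 := Set.ncard_add_ncard_compl (Set.range S.left)
    rw [ncard_range hli] at h1
    have h2 : 0 < (Set.range S.left)ᶜ.ncard := (Set.ncard_pos (Set.toFinite _)).2 ⟨x₀, hx₀⟩
    exact ⟨_, h2, h1.symm⟩
  obtain ⟨u, hu0, hu⟩ := hcS
  have hmem : u ∈ extra L r c' (code L r S) := ⟨hu0, S, hfS, rfl, hu⟩
  obtain ⟨hu1, T, hfT, hTc, hTu⟩ := u₀_mem ⟨_, hmem⟩
  have hTP : Pass T P := hSP.of_code hTc.symm
  -- the number of copies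
  have hdvd : D.factorial * u₀ L r c' (code L r S) ∣ p := by
    refine Nat.mul_dvd_mul_left _ (Dvd.dvd.trans ?_ (Finset.dvd_prod_of_mem _
      (Finset.mem_range.2 (show c' < c + 1 by omega))))
    exact Finset.dvd_prod_of_mem (fun τ : Ty L r (c' + c') => u₀ L r c' τ) (Finset.mem_univ _)
  obtain ⟨s, hs⟩ := hdvd
  have hs0 : 0 < s := by
    rcases Nat.eq_zero_or_pos s with h0 | h0
    · rw [h0, Nat.mul_zero] at hs; omega
    · exact h0
  set t := D.factorial * s with ht
  have htu : t * u₀ L r c' (code L r S) = p := by rw [hs, ht]; ring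
  have ht0 : 0 < t := Nat.mul_pos (Nat.factorial_pos D) hs0
  obtain ⟨k, hk0, hkD, hkφ⟩ := hk D.factorial (Nat.factorial_pos D)
  have hcard : Nat.card (Ty L r (c' + c')) ≤ D :=
    Finset.single_le_sum (f := fun c' => Nat.card (Ty L r (c' + c'))) (fun _ _ => Nat.zero_le _)
      (Finset.mem_range.2 (show c' < c + 1 by omega))
  have hcode : code L r (S.mulPow T t) = code L r (S.mulPow S k) :=
    (code_mulPow hSP hTP hSP hSP rfl hTc t).trans
      (code_periodic hfin hSP hcard ht0 hk0 (Dvd.intro s rfl) hkD)
  have hTt : Pass (S.mulPow T t) P := hSP.mulPow hTP t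
  have hSk : Pass (S.mulPow S k) P := hSP.mulPow hSP k
  have hreal : φ.Realize (Closed O (S.mulPow T t)) :=
    (realize_closed φ hcode (fun i j => (hO i j).trans (hSP.ends_iff hTt i j))).2 hkφ
  refine ⟨by omega, Closed O (S.mulPow T t), inferInstance, ?_, hreal⟩
  have := mulPow_finite hfS hfT t
  have c1 := card_glue O.ends S.ends
  have c2 := card_glue O.ends (S.mulPow T t).ends
  have c3 := card_mulPow hfS hfT hTP.li hTu t
  have c4 : (Set.range S.ends).ncard = (Set.range (S.mulPow T t).ends).ncard :=
    ncard_range_eq (hSP.ends_iff hTt)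
  have c5 : Nat.card (Glue O.ends S.ends) = n := by rw [← hMn]; exact Nat.card_congr e.toEquiv.symm
  have c6 : Nat.card (Closed O (S.mulPow T t)) =
    Nat.card (Glue O.ends (S.mulPow T t).ends) := rfl
  rw [htu] at c3
  omega

end Pool.Agent.Helper4.Pump
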