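import Mathlib

/-! Counting the proper colourings of a complete multipartite graph with few colours. -/

namespace Pool.Agent.Helper4.Rainbow

/-- Proper colourings of the complete multipartite graph with parts indexed by `ι`. -/
def Good {ι β γ : Type} (f : ι × β → γ) : Prop :=
  ∀ i j a b, i ≠ j → f (i, a) ≠ f (j, b)

theorem good_lower {ι β : Type} [Fintype ι] [Fintype β] [DecidableEq ι] (b0 : β) (N : ℕ)
    (hN : Fintype.card ι = N) : N.factorial ≤ {f : ι × β → Fin N | Good f}.ncard := by
  classical
  have e : ι ≃ Fin N := Fintype.equivFinOfCardEq hN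
  have h1 : Fintype.card (ι ≃ Fin N) = N.factorial := by
    rw [Fintype.card_equiv e, hN]
  let g : (ι ≃ Fin N) → (ι × β → Fin N) := fun σ x => σ x.1
  have hg : Function.Injective g := by
    intro σ τ h
    ext i
    have := congrFun h (i, b0)
    simp only [g] at this
    rw [this]
  have h2 : (Finset.univ.image g).card = N.factorial := by
    rw [Finset.card_image_of_injective _ hg, Finset.card_univ, h1]
  rw [← h2, ← Set.ncard_coe_finset]
  apply Set.ncard_le_ncard _ (Set.toFinite _)
  intro f hf
  simp only [Finset.coe_image, Finset.coe_univ, Set.image_univ, Set.mem_range] at hf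
  obtain ⟨σ, rfl⟩ := hf
  intro i j a b hij h
  exact hij (σ.injective h)

theorem good_upper {ι β : Type} [Fintype ι] [Fintype β] [DecidableEq ι] [DecidableEq β]
    [Nonempty ι] (b0 : β)
    (N : ℕ) (hN : Fintype.card ι = N) :
    {f : ι × β → Fin (N + 1) | Good f}.ncard ≤
      (N + 1).factorial * N * 2 ^ (Fintype.card β - 1) := by
  classical
  -- a fibre is mixed if it uses two colours
  let mixed : (ι × β → Fin (N + 1)) → ι → Prop := fun f i => ∃ b, f (i, b) ≠ f (i, b0)
  let base : (ι × β → Fin (N + 1)) → ι → Fin (N + 1) := fun f i => f (i, b0)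
  have hbase : ∀ f, Good f → Function.Injective (base f) := by
    intro f hf i j h
    by_contra hij
    exact hf i j b0 b0 hij h
  -- there is only one colour outside the range of the base colouring
  have hout : ∀ f, Good f → ∀ c c', c ∉ Set.range (base f) → c' ∉ Set.range (base f) → c = c' := by
    intro f hf c c' hc hc'
    by_contra hcc
    have h1 : (Finset.univ.image (base f)).card = N := by
      rw [Finset.card_image_of_injective _ (hbase f hf), Finset.card_univ, hN]
    have h2 : (insert c (insert c' (Finset.univ.image (base f)))).card = N + 2 := by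
      rw [Finset.card_insert_of_notMem, Finset.card_insert_of_notMem, h1]
      · intro h
        apply hc'
        simpa using h
      · intro h
        rw [Finset.mem_insert] at h
        rcases h with h | h
        · exact hcc h
        · apply hc
          simpa using h
    have h3 := Finset.card_le_univ (insert c (insert c' (Finset.univ.image (base f))))
    rw [h2, Fintype.card_fin] at h3
    omega
  have hnot : ∀ f, Good f → ∀ i b, f (i, b) ≠ f (i, b0) → f (i, b) ∉ Set.range (base f) := by
    rintro f hf i b h ⟨j, hj⟩
    by_cases hij : i = j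
    · subst hij
      exact h hj.symm
    · exact hf i j b b0 hij hj.symm
  let idx : (ι × β → Fin (N + 1)) → ι := fun f =>
    if h : ∃ i, mixed f i then h.choose else Classical.arbitrary ι
  have hidx : ∀ f, Good f → ∀ i, i ≠ idx f → ∀ b, f (i, b) = f (i, b0) := by
    intro f hf i hi b
    by_contra hb
    have hm : ∃ i, mixed f i := ⟨i, b, hb⟩
    have h1 : idx f = hm.choose := by simp only [idx]; rw [dif_pos hm]
    obtain ⟨b', hb'⟩ := hm.choose_spec
    rw [← h1] at hb'
    have h2 := hout f hf _ _ (hnot f hf i b hb) (hnot f hf _ b' hb')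
    exact hf i (idx f) b b' hi h2
  let Φ : {f : ι × β → Fin (N + 1) // Good f} → (ι ↪ Fin (N + 1)) × ι × ({b : β // b ≠ b0} → Bool) :=
    fun f => (⟨base f.1, hbase f.1 f.2⟩, idx f.1,
      fun b => decide (f.1 (idx f.1, b.1) = f.1 (idx f.1, b0)))
  have hΦ : Function.Injective Φ := by
    rintro ⟨f, hf⟩ ⟨g, hg⟩ h
    simp only [Φ, Prod.mk.injEq, Function.Embedding.mk.injEq] at h
    obtain ⟨h1, h2, h3⟩ := h
    apply Subtype.ext
    have hb : ∀ i, f (i, b0) = g (i, b0) := fun i => congrFun h1 i
    funext ⟨i, b⟩
    change f (i, b) = g (i, b)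
    by_cases hi : i = idx f
    · by_cases hbb : b = b0
      · rw [hbb]; exact hb i
      · have h4 := congrFun h3 ⟨b, hbb⟩
        simp only [decide_eq_decide] at h4
        rw [← h2, ← hi] at h4
        by_cases h5 : f (i, b) = f (i, b0)
        · rw [h5, h4.mp h5, hb]
        · have h6 : g (i, b) ≠ g (i, b0) := fun e => h5 (h4.mpr e)
          have h7 := hnot f hf i b h5
          have h8 := hnot g hg i b h6
          have h9 : base f = base g := h1
          rw [← h9] at h8
          exact hout f hf _ _ h7 h8
    · rw [hidx f hf i hi b, hidx g hg i (by rw [← h2]; exact hi) b, hb]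
  have hcard := Fintype.card_le_of_injective Φ hΦ
  have hA : Fintype.card (ι ↪ Fin (N + 1)) = (N + 1).factorial := by
    rw [Fintype.card_embedding_eq, Fintype.card_fin, hN]
    have := Nat.factorial_mul_descFactorial (n := N + 1) (k := N) (by omega)
    rw [show N + 1 - N = 1 by omega, Nat.factorial_one, one_mul] at this
    exact this
  have hB : Fintype.card ({b : β // b ≠ b0} → Bool) = 2 ^ (Fintype.card β - 1) := by
    rw [Fintype.card_fun, Fintype.card_bool]
    congr 1
    rw [Fintype.card_subtype_compl, Fintype.card_subtype_eq]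
  rw [Fintype.card_prod, Fintype.card_prod, hA, hB, hN] at hcard
  have hC : {f : ι × β → Fin (N + 1) | Good f}.ncard =
      Fintype.card {f : ι × β → Fin (N + 1) // Good f} := by
    rw [← Nat.card_eq_fintype_card]
    rfl
  rw [hC]
  calc _ ≤ _ := hcard
    _ = _ := by ring

end Pool.Agent.Helper4.Rainbow
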