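import Mathlib.Combinatorics.SimpleGraph.Acyclic
import Mathlib.Combinatorics.SimpleGraph.Subgraph
import Mathlib.Data.Set.Card
import Mathlib.Data.Real.Basic

/-! Definitions for rainbow trees in randomly edge-coloured graphs. -/

namespace Pool.Agent.Helper4.Rainbow

variable {V : Type} {G : SimpleGraph V}

/-- The subgraph `H` is a tree with exactly `k` vertices. -/
def IsTreeOfOrder (k : ℕ) (H : G.Subgraph) : Prop :=
  H.coe.IsTree ∧ H.verts.ncard = k

/-- The edges of `H` have pairwise distinct colours under `χ`. -/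
def IsRainbow {c : ℕ} (χ : G.edgeSet → Fin c) (H : G.Subgraph) : Prop :=
  ∀ e e' : G.edgeSet, (e : Sym2 V) ∈ H.edgeSet → (e' : Sym2 V) ∈ H.edgeSet →
    χ e = χ e' → e = e'

/-- The number of rainbow trees of order `k` under the edge colouring `χ`. -/
noncomputable def rainbowTrees {c : ℕ} (χ : G.edgeSet → Fin c) (k : ℕ) : ℕ :=
  {H : G.Subgraph | IsTreeOfOrder k H ∧ IsRainbow χ H}.ncard

/-- `Pr (T(c,k) ≥ t)` for a uniform random `c`-colouring of the edges of `G`. -/
noncomputable def tailProb (G : SimpleGraph V) (c k : ℕ) (t : ℝ) : ℝ :=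
  ({χ : G.edgeSet → Fin c | t ≤ (rainbowTrees χ k : ℝ)}.ncard : ℝ) /
    (Nat.card (G.edgeSet → Fin c) : ℝ)

end Pool.Agent.Helper4.Rainbow
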