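import Mathlib
import Pool.Agent.Helper4.RainbowDefs

/-! The incidence graph `y + b = x * m` over a field and its trees of order five. -/

namespace Pool.Agent.Helper4.Rainbow

open SimpleGraph

section Graph

variable (F : Type) [Field F]

/-- The bipartite graph on two copies of `F × F`; `(x, y)` is joined to `(m, b)` iff
`y + b = x * m`. -/
def planeGraph : SimpleGraph (Bool × F × F) where
  Adj u w := u.1 ≠ w.1 ∧ u.2.2 + w.2.2 = u.2.1 * w.2.1
  symm := ⟨by
    rintro u w ⟨h1, h2⟩
    exact ⟨h1.symm, by rw [add_comm, h2, mul_comm]⟩⟩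
  loopless := ⟨by
    rintro u ⟨h1, _⟩
    exact h1 rfl⟩

variable {F}

theorem adj_iff (u w : Bool × F × F) :
    (planeGraph F).Adj u w ↔ u.1 ≠ w.1 ∧ u.2.2 + w.2.2 = u.2.1 * w.2.1 := Iff.rfl

theorem nbr_unique {u w w' : Bool × F × F} (h : (planeGraph F).Adj u w)
    (h' : (planeGraph F).Adj u w') (hk : w.2.1 = w'.2.1) : w = w' := by
  rw [adj_iff] at h h'
  obtain ⟨s, a, b⟩ := u
  obtain ⟨s1, a1, b1⟩ := w
  obtain ⟨s2, a2, b2⟩ := w'
  simp only at h h' hk
  have hs : s1 = s2 := by
    rcases s with _ | _ <;> rcases s1 with _ | _ <;> rcases s2 with _ | _ <;> simp_all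
  subst hs hk
  have : b1 = b2 := by
    have := h.2.trans h'.2.symm
    exact add_left_cancel this
  rw [this]

theorem common {u u' : Bool × F × F} (hs : u.1 = u'.1) (hk : u.2.1 ≠ u'.2.1) :
    ∃ w, (planeGraph F).Adj u w ∧ (planeGraph F).Adj u' w := by
  obtain ⟨s, a, b⟩ := u
  obtain ⟨s', a', b'⟩ := u'
  simp only at hs hk
  subst hs
  have hne : a - a' ≠ 0 := sub_ne_zero.mpr hk
  refine ⟨(!s, (b - b') / (a - a'), a * ((b - b') / (a - a')) - b), ?_, ?_⟩
  · rw [adj_iff]
    refine ⟨by simp, ?_⟩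
    simp
  · rw [adj_iff]
    refine ⟨by simp, ?_⟩
    simp only
    field_simp
    ring

theorem common_unique {u u' w w' : Bool × F × F} (hne : u ≠ u')
    (h1 : (planeGraph F).Adj u w) (h2 : (planeGraph F).Adj u' w)
    (h3 : (planeGraph F).Adj u w') (h4 : (planeGraph F).Adj u' w') : w = w' := by
  have hk : u.2.1 ≠ u'.2.1 := fun h => hne (nbr_unique h1.symm h2.symm h)
  apply nbr_unique h1 h3
  rw [adj_iff] at h1 h2 h3 h4
  have e : (u.2.1 - u'.2.1) * (w.2.1 - w'.2.1) = 0 := by
    linear_combination -h1.2 + h2.2 + h3.2 - h4.2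
  rcases mul_eq_zero.mp e with h | h
  · exact absurd (sub_eq_zero.mp h) hk
  · exact sub_eq_zero.mp h

theorem side_eq {u w v : Bool × F × F} (h1 : (planeGraph F).Adj u w)
    (h2 : (planeGraph F).Adj w v) : u.1 = v.1 := by
  have a := h1.1
  have b := h2.1
  revert a b
  rcases u.1 with _ | _ <;> rcases w.1 with _ | _ <;> rcases v.1 with _ | _ <;> simp

/-- Every vertex has a neighbour different from a given one. -/
theorem exists_nbr (v w : Bool × F × F) : ∃ z, (planeGraph F).Adj w z ∧ z ≠ v := by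
  obtain ⟨s, a, b⟩ := w
  obtain ⟨k, hk⟩ : ∃ k : F, k ≠ v.2.1 := exists_ne _
  refine ⟨(!s, k, a * k - b), ?_, ?_⟩
  · rw [adj_iff]
    refine ⟨by simp, by simp⟩
  · intro h
    apply hk
    rw [← h]

end Graph

section Path

variable {V : Type} {G : SimpleGraph V}

theorem edgeSet_ncard_le {u v : V} (p : G.Walk u v) :
    Nat.card p.toSubgraph.coe.edgeSet ≤ p.length := by
  classical
  have h1 : Nat.card p.toSubgraph.coe.edgeSet = (p.toSubgraph.edgeSet).ncard := by
    rw [← Subgraph.image_coe_edgeSet_coe, Set.ncard_image_of_injective]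
    · rfl
    · exact Sym2.map.injective Subtype.val_injective
  rw [h1]
  have h2 : p.toSubgraph.edgeSet = (p.edges.toFinset : Set (Sym2 V)) := by
    ext e
    rw [Walk.mem_edges_toSubgraph]
    simp
  rw [h2, Set.ncard_coe_finset]
  calc p.edges.toFinset.card ≤ p.edges.length := List.toFinset_card_le _
    _ = p.length := Walk.length_edges p

/-- The subgraph of a path of length four is a tree of order five. -/
theorem isTreeOfOrder_path {u v : V} (p : G.Walk u v) (hp : p.IsPath) :
    IsTreeOfOrder (p.length + 1) p.toSubgraph := by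
  classical
  have hv : p.toSubgraph.verts.ncard = p.length + 1 := by
    have : p.toSubgraph.verts = (p.support.toFinset : Set V) := by
      ext w
      rw [Walk.mem_verts_toSubgraph]
      simp
    rw [this, Set.ncard_coe_finset, List.toFinset_card_of_nodup hp.support_nodup,
      Walk.length_support]
  refine ⟨?_, hv⟩
  have hfin : Finite p.toSubgraph.verts := by
    apply Set.finite_coe_iff.mpr
    apply Set.finite_of_ncard_ne_zero
    omega
  rw [isTree_iff_connected_and_card]
  have hc : p.toSubgraph.coe.Connected := p.toSubgraph_connected.coe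
  refine ⟨hc, ?_⟩
  have h1 := hc.card_vert_le_card_edgeSet_add_one
  have h2 := edgeSet_ncard_le p
  have h3 : Nat.card p.toSubgraph.verts = p.length + 1 := by
    rw [← hv]; rfl
  have h4 : Nat.card (p.toSubgraph.verts : Type) = Nat.card p.toSubgraph.verts := rfl
  omega

theorem path5 {a b c d e : V} (hab : G.Adj a b) (hbc : G.Adj b c) (hcd : G.Adj c d)
    (hde : G.Adj d e) (hac : a ≠ c) (had : a ≠ d) (hae : a ≠ e) (hbd : b ≠ d) (hbe : b ≠ e)
    (hce : c ≠ e) :
    ∃ H : G.Subgraph, IsTreeOfOrder 5 H ∧ s(a, b) ∈ H.edgeSet ∧ s(b, c) ∈ H.edgeSet ∧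
      s(c, d) ∈ H.edgeSet ∧ s(d, e) ∈ H.edgeSet := by
  let p : G.Walk a e := .cons hab (.cons hbc (.cons hcd (.cons hde .nil)))
  have hp : p.IsPath := by
    simp only [p, Walk.cons_isPath_iff, Walk.support_cons, Walk.support_nil, List.mem_cons,
      List.not_mem_nil, or_false, not_or]
    refine ⟨⟨⟨⟨?_, ?_⟩, ?_, ?_⟩, ?_, ?_, ?_⟩, ?_, ?_, ?_, ?_⟩
    all_goals first | exact Walk.IsPath.nil | (first | assumption | exact hab.ne | exact hbc.ne | exact hcd.ne | exact hde.ne)
  refine ⟨p.toSubgraph, isTreeOfOrder_path p hp, ?_, ?_, ?_, ?_⟩ <;>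
  · rw [Walk.mem_edges_toSubgraph]
    simp [p]

end Path

section Trees

variable {F : Type} [Field F]

/-- Some tree of order five contains both edges. -/
def InTree (e e' : Sym2 (Bool × F × F)) : Prop :=
  ∃ H : (planeGraph F).Subgraph, IsTreeOfOrder 5 H ∧ e ∈ H.edgeSet ∧ e' ∈ H.edgeSet

theorem chain5 {a b c d e : Bool × F × F} (hab : (planeGraph F).Adj a b)
    (hbc : (planeGraph F).Adj b c) (hcd : (planeGraph F).Adj c d)
    (hde : (planeGraph F).Adj d e) (hac : a ≠ c) (hbd : b ≠ d) (hce : c ≠ e) :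
    ∃ H : (planeGraph F).Subgraph, IsTreeOfOrder 5 H ∧ s(a, b) ∈ H.edgeSet ∧
      s(b, c) ∈ H.edgeSet ∧ s(c, d) ∈ H.edgeSet ∧ s(d, e) ∈ H.edgeSet := by
  refine path5 hab hbc hcd hde hac ?_ ?_ hbd ?_ hce
  · intro h
    have h1 := side_eq hab hbc
    exact hcd.1 (by rw [← h1, h])
  · intro h
    subst h
    exact hbd (common_unique hac hab hbc.symm hde.symm hcd)
  · intro h
    have h1 := side_eq hcd hde
    exact hbc.1 (by rw [h1, h])

theorem inTree_of_ne {u w u' w' : Bool × F × F} (h : (planeGraph F).Adj u w)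
    (h' : (planeGraph F).Adj u' w') (hs : u.1 = u'.1) (hk : u.2.1 ≠ u'.2.1) :
    InTree s(u, w) s(u', w') := by
  have hne : u ≠ u' := fun e => hk (by rw [e])
  obtain ⟨L, hL, hL'⟩ := common hs hk
  by_cases h1 : w = L
  · subst h1
    by_cases h2 : w = w'
    · subst h2
      obtain ⟨w'', h3, h4⟩ := exists_nbr w u'
      obtain ⟨z, h5, h6⟩ := exists_nbr u' w''
      obtain ⟨H, hH, e1, e2, -, -⟩ := chain5 h h'.symm h3 h5 hne h4.symm h6.symm
      exact ⟨H, hH, e1, by rw [Sym2.eq_swap]; exact e2⟩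
    · obtain ⟨z, h5, h6⟩ := exists_nbr u' w'
      obtain ⟨H, hH, e1, -, e3, -⟩ := chain5 h hL'.symm h' h5 hne h2 h6.symm
      exact ⟨H, hH, e1, e3⟩
  · by_cases h2 : w' = L
    · subst h2
      obtain ⟨z, h5, h6⟩ := exists_nbr u w
      obtain ⟨H, hH, -, e2, -, e4⟩ := chain5 h5.symm h.symm hL hL'.symm h6 h1 hne
      exact ⟨H, hH, by rw [Sym2.eq_swap]; exact e2, by rw [Sym2.eq_swap]; exact e4⟩
    · obtain ⟨H, hH, e1, -, -, e4⟩ := chain5 h.symm hL hL'.symm h' h1 hne (Ne.symm h2)
      exact ⟨H, hH, by rw [Sym2.eq_swap]; exact e1, e4⟩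

/-- A connected subgraph with five vertices does not contain two different edges with the same
first coordinates. -/
theorem not_inTree {u w u' w' : Bool × F × F} (h : (planeGraph F).Adj u w)
    (h' : (planeGraph F).Adj u' w') (hs : u.1 = u'.1) (hk : u.2.1 = u'.2.1)
    (hl : w.2.1 = w'.2.1) (hne : s(u, w) ≠ s(u', w')) : ¬ InTree s(u, w) s(u', w') := by
  classical
  rintro ⟨H, ⟨hT, hcard⟩, he, he'⟩
  have hc : H.coe.Connected := hT.connected
  rw [Subgraph.mem_edgeSet] at he he'
  have hs2 : w.1 = w'.1 := by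
    have a := h.1
    have b := h'.1
    rw [hs] at a
    revert a b
    rcases u'.1 with _ | _ <;> rcases w.1 with _ | _ <;> rcases w'.1 with _ | _ <;> simp
  -- u ≠ u', w ≠ w'
  have huu : u ≠ u' := by
    rintro rfl
    exact hne (by rw [nbr_unique h h' hl])
  have hww : w ≠ w' := by
    rintro rfl
    exact hne (by rw [nbr_unique h.symm h'.symm hk])
  have huw' : ¬ (planeGraph F).Adj u w' := fun e => huu (nbr_unique e.symm h'.symm hk)
  have hu'w : ¬ (planeGraph F).Adj u' w := fun e => huu (nbr_unique h.symm e.symm hk)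
  have huu' : ¬ (planeGraph F).Adj u u' := fun e => e.1 hs
  have hww' : ¬ (planeGraph F).Adj w w' := fun e => e.1 hs2
  have uw : u ≠ w := fun e => h.1 (by rw [e])
  have u'w' : u' ≠ w' := fun e => h'.1 (by rw [e])
  have uw' : u ≠ w' := fun e => h'.1 (by rw [← e, hs])
  have u'w : u' ≠ w := fun e => h'.1 (by rw [e, hs2])
  -- the remaining vertices
  have hrest : ∀ z z', z ∈ H.verts → z' ∈ H.verts → z ≠ u → z ≠ w → z ≠ u' → z ≠ w' →
      z' ≠ u → z' ≠ w → z' ≠ u' → z' ≠ w' → z = z' := by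
    intro z z' hz hz' a1 a2 a3 a4 b1 b2 b3 b4
    by_contra hzz
    have hfin : H.verts.Finite := Set.finite_of_ncard_ne_zero (by omega)
    have hsub : (({u, w, u', w', z, z'} : Finset (Bool × F × F)) : Set (Bool × F × F)) ⊆ H.verts := by
      intro x hx
      simp only [Finset.coe_insert, Finset.coe_singleton, Set.mem_insert_iff,
        Set.mem_singleton_iff] at hx
      rcases hx with rfl | rfl | rfl | rfl | rfl | rfl
      · exact he.fst_mem
      · exact he.snd_mem
      · exact he'.fst_mem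
      · exact he'.snd_mem
      · exact hz
      · exact hz'
    have h6 : ({u, w, u', w', z, z'} : Finset (Bool × F × F)).card = 6 := by
      rw [Finset.card_insert_of_notMem, Finset.card_insert_of_notMem,
        Finset.card_insert_of_notMem, Finset.card_insert_of_notMem,
        Finset.card_insert_of_notMem, Finset.card_singleton]
      all_goals simp only [Finset.mem_insert, Finset.mem_singleton, not_or]
      · exact hzz
      · exact ⟨a4.symm, b4.symm⟩
      · exact ⟨u'w', a3.symm, b3.symm⟩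
      · exact ⟨u'w.symm, hww, a2.symm, b2.symm⟩
      · exact ⟨uw, huu, uw', a1.symm, b1.symm⟩
    have := Set.ncard_le_ncard hsub hfin
    rw [Set.ncard_coe_finset, h6] at this
    omega
  -- boundary edges
  have boundary : ∀ (S : Set (Bool × F × F)) (x y : Bool × F × F), x ∈ H.verts → y ∈ H.verts →
      x ∈ S → y ∉ S → ∃ p q, H.Adj p q ∧ p ∈ S ∧ q ∉ S := by
    intro S x y hx hy hxS hyS
    obtain ⟨p⟩ := hc.preconnected ⟨x, hx⟩ ⟨y, hy⟩
    obtain ⟨d, -, h1, h2⟩ := p.exists_boundary_dart (Subtype.val ⁻¹' S) hxS hyS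
    exact ⟨d.fst, d.snd, d.adj, h1, h2⟩
  obtain ⟨p, q, hpq, hp, hq⟩ := boundary {u, w} u u' he.fst_mem he'.fst_mem (by simp)
    (by simp only [Set.mem_insert_iff, Set.mem_singleton_iff, not_or]; exact ⟨huu.symm, u'w⟩)
  obtain ⟨p', q', hpq', hp', hq'⟩ := boundary {u', w'} u' u he'.fst_mem he.fst_mem (by simp)
    (by simp only [Set.mem_insert_iff, Set.mem_singleton_iff, not_or]; exact ⟨huu, uw'⟩)
  simp only [Set.mem_insert_iff, Set.mem_singleton_iff, not_or] at hp hq hp' hq'
  have g := hpq.adj_sub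
  have g' := hpq'.adj_sub
  have q1 : q ≠ u' := by
    rintro rfl
    rcases hp with rfl | rfl
    · exact huu' g
    · exact hu'w g.symm
  have q2 : q ≠ w' := by
    rintro rfl
    rcases hp with rfl | rfl
    · exact huw' g
    · exact hww' g
  have q3 : q' ≠ u := by
    rintro rfl
    rcases hp' with rfl | rfl
    · exact huu' g'.symm
    · exact huw' g'.symm
  have q4 : q' ≠ w := by
    rintro rfl
    rcases hp' with rfl | rfl
    · exact hu'w g'
    · exact hww' g'.symm
  have hqq : q = q' := hrest q q' hpq.snd_mem hpq'.snd_mem hq.1 hq.2 q1 q2 q3 q4 hq'.1 hq'.2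
  subst hqq
  rcases hp with rfl | rfl
  · rcases hp' with rfl | rfl
    · exact huu (nbr_unique g.symm g'.symm hk)
    · exact h'.1 (by rw [← hs]; exact side_eq g g'.symm)
  · rcases hp' with rfl | rfl
    · exact h'.1 (by rw [← hs2]; exact (side_eq g g'.symm).symm)
    · exact hww (nbr_unique g.symm g'.symm hl)

end Trees

end Pool.Agent.Helper4.Rainbow
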