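import Mathlib
import Pool.Agent.Helper4.RainbowDefs
import Pool.Agent.Helper4.RainbowGraph
import Pool.Agent.Helper4.RainbowCount

namespace Pool.Agent.Helper4.Rainbow

open SimpleGraph

section

set_option linter.unusedSectionVars false

variable {F : Type} [Field F] [Fintype F] [DecidableEq F]

/-- The edge through `(x, y)` with second slope `m`. -/
def edgeMap (x : (F × F) × F) : (planeGraph F).edgeSet :=
  ⟨s((false, x.1.1, x.2), (true, x.1.2, x.1.1 * x.1.2 - x.2)), by
    rw [mem_edgeSet, adj_iff]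
    simp⟩

theorem edgeMap_injective : Function.Injective (edgeMap (F := F)) := by
  rintro ⟨⟨x, m⟩, y⟩ ⟨⟨x', m'⟩, y'⟩ h
  have h1 := congrArg Subtype.val h
  simp only [edgeMap, Sym2.eq_iff, Prod.mk.injEq, Bool.false_eq_true, Bool.true_eq_false,
    false_and, or_false, and_false, true_and] at h1
  obtain ⟨⟨h2, h3⟩, h4, -⟩ := h1
  rw [h2, h3, h4]

theorem edgeMap_surjective : Function.Surjective (edgeMap (F := F)) := by
  have key : ∀ u w : Bool × F × F, ∀ h : (planeGraph F).Adj u w, u.1 = false →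
      ∃ x, ((edgeMap x : (planeGraph F).edgeSet) : Sym2 (Bool × F × F)) = s(u, w) := by
    rintro ⟨s, x, y⟩ ⟨s', m, b⟩ h hs
    rw [adj_iff] at h
    simp only at h hs
    subst hs
    have hs' : s' = true := by
      rcases s' with _ | _
      · exact absurd rfl h.1
      · rfl
    subst hs'
    refine ⟨((x, m), y), ?_⟩
    have : b = x * m - y := by
      rw [← h.2]; ring
    rw [this]
    rfl
  rintro ⟨e, he⟩
  induction e using Sym2.ind with
  | _ u w =>
    have hadj : (planeGraph F).Adj u w := he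
    rcases hu : u.1 with _ | _
    · obtain ⟨x, hx⟩ := key u w hadj hu
      exact ⟨x, Subtype.ext hx⟩
    · have hw : w.1 = false := by
        have := hadj.1
        rw [hu] at this
        revert this
        rcases w.1 with _ | _ <;> simp
      obtain ⟨x, hx⟩ := key w u hadj.symm hw
      exact ⟨x, Subtype.ext (by rw [hx, Sym2.eq_swap])⟩

/-- The edges of the graph. -/
noncomputable def edgeEquiv : (F × F) × F ≃ (planeGraph F).edgeSet :=
  Equiv.ofBijective edgeMap ⟨edgeMap_injective, edgeMap_surjective⟩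

theorem inTree_edgeMap {i j : F × F} (a b : F) (h : i ≠ j) :
    InTree ((edgeMap (i, a) : (planeGraph F).edgeSet) : Sym2 (Bool × F × F))
      ((edgeMap (j, b) : (planeGraph F).edgeSet) : Sym2 (Bool × F × F)) := by
  have h1 : (planeGraph F).Adj (false, i.1, a) (true, i.2, i.1 * i.2 - a) := (edgeMap (i, a)).2
  have h2 : (planeGraph F).Adj (false, j.1, b) (true, j.2, j.1 * j.2 - b) := (edgeMap (j, b)).2
  by_cases h3 : i.1 = j.1
  · have h4 : i.2 ≠ j.2 := fun h4 => h (Prod.ext h3 h4)
    have := inTree_of_ne h1.symm h2.symm rfl h4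
    rw [Sym2.eq_swap (a := ((true, i.2, i.1 * i.2 - a) : Bool × F × F)),
      Sym2.eq_swap (a := ((true, j.2, j.1 * j.2 - b) : Bool × F × F))] at this
    exact this
  · exact inTree_of_ne h1 h2 rfl h3

theorem not_inTree_edgeMap (i : F × F) {a b : F} (h : a ≠ b) :
    ¬ InTree ((edgeMap (i, a) : (planeGraph F).edgeSet) : Sym2 (Bool × F × F))
      ((edgeMap (i, b) : (planeGraph F).edgeSet) : Sym2 (Bool × F × F)) := by
  have h1 : (planeGraph F).Adj (false, i.1, a) (true, i.2, i.1 * i.2 - a) := (edgeMap (i, a)).2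
  have h2 : (planeGraph F).Adj (false, i.1, b) (true, i.2, i.1 * i.2 - b) := (edgeMap (i, b)).2
  refine not_inTree h1 h2 rfl rfl rfl ?_
  intro e
  have := edgeMap_injective (Subtype.ext e : edgeMap (i, a) = edgeMap (i, b))
  exact h (congrArg Prod.snd this)

/-- The number of trees of order five. -/
noncomputable def allTrees (F : Type) [Field F] : ℕ :=
  {H : (planeGraph F).Subgraph | IsTreeOfOrder 5 H}.ncard

theorem le_rainbowTrees_iff {c : ℕ} (χ : (planeGraph F).edgeSet → Fin c) :
    ((allTrees F : ℕ) : ℝ) ≤ (rainbowTrees χ 5 : ℝ) ↔ Good (fun x => χ (edgeMap x)) := by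
  rw [Nat.cast_le]
  constructor
  · intro h i j a b hij hχ
    have hsub : {H : (planeGraph F).Subgraph | IsTreeOfOrder 5 H ∧ IsRainbow χ H} ⊆
        {H : (planeGraph F).Subgraph | IsTreeOfOrder 5 H} := fun H hH => hH.1
    have heq := Set.eq_of_subset_of_ncard_le hsub h (Set.toFinite _)
    obtain ⟨H, hH, h1, h2⟩ := inTree_edgeMap a b hij
    have h3 : H ∈ {H : (planeGraph F).Subgraph | IsTreeOfOrder 5 H} := hH
    rw [← heq] at h3
    have h4 := h3.2 _ _ h1 h2 hχ
    have := edgeMap_injective h4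
    exact hij (congrArg Prod.fst this)
  · intro h
    apply Set.ncard_le_ncard _ (Set.toFinite _)
    intro H hH
    refine ⟨hH, ?_⟩
    intro e e' he he' hχ
    obtain ⟨⟨i, a⟩, rfl⟩ := edgeMap_surjective e
    obtain ⟨⟨j, b⟩, rfl⟩ := edgeMap_surjective e'
    by_cases hij : i = j
    · subst hij
      by_cases hab : a = b
      · rw [hab]
      · exact absurd ⟨H, hH, he, he'⟩ (not_inTree_edgeMap i hab)
    · exact absurd hχ (h i j a b hij)

theorem tailProb_eq (c : ℕ) :
    tailProb (planeGraph F) c 5 (allTrees F : ℝ) =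
      ({f : (F × F) × F → Fin c | Good f}.ncard : ℝ) / ((c : ℝ) ^ (Fintype.card F ^ 3)) := by
  have h1 : {χ : (planeGraph F).edgeSet → Fin c |
      (allTrees F : ℝ) ≤ (rainbowTrees χ 5 : ℝ)}.ncard =
      {f : (F × F) × F → Fin c | Good f}.ncard := by
    have e : ((planeGraph F).edgeSet → Fin c) ≃ ((F × F) × F → Fin c) :=
      Equiv.arrowCongr edgeEquiv.symm (Equiv.refl _)
    let Φ : ((planeGraph F).edgeSet → Fin c) → ((F × F) × F → Fin c) := fun χ x => χ (edgeMap x)
    have hΦ : Function.Injective Φ := by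
      intro χ χ' h
      funext e
      obtain ⟨x, rfl⟩ := edgeMap_surjective e
      exact congrFun h x
    have hΦ' : Function.Surjective Φ := by
      intro f
      refine ⟨fun e => f (edgeEquiv.symm e), ?_⟩
      funext x
      change f (edgeEquiv.symm (edgeMap x)) = f x
      congr 1
      exact edgeEquiv.symm_apply_apply x
    rw [← Set.ncard_image_of_injective _ hΦ]
    congr 1
    ext f
    constructor
    · rintro ⟨χ, hχ, rfl⟩
      exact (le_rainbowTrees_iff χ).mp hχ
    · intro hf
      obtain ⟨χ, rfl⟩ := hΦ' f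
      exact ⟨χ, (le_rainbowTrees_iff χ).mpr hf, rfl⟩
  have h2 : Nat.card ((planeGraph F).edgeSet → Fin c) = c ^ (Fintype.card F ^ 3) := by
    rw [Nat.card_congr (Equiv.arrowCongr (edgeEquiv (F := F)).symm (Equiv.refl (Fin c))),
      Nat.card_eq_fintype_card, Fintype.card_fun, Fintype.card_fin, Fintype.card_prod,
      Fintype.card_prod]
    congr 1
    ring
  rw [tailProb, h1, h2, Nat.cast_pow]

theorem tailProb_lt (N q : ℕ) (hN : Fintype.card F ^ 2 = N) (hq : Fintype.card F ^ 3 = q)
    (h0 : 0 < N)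
    (h : (N + 1) * N * 2 ^ (Fintype.card F - 1) * N ^ q < (N + 1) ^ q) :
    tailProb (planeGraph F) (N + 1) 5 (allTrees F : ℝ) <
      tailProb (planeGraph F) N 5 (allTrees F : ℝ) := by
  rw [tailProb_eq, tailProb_eq, hq]
  have hcard : Fintype.card (F × F) = N := by
    rw [Fintype.card_prod, ← hN, sq]
  have hlow := good_lower (β := F) (0 : F) N hcard
  have hup := good_upper (β := F) (0 : F) N hcard
  have hNpos : (0 : ℝ) < (N : ℝ) ^ q := by positivity
  have hN1pos : (0 : ℝ) < ((N + 1 : ℕ) : ℝ) ^ q := by positivity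
  rw [div_lt_div_iff₀ hN1pos hNpos]
  have hlow' : ((N.factorial : ℕ) : ℝ) ≤ ({f : (F × F) × F → Fin N | Good f}.ncard : ℝ) := by
    exact_mod_cast hlow
  have hup' : ({f : (F × F) × F → Fin (N + 1) | Good f}.ncard : ℝ) ≤
      (((N + 1).factorial * N * 2 ^ (Fintype.card F - 1) : ℕ) : ℝ) := by
    exact_mod_cast hup
  calc ({f : (F × F) × F → Fin (N + 1) | Good f}.ncard : ℝ) * (N : ℝ) ^ q
      ≤ (((N + 1).factorial * N * 2 ^ (Fintype.card F - 1) : ℕ) : ℝ) * (N : ℝ) ^ q := by
        gcongr
    _ = (N.factorial : ℝ) * (((N + 1) * N * 2 ^ (Fintype.card F - 1) * N ^ q : ℕ) : ℝ) := by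
        rw [Nat.factorial_succ]
        push_cast
        ring
    _ < (N.factorial : ℝ) * (((N + 1) ^ q : ℕ) : ℝ) := by
        apply mul_lt_mul_of_pos_left
        · exact_mod_cast h
        · exact_mod_cast Nat.factorial_pos N
    _ ≤ ({f : (F × F) × F → Fin N | Good f}.ncard : ℝ) * ((N + 1 : ℕ) : ℝ) ^ q := by
        rw [Nat.cast_pow]
        gcongr

end

end Pool.Agent.Helper4.Rainbow
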