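import Mathlib
import Pool.Agent.Helper39.Rot.Defs

set_option autoImplicit false

namespace Pool.Agent.Helper39.Rot

open Complex

/-- The exponent. -/
noncomputable def ex (q : ℕ) (φ : ℝ) (z : ℂ) : ℂ := 2 * Real.pi * (q * z - φ) * Complex.I

lemma ex_re (q : ℕ) (φ : ℝ) (z : ℂ) : (ex q φ z).re = -(2 * Real.pi * q * z.im) := by
  unfold ex
  simp only [mul_re, mul_im, I_re, I_im, sub_re, sub_im, ofReal_re, ofReal_im, natCast_re,
    natCast_im, re_ofNat, im_ofNat]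
  ring

lemma hasDerivAt_ex (q : ℕ) (φ : ℝ) (z : ℂ) :
    HasDerivAt (ex q φ) (2 * Real.pi * q * Complex.I) z := by
  unfold ex
  have h := (((hasDerivAt_id z).const_mul (q : ℂ)).sub_const (φ : ℂ)).const_mul
    (2 * (Real.pi : ℂ)) |>.mul_const Complex.I
  exact HasDerivAt.congr_deriv h (by ring)

lemma norm_w (q : ℕ) (r φ : ℝ) (k : ℕ) (hr0 : 0 ≤ r)
    (hr : r * Real.exp (4 * Real.pi * q) ≤ (1 / 2 : ℝ) ^ (k + 5)) (z : ℂ) (hz : |z.im| < 2) :
    ‖(r : ℂ) * exp (ex q φ z)‖ ≤ (1 / 2 : ℝ) ^ (k + 5) ∧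
      ‖(r : ℂ) * exp (-ex q φ z)‖ ≤ (1 / 2 : ℝ) ^ (k + 5) := by
  have hp := Real.pi_pos
  have hq0 : (0 : ℝ) ≤ q := Nat.cast_nonneg q
  obtain ⟨h1, h2⟩ := abs_lt.1 hz
  have key : ∀ s : ℝ, s ≤ 4 * Real.pi * q → r * Real.exp s ≤ (1 / 2 : ℝ) ^ (k + 5) := fun s hs =>
    le_trans (mul_le_mul_of_nonneg_left (Real.exp_le_exp.2 hs) hr0) hr
  constructor
  · rw [norm_mul, norm_real, Real.norm_of_nonneg hr0, norm_exp, ex_re]
    apply key
    nlinarith [mul_nonneg hp.le hq0]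
  · rw [norm_mul, norm_real, Real.norm_of_nonneg hr0, norm_exp, neg_re, ex_re]
    apply key
    nlinarith [mul_nonneg hp.le hq0]

lemma pow_small (k : ℕ) : (1 / 2 : ℝ) ^ (k + 5) ≤ 1 / 32 := by
  have : (1 / 2 : ℝ) ^ k ≤ 1 := pow_le_one₀ (by norm_num) (by norm_num)
  rw [pow_add]
  norm_num at this ⊢
  linarith

lemma slit_of_norm {w : ℂ} (hw : ‖w‖ ≤ 1 / 32) : 1 + w ∈ slitPlane :=
  mem_slitPlane_of_norm_lt_one (by linarith)

lemma norm_div_le {w : ℂ} (hw : ‖w‖ ≤ 1 / 32) : ‖w / (1 + w)‖ ≤ 2 * ‖w‖ := by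
  have h1 : 1 / 2 ≤ ‖1 + w‖ := by
    have h2 : ‖(1 : ℂ)‖ ≤ ‖1 + w‖ + ‖w‖ := by
      calc ‖(1 : ℂ)‖ = ‖(1 + w) - w‖ := by ring_nf
        _ ≤ ‖1 + w‖ + ‖w‖ := norm_sub_le _ _
    rw [norm_one] at h2
    linarith
  rw [norm_div, div_le_iff₀ (by linarith)]
  nlinarith [norm_nonneg w]

lemma Yhat_eq (q : ℕ) (r φ : ℝ) (z : ℂ) : Yhat q r φ z = z + (Complex.I / (2 * Real.pi * q)) *
    (Complex.log (1 + r * Complex.exp (ex q φ z)) -
     Complex.log (1 + r * Complex.exp (-ex q φ z))) := rfl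

lemma hasDerivAt_Yhat (q : ℕ) (hq : 0 < q) (r φ : ℝ) (z : ℂ)
    (h1 : 1 + r * exp (ex q φ z) ∈ slitPlane) (h2 : 1 + r * exp (-ex q φ z) ∈ slitPlane) :
    HasDerivAt (Yhat q r φ) (1 - (r * exp (ex q φ z) / (1 + r * exp (ex q φ z)) +
      r * exp (-ex q φ z) / (1 + r * exp (-ex q φ z)))) z := by
  have he := hasDerivAt_ex q φ z
  have d1 := ((he.cexp.const_mul (r : ℂ)).const_add 1).clog h1
  have d2 := ((he.neg.cexp.const_mul (r : ℂ)).const_add 1).clog h2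
  have d3 := (hasDerivAt_id z).add ((d1.sub d2).const_mul (Complex.I / (2 * Real.pi * q)))
  have hpi : (Real.pi : ℂ) ≠ 0 := ofReal_ne_zero.2 Real.pi_ne_zero
  have hq' : (q : ℂ) ≠ 0 := Nat.cast_ne_zero.2 hq.ne'
  have n1 := slitPlane_ne_zero h1
  have n2 := slitPlane_ne_zero h2
  refine HasDerivAt.congr_deriv (f := Yhat q r φ) d3 ?_
  have n2' : 1 + (r : ℂ) * exp ((-ex q φ) z) ≠ 0 := n2
  have e2 : (-ex q φ) z = -ex q φ z := rfl
  rw [e2]
  field_simp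
  ring_nf
  rw [I_sq]
  ring

theorem Yhat_spec (q : ℕ) (hq : 0 < q) (r φ : ℝ) (k : ℕ) (hr0 : 0 ≤ r)
    (hr : r * Real.exp (4 * Real.pi * q) ≤ (1 / 2 : ℝ) ^ (k + 5)) :
    DifferentiableOn ℂ (Yhat q r φ) {z | |z.im| < 2} ∧
    (∀ z : ℂ, |z.im| < 2 → ‖Yhat q r φ z - z‖ ≤ (1 / 2 : ℝ) ^ (k + 3)) ∧
    (∀ z : ℂ, |z.im| < 2 → ‖deriv (Yhat q r φ) z - 1‖ ≤ (1 / 2 : ℝ) ^ (k + 3)) ∧
    (∀ x : ℝ, Yhat q r φ x = ((x + (X r (q * x - φ) - (q * x - φ)) / q : ℝ) : ℂ)) := by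
  have hk := pow_small k
  have hw := norm_w q r φ k hr0 hr
  have hs1 : ∀ z : ℂ, |z.im| < 2 → 1 + (r : ℂ) * exp (ex q φ z) ∈ slitPlane := fun z hz =>
    slit_of_norm ((hw z hz).1.trans hk)
  have hs2 : ∀ z : ℂ, |z.im| < 2 → 1 + (r : ℂ) * exp (-ex q φ z) ∈ slitPlane := fun z hz =>
    slit_of_norm ((hw z hz).2.trans hk)
  have hd := fun z hz => hasDerivAt_Yhat q hq r φ z (hs1 z hz) (hs2 z hz)
  have hq1 : (1 : ℝ) ≤ q := by exact_mod_cast hq
  have hpow : (1 / 2 : ℝ) ^ (k + 3) = 4 * (1 / 2 : ℝ) ^ (k + 5) := by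
    rw [pow_add, pow_add]; norm_num; ring
  have hpp : (0 : ℝ) < (1 / 2 : ℝ) ^ (k + 5) := by positivity
  refine ⟨fun z hz => (hd z hz).differentiableAt.differentiableWithinAt, ?_, ?_, ?_⟩
  · intro z hz
    rw [Yhat_eq, add_sub_cancel_left, norm_mul]
    have b1 : ‖Complex.I / (2 * Real.pi * q)‖ ≤ 1 / 6 := by
      rw [norm_div, norm_I, norm_mul, norm_mul, norm_ofNat, norm_real, norm_natCast,
        Real.norm_of_nonneg Real.pi_pos.le]
      apply one_div_le_one_div_of_le (by norm_num)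
      nlinarith [Real.pi_gt_three]
    have l1 := norm_log_one_add_half_le_self (z := (r : ℂ) * exp (ex q φ z))
      (by linarith [(hw z hz).1])
    have l2 := norm_log_one_add_half_le_self (z := (r : ℂ) * exp (-ex q φ z))
      (by linarith [(hw z hz).2])
    have b2 : ‖log (1 + r * exp (ex q φ z)) - log (1 + r * exp (-ex q φ z))‖ ≤
        3 * (1 / 2 : ℝ) ^ (k + 5) := by
      refine (norm_sub_le _ _).trans ?_
      linarith [(hw z hz).1, (hw z hz).2]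
    calc _ ≤ 1 / 6 * (3 * (1 / 2 : ℝ) ^ (k + 5)) :=
          mul_le_mul b1 b2 (norm_nonneg _) (by norm_num)
      _ ≤ _ := by rw [hpow]; linarith
  · intro z hz
    rw [(hd z hz).deriv]
    have e : (1 : ℂ) - (r * exp (ex q φ z) / (1 + r * exp (ex q φ z)) +
      r * exp (-ex q φ z) / (1 + r * exp (-ex q φ z))) - 1 =
      -(r * exp (ex q φ z) / (1 + r * exp (ex q φ z)) +
      r * exp (-ex q φ z) / (1 + r * exp (-ex q φ z))) := by ring
    rw [e, norm_neg]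
    refine (norm_add_le _ _).trans ?_
    have c1 := norm_div_le ((hw z hz).1.trans hk)
    have c2 := norm_div_le ((hw z hz).2.trans hk)
    rw [hpow]
    linarith [(hw z hz).1, (hw z hz).2]
  · intro x
    have hx : |((x : ℂ)).im| < 2 := by simp
    set t : ℝ := q * x - φ with ht
    set u : ℂ := 1 + r * exp (ex q φ x) with hu
    have eex : ex q φ x = 2 * Real.pi * (t : ℂ) * Complex.I := by
      unfold ex
      rw [ht]
      push_cast
      ring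
    have hconj : 1 + (r : ℂ) * exp (-ex q φ x) = (starRingEnd ℂ) u := by
      rw [hu, map_add, map_one, map_mul, conj_ofReal, ← exp_conj, eex]
      congr 3
      simp only [map_mul, conj_ofReal, conj_I, map_ofNat]
      ring
    have harg : u.arg ≠ Real.pi := (mem_slitPlane_iff_arg.1 (hs1 x hx)).1
    rw [Yhat_eq, hconj, log_conj _ harg, sub_conj, log_im]
    have hX : X r t = t - u.arg / Real.pi := by
      rw [X, hu, eex]
    rw [hX]
    have hpi : (Real.pi : ℂ) ≠ 0 := ofReal_ne_zero.2 Real.pi_ne_zero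
    have hq' : (q : ℂ) ≠ 0 := Nat.cast_ne_zero.2 hq.ne'
    push_cast
    field_simp
    ring_nf
    rw [I_sq]
    ring

end Pool.Agent.Helper39.Rot
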