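import Mathlib

set_option autoImplicit false

/-!
# 3-tensors in coordinates, restriction, direct sum, Kronecker product, unit tensors
-/

namespace Pool.Agent.Helper4

universe u

/-- A 3-tensor over `F` of arbitrary format: natural numbers `n₁ n₂ n₃` and an element
`∑ coef i j k • e_i ⊗ e_j ⊗ e_k` of `F^n₁ ⊗ F^n₂ ⊗ F^n₃`, given by its coordinates. -/
structure Tensor3 (F : Type u) where
  /-- first dimension -/
  n₁ : ℕ
  /-- second dimension -/
  n₂ : ℕ
  /-- third dimension -/
  n₃ : ℕ
  /-- coordinates -/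
  coef : Fin n₁ → Fin n₂ → Fin n₃ → F

/-- Coordinates of `(A ⊗ B ⊗ C) t` for a tensor `t` of format `a × b × c` and matrices `A B C`. -/
def act {F : Type u} [Field F] {a b c a' b' c' : ℕ} (A : Matrix (Fin a') (Fin a) F)
    (B : Matrix (Fin b') (Fin b) F) (C : Matrix (Fin c') (Fin c) F)
    (t : Fin a → Fin b → Fin c → F) : Fin a' → Fin b' → Fin c' → F :=
  fun i j k => ∑ i', ∑ j', ∑ k', A i i' * B j j' * C k k' * t i' j' k'

/-- Restriction of 3-tensors: `S ≤ T` if `S = (A ⊗ B ⊗ C) T` for some linear maps (matrices)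
`A`, `B`, `C` acting on the three factors. -/
def Restricts {F : Type u} [Field F] (S T : Tensor3 F) : Prop :=
  ∃ (A : Matrix (Fin S.n₁) (Fin T.n₁) F) (B : Matrix (Fin S.n₂) (Fin T.n₂) F)
    (C : Matrix (Fin S.n₃) (Fin T.n₃) F), S.coef = act A B C T.coef

/-- A relation `r` on `α` is countably universal if every countable preorder order-embeds into
it, i.e. admits a map `φ` with `x ≤ y ↔ r (φ x) (φ y)`. -/
def CountablyUniversal {α : Type u} (r : α → α → Prop) : Prop :=
  ∀ (P : Type) [Countable P] [Preorder P], ∃ φ : P → α, ∀ x y : P, x ≤ y ↔ r (φ x) (φ y)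

section operations

variable {F : Type u} [Field F]

/-- The direct sum `S ⊕ T` of two 3-tensors (block-diagonal): the coordinate at `(i,j,k)` is that
of `S` if all three indices are in the first block, that of `T` if all three are in the second
block, and `0` otherwise. -/
def directSum (S T : Tensor3 F) : Tensor3 F where
  n₁ := S.n₁ + T.n₁
  n₂ := S.n₂ + T.n₂
  n₃ := S.n₃ + T.n₃
  coef := fun i j k =>
    Sum.elim
      (fun i => Sum.elim (fun j => Sum.elim (fun k => S.coef i j k) (fun _ => 0)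
        (finSumFinEquiv.symm k)) (fun _ => 0) (finSumFinEquiv.symm j))
      (fun i => Sum.elim (fun _ => 0) (fun j => Sum.elim (fun _ => 0) (fun k => T.coef i j k)
        (finSumFinEquiv.symm k)) (finSumFinEquiv.symm j))
      (finSumFinEquiv.symm i)

/-- The Kronecker product `S ⊠ T` of two 3-tensors: the coordinate at `((i,i'),(j,j'),(k,k'))` is
`S_{ijk} T_{i'j'k'}`, where pairs are numbered by `finProdFinEquiv`. -/
def kronecker (S T : Tensor3 F) : Tensor3 F where
  n₁ := S.n₁ * T.n₁
  n₂ := S.n₂ * T.n₂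
  n₃ := S.n₃ * T.n₃
  coef := fun i j k =>
    S.coef (finProdFinEquiv.symm i).1 (finProdFinEquiv.symm j).1 (finProdFinEquiv.symm k).1 *
      T.coef (finProdFinEquiv.symm i).2 (finProdFinEquiv.symm j).2 (finProdFinEquiv.symm k).2

variable (F) in
/-- The unit tensor `⟨r⟩ = ∑ i, e_i ⊗ e_i ⊗ e_i`, which represents the natural number `r`. -/
def unit (r : ℕ) : Tensor3 F where
  n₁ := r
  n₂ := r
  n₃ := r
  coef := fun i j k => if i = j ∧ j = k then 1 else 0

end operations

section aux

variable {F : Type u} [Field F]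

theorem act_act {a b c a' b' c' a'' b'' c'' : ℕ}
    (A : Matrix (Fin a') (Fin a) F) (B : Matrix (Fin b') (Fin b) F)
    (C : Matrix (Fin c') (Fin c) F)
    (A' : Matrix (Fin a'') (Fin a') F) (B' : Matrix (Fin b'') (Fin b') F)
    (C' : Matrix (Fin c'') (Fin c') F) (t : Fin a → Fin b → Fin c → F) :
    act A' B' C' (act A B C t) = act (A' * A) (B' * B) (C' * C) t := by
  funext i j k
  have h1 : act A' B' C' (act A B C t) i j k
      = ∑ p : Fin a' × Fin b' × Fin c', ∑ q : Fin a × Fin b × Fin c,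
          A' i p.1 * B' j p.2.1 * C' k p.2.2 *
            (A p.1 q.1 * B p.2.1 q.2.1 * C p.2.2 q.2.2 * t q.1 q.2.1 q.2.2) := by
    simp only [act, Fintype.sum_prod_type, Finset.mul_sum]
  have h2 : act (A' * A) (B' * B) (C' * C) t i j k
      = ∑ q : Fin a × Fin b × Fin c, ∑ p : Fin a' × Fin b' × Fin c',
          A' i p.1 * B' j p.2.1 * C' k p.2.2 *
            (A p.1 q.1 * B p.2.1 q.2.1 * C p.2.2 q.2.2 * t q.1 q.2.1 q.2.2) := by
    simp only [act, Matrix.mul_apply]
    rw [Fintype.sum_prod_type]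
    refine Finset.sum_congr rfl fun x _ => ?_
    rw [Fintype.sum_prod_type]
    refine Finset.sum_congr rfl fun y _ => ?_
    refine Finset.sum_congr rfl fun z _ => ?_
    rw [Finset.sum_mul_sum, Finset.sum_mul, Finset.sum_mul, Fintype.sum_prod_type]
    refine Finset.sum_congr rfl fun u _ => ?_
    rw [Finset.sum_mul, Finset.sum_mul, Fintype.sum_prod_type]
    refine Finset.sum_congr rfl fun v _ => ?_
    rw [Finset.mul_sum, Finset.sum_mul]
    refine Finset.sum_congr rfl fun w _ => ?_
    ring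
  rw [h1, h2, Finset.sum_comm]

theorem act_one {a b c : ℕ} (t : Fin a → Fin b → Fin c → F) :
    act (1 : Matrix (Fin a) (Fin a) F) (1 : Matrix (Fin b) (Fin b) F)
      (1 : Matrix (Fin c) (Fin c) F) t = t := by
  funext i j k
  simp only [act, Matrix.one_apply]
  rw [Finset.sum_eq_single i, Finset.sum_eq_single j, Finset.sum_eq_single k]
  · simp
  · intro z _ hz; simp [Ne.symm hz]
  · simp
  · intro z _ hz; simp [Ne.symm hz]
  · simp
  · intro z _ hz; simp [Ne.symm hz]
  · simp

theorem restricts_refl (S : Tensor3 F) : Restricts S S :=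
  ⟨1, 1, 1, (act_one _).symm⟩

theorem restricts_trans {R S T : Tensor3 F} (h₁ : Restricts R S) (h₂ : Restricts S T) :
    Restricts R T := by
  obtain ⟨A, B, C, h⟩ := h₁
  obtain ⟨A', B', C', h'⟩ := h₂
  exact ⟨A * A', B * B', C * C', by rw [h, h', act_act]⟩

/-- Factor a matrix through its column space. -/
theorem factor {a b : ℕ} (A : Matrix (Fin b) (Fin a) F) :
    ∃ (r : ℕ) (A₁ : Matrix (Fin r) (Fin a) F) (A₂ : Matrix (Fin b) (Fin r) F)
      (L : Matrix (Fin r) (Fin b) F),
      A = A₂ * A₁ ∧ L * A₂ = 1 ∧ r ≤ a ∧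
      (r < a ∨ ∃ M : Matrix (Fin a) (Fin b) F, M * A = 1) := by
  classical
  set f := Matrix.toLin' A with hf
  obtain ⟨e⟩ : Nonempty (LinearMap.range f ≃ₗ[F] (Fin (Module.finrank F (LinearMap.range f)) → F)) :=
    ⟨(Module.finBasis F (LinearMap.range f)).equivFun⟩
  have hinj : Function.Injective ((LinearMap.range f).subtype ∘ₗ e.symm.toLinearMap) := by
    intro x y hxy
    have : e.symm x = e.symm y := Subtype.ext hxy
    exact e.symm.injective this
  obtain ⟨L, hL⟩ := LinearMap.exists_leftInverse_of_injective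
    ((LinearMap.range f).subtype ∘ₗ e.symm.toLinearMap) (LinearMap.ker_eq_bot.mpr hinj)
  have h1 := LinearMap.finrank_range_add_finrank_ker f
  rw [Module.finrank_fin_fun] at h1
  refine ⟨Module.finrank F (LinearMap.range f),
    LinearMap.toMatrix' (e.toLinearMap ∘ₗ f.rangeRestrict),
    LinearMap.toMatrix' ((LinearMap.range f).subtype ∘ₗ e.symm.toLinearMap),
    LinearMap.toMatrix' L, ?_, ?_, by omega, ?_⟩
  · rw [← LinearMap.toMatrix'_comp]
    have : ((LinearMap.range f).subtype ∘ₗ e.symm.toLinearMap) ∘ₗ (e.toLinearMap ∘ₗ f.rangeRestrict)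
        = f := by
      apply LinearMap.ext
      intro x
      simp
    rw [this, hf, LinearMap.toMatrix'_toLin']
  · rw [← LinearMap.toMatrix'_comp, hL, LinearMap.toMatrix'_id]
  · by_cases hA : Function.Injective f
    · right
      obtain ⟨M, hM⟩ := LinearMap.exists_leftInverse_of_injective f (LinearMap.ker_eq_bot.mpr hA)
      refine ⟨LinearMap.toMatrix' M, ?_⟩
      have := congrArg LinearMap.toMatrix' hM
      rw [LinearMap.toMatrix'_comp, LinearMap.toMatrix'_id, hf, LinearMap.toMatrix'_toLin'] at this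
      exact this
    · left
      have h2 : 0 < Module.finrank F (LinearMap.ker f) := by
        rw [Module.finrank_pos_iff]
        rw [Submodule.nontrivial_iff_ne_bot]
        intro h
        exact hA (LinearMap.ker_eq_bot.mp h)
      omega

/-- A strict restriction of `T` is equivalent to a tensor whose total dimension is smaller than
that of `T`. -/
theorem exists_smaller {S T : Tensor3 F} (h : Restricts S T) (h' : ¬ Restricts T S) :
    ∃ S' : Tensor3 F, Restricts S S' ∧ Restricts S' S ∧
      S'.n₁ + S'.n₂ + S'.n₃ < T.n₁ + T.n₂ + T.n₃ := by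
  obtain ⟨A, B, C, hS⟩ := h
  obtain ⟨a, A₁, A₂, LA, hA, hLA, ha, hA'⟩ := factor A
  obtain ⟨b, B₁, B₂, LB, hB, hLB, hb, hB'⟩ := factor B
  obtain ⟨c, C₁, C₂, LC, hC, hLC, hc, hC'⟩ := factor C
  by_cases hall : (∃ M : Matrix (Fin T.n₁) (Fin S.n₁) F, M * A = 1) ∧
      (∃ M : Matrix (Fin T.n₂) (Fin S.n₂) F, M * B = 1) ∧
      (∃ M : Matrix (Fin T.n₃) (Fin S.n₃) F, M * C = 1)
  · exfalso
    obtain ⟨⟨MA, hMA⟩, ⟨MB, hMB⟩, ⟨MC, hMC⟩⟩ := hall
    exact h' ⟨MA, MB, MC, by rw [hS, act_act, hMA, hMB, hMC, act_one]⟩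
  · refine ⟨⟨a, b, c, act A₁ B₁ C₁ T.coef⟩, ⟨A₂, B₂, C₂, ?_⟩, ⟨LA, LB, LC, ?_⟩, ?_⟩
    · rw [act_act, ← hA, ← hB, ← hC, hS]
    · show act A₁ B₁ C₁ T.coef = _
      have e1 : LA * A = A₁ := by rw [hA, ← Matrix.mul_assoc, hLA, Matrix.one_mul]
      have e2 : LB * B = B₁ := by rw [hB, ← Matrix.mul_assoc, hLB, Matrix.one_mul]
      have e3 : LC * C = C₁ := by rw [hC, ← Matrix.mul_assoc, hLC, Matrix.one_mul]
      rw [hS, act_act, e1, e2, e3]
    · show a + b + c < _
      by_contra hcon
      have ha' : a = T.n₁ := by omega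
      have hb' : b = T.n₂ := by omega
      have hc' : c = T.n₃ := by omega
      exact hall ⟨hA'.resolve_left (by omega), hB'.resolve_left (by omega),
        hC'.resolve_left (by omega)⟩

/-- The strict part of restriction is well-founded: no infinite strictly descending chains. -/
theorem restricts_wf : WellFounded (fun S T : Tensor3 F => Restricts S T ∧ ¬ Restricts T S) := by
  have key : ∀ (N : ℕ) (T T' : Tensor3 F), Restricts T T' → Restricts T' T →
      T'.n₁ + T'.n₂ + T'.n₃ = N →
      Acc (fun S T : Tensor3 F => Restricts S T ∧ ¬ Restricts T S) T := by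
    intro N
    induction N using Nat.strong_induction_on with
    | _ N ih =>
      intro T T' h1 h2 hN
      refine Acc.intro T ?_
      rintro S ⟨hST, hTS⟩
      obtain ⟨S', h3, h4, h5⟩ := exists_smaller (restricts_trans hST h1)
        (fun h => hTS (restricts_trans h1 h))
      exact ih _ (by omega) S S' h3 h4 rfl
  exact ⟨fun T => key _ T T (restricts_refl T) (restricts_refl T) rfl⟩

/-- A relation whose strict part is well-founded is not countably universal. -/
theorem not_countablyUniversal_of_wf {α : Type u} (r : α → α → Prop)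
    (h : WellFounded (fun x y => r x y ∧ ¬ r y x)) : ¬ CountablyUniversal r := by
  intro hu
  obtain ⟨φ, hφ⟩ := hu ℕᵒᵈ
  have : IsWellFounded α (fun x y => r x y ∧ ¬ r y x) := ⟨h⟩
  obtain ⟨n, hn⟩ := WellFounded.not_rel_apply_succ
    (r := fun x y => r x y ∧ ¬ r y x) (fun n : ℕ => φ (OrderDual.toDual n))
  refine hn ⟨(hφ _ _).mp ?_, fun hc => ?_⟩
  · exact OrderDual.toDual_le_toDual.mpr (Nat.le_succ n)
  · have := OrderDual.toDual_le_toDual.mp ((hφ _ _).mpr hc)
    omega

end aux

end Pool.Agent.Helper4
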